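import Mathlib

/-!
# Boolean branching programs and circuits

Definitions.
-/

set_option autoImplicit false

namespace Pool.Agent.W988.PF

/-- A deterministic branching program with set of states `Q` for inputs of `n` bits. -/
structure BP (n : ℕ) (Q : Type) where
  /-- the first state -/
  start : Q
  /-- what happens in a state: the program stops with an output, or it reads a bit of the input -/
  act : Q → Bool ⊕ Fin n
  /-- the next state, given the value of the bit that was read -/
  next : Q → Bool → Q

namespace BP

variable {n : ℕ} {Q : Type} (P : BP n Q)

/-- One step on the input `x`; nothing changes any more when the program has stopped. -/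
def step (x : Fin n → Bool) (q : Q) : Q :=
  match P.act q with
  | .inl _ => q
  | .inr i => P.next q (x i)

/-- The state after `j` steps on the input `x`. -/
def state (x : Fin n → Bool) (j : ℕ) : Q := (P.step x)^[j] P.start

/-- On the input `x` the program stops with output `b`. -/
def Outputs (x : Fin n → Bool) (b : Bool) : Prop := ∃ j, P.act (P.state x j) = Sum.inl b

/-- The number of different bits of the input `x` that the program reads. -/
noncomputable def reads (x : Fin n → Bool) : ℕ :=
  Nat.card {i : Fin n // ∃ j, P.act (P.state x j) = Sum.inr i}

end BP

/-- The label of a gate of a circuit with set of gates `G` for inputs of `n` bits. -/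
inductive Op (n : ℕ) (G : Type) : Type where
  /-- a bit of the input -/
  | inp (i : Fin n) : Op n G
  /-- a constant -/
  | con (b : Bool) : Op n G
  /-- a Boolean function of the values of two gates -/
  | bin (h : Bool → Bool → Bool) (a b : G) : Op n G

namespace Op

variable {n : ℕ} {G : Type}

/-- The value of a gate on the input `x`, given the values `u` of the other gates. -/
def eval (x : Fin n → Bool) (u : G → Bool) : Op n G → Bool
  | inp i => x i
  | con b => b
  | bin h a b => h (u a) (u b)

/-- The level of a gate is larger than the levels of the gates that feed it. -/
def Above (lev : G → ℕ) (l : ℕ) : Op n G → Prop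
  | inp _ => True
  | con _ => True
  | bin _ a b => lev a < l ∧ lev b < l

end Op

/-- A Boolean circuit with gates of fan-in two for inputs of `n` bits. -/
structure Circuit (n : ℕ) where
  /-- the gates -/
  Gate : Type
  /-- there are finitely many gates -/
  fin : Fintype Gate
  /-- the label of a gate -/
  op : Gate → Op n Gate
  /-- a level for every gate -/
  lev : Gate → ℕ
  /-- the circuit has no cycles -/
  lev_lt : ∀ g, (op g).Above lev (lev g)
  /-- the output gate -/
  out : Gate

namespace Circuit

variable {n : ℕ} (C : Circuit n)

/-- The number of gates. -/
noncomputable def size : ℕ := Nat.card C.Gate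

/-- On the input `x` the output gate has the value `b`. -/
def Outputs (x : Fin n → Bool) (b : Bool) : Prop :=
  ∃ u : C.Gate → Bool, (∀ g, u g = (C.op g).eval x u) ∧ u C.out = b

/-- The values of the gates are determined by the input. -/
theorem values_unique (x : Fin n → Bool) (u u' : C.Gate → Bool)
    (h : ∀ g, u g = (C.op g).eval x u) (h' : ∀ g, u' g = (C.op g).eval x u') : u = u' := by
  have key : ∀ l, ∀ g, C.lev g < l → u g = u' g := by
    intro l
    induction l with
    | zero => intro g hg; omega
    | succ l ih =>
      intro g hg
      have hl := C.lev_lt g
      rw [h g, h' g]
      cases hop : C.op g with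
      | inp i => rfl
      | con b => rfl
      | bin f a b =>
        rw [hop] at hl
        have h1 := ih a (by have := hl.1; omega)
        have h2 := ih b (by have := hl.2; omega)
        simp only [Op.eval, h1, h2]
  funext g
  exact key _ g (Nat.lt_succ_self _)

end Circuit

end Pool.Agent.W988.PF
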