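import Mathlib
import Pool.Agent.W988.PF.Rec

/-!
# The graphs of Paul, Tarjan and Celoni with butterflies

After Pool.Agent.W953.PT.Graph (helper953), with explicit index sets.
-/

set_option autoImplicit false

namespace Pool.Agent.W988.PF

/-- append one bit -/
def ext {m : ℕ} (r : Fin m → Bool) (b : Bool) : Fin (m + 1) → Bool :=
  fun i => if h : i.val < m then r ⟨i.val, h⟩ else b

/-- forget the last bit -/
def ini {m : ℕ} (x : Fin (m + 1) → Bool) : Fin m → Bool := fun i => x i.castSucc

lemma ext_ini {m : ℕ} (x : Fin (m + 1) → Bool) : ext (ini x) (x (Fin.last m)) = x := by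
  funext i
  unfold ext ini
  split_ifs with h
  · rfl
  · congr 1
    apply Fin.ext
    have := i.2
    rw [Fin.val_last]
    omega

lemma ini_ext {m : ℕ} (r : Fin m → Bool) (b : Bool) : ini (ext r b) = r := by
  funext i
  show (if h : (i.castSucc).val < m then r ⟨(i.castSucc).val, h⟩ else b) = r i
  rw [dif_pos (by simp)]
  rfl

lemma ext_last {m : ℕ} (r : Fin m → Bool) (b : Bool) : ext r b (Fin.last m) = b := by
  unfold ext
  rw [dif_neg (by simp)]

/-- the bijection -/
def extEquiv (m : ℕ) : (Fin m → Bool) × Bool ≃ (Fin (m + 1) → Bool) where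
  toFun p := ext p.1 p.2
  invFun x := (ini x, x (Fin.last m))
  left_inv p := Prod.ext (ini_ext _ _) (ext_last _ _)
  right_inv x := ext_ini x

/-- a graph with `2 ^ m` sources and sinks -/
structure Gr (m : ℕ) where
  /-- the vertices -/
  V : Type
  dec : DecidableEq V
  fin : Fintype V
  /-- the predecessors -/
  P : V → Finset V
  /-- the sources -/
  src : (Fin m → Bool) → V
  /-- the sinks -/
  snk : (Fin m → Bool) → V
  /-- the levels -/
  lvl : V → ℕ
  src_inj : Function.Injective src
  snk_inj : Function.Injective snk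
  edge : ∀ x, src x ∈ P (snk x)
  P_src : ∀ x, P (src x) = ∅
  P_card : ∀ v, (P v).card ≤ 2
  lvl_lt : ∀ v, ∀ u ∈ P v, lvl u < lvl v
  last : ∀ x v, snk x ∉ P v

attribute [instance] Gr.dec Gr.fin

/-- predecessors in a butterfly -/
def bfP {V : Type} [DecidableEq V] {j : ℕ} (bf : BV j → V) (inP : (Fin j → Bool) → Finset V)
    (z : BV j) : Finset V :=
  Fin.cases (motive := fun _ => Finset V) (inP z.2)
    (fun l => {bf (l.castSucc, z.2), bf (l.castSucc, flp z.2 l)}) z.1

section bfP

variable {V : Type} [DecidableEq V] {j : ℕ} (bf : BV j → V) (inP : (Fin j → Bool) → Finset V)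

lemma bfP_zero (r : Fin j → Bool) : bfP bf inP (0, r) = inP r := rfl

lemma bfP_succ (l : Fin j) (r : Fin j → Bool) :
    bfP bf inP (l.succ, r) = {bf (l.castSucc, r), bf (l.castSucc, flp r l)} := rfl

lemma bfP_card (h : ∀ r, (inP r).card ≤ 2) (z : BV j) : (bfP bf inP z).card ≤ 2 := by
  obtain ⟨l, r⟩ := z
  refine Fin.cases ?_ (fun l => ?_) l
  · rw [bfP_zero]; exact h r
  · rw [bfP_succ]; exact Finset.card_le_two

lemma mem_bfP {v : V} {z : BV j} (h : v ∈ bfP bf inP z) :
    (z.1 = 0 ∧ v ∈ inP z.2) ∨ ∃ z' : BV j, v = bf z' ∧ z'.1.val + 1 = z.1.val := by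
  obtain ⟨l, r⟩ := z
  revert h
  refine Fin.cases ?_ (fun l => ?_) l
  · intro h
    rw [bfP_zero] at h
    exact Or.inl ⟨rfl, h⟩
  · intro h
    rw [bfP_succ, Finset.mem_insert, Finset.mem_singleton] at h
    right
    rcases h with rfl | rfl
    · exact ⟨_, rfl, by simp⟩
    · exact ⟨_, rfl, by simp⟩

end bfP

/-! ### the base -/

/-- the vertices of the base graph -/
inductive V0 : Type
  | s (x : Fin 7 → Bool)
  | b (z : BV 7)
  | t (x : Fin 7 → Bool)

namespace V0

noncomputable instance : DecidableEq V0 := Classical.decEq _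

/-- the vertices as a sum -/
def equiv : V0 ≃ (Fin 7 → Bool) ⊕ (BV 7 ⊕ (Fin 7 → Bool)) where
  toFun
    | s x => .inl x
    | b z => .inr (.inl z)
    | t x => .inr (.inr x)
  invFun
    | .inl x => s x
    | .inr (.inl z) => b z
    | .inr (.inr x) => t x
  left_inv v := by cases v <;> rfl
  right_inv v := by rcases v with x | z | x <;> rfl

noncomputable instance : Fintype V0 := Fintype.ofEquiv _ equiv.symm

lemma card : Fintype.card V0 = 1280 := by
  rw [Fintype.card_congr equiv]
  simp [BV]

/-- predecessors -/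
noncomputable def P : V0 → Finset V0
  | s _ => ∅
  | b z => bfP b (fun r => {s r}) z
  | t x => {b (Fin.last 7, x), s x}

/-- levels -/
def lvl : V0 → ℕ
  | s _ => 0
  | b z => 1 + z.1.val
  | t _ => 9

end V0

/-- the base graph -/
noncomputable def gr0 : Gr 7 where
  V := V0
  dec := inferInstance
  fin := inferInstance
  P := V0.P
  src := V0.s
  snk := V0.t
  lvl := V0.lvl
  src_inj := fun x y h => V0.s.inj h
  snk_inj := fun x y h => V0.t.inj h
  edge := by
    intro x
    show V0.s x ∈ ({V0.b (Fin.last 7, x), V0.s x} : Finset V0)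
    simp
  P_src := fun x => rfl
  P_card := by
    intro v
    cases v with
    | s x => simp [V0.P]
    | b z => exact bfP_card _ _ (fun r => by simp) z
    | t x => exact Finset.card_le_two
  lvl_lt := by
    intro v u hu
    cases v with
    | s x => exact absurd hu (Finset.notMem_empty _)
    | b z =>
      rcases mem_bfP _ _ hu with ⟨h1, h2⟩ | ⟨z', rfl, h2⟩
      · rw [Finset.mem_singleton] at h2
        subst h2
        simp only [V0.lvl]
        omega
      · simp only [V0.lvl]; omega
    | t x =>
      have hu' : u ∈ ({V0.b (Fin.last 7, x), V0.s x} : Finset V0) := hu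
      rw [Finset.mem_insert, Finset.mem_singleton] at hu'
      rcases hu' with rfl | rfl
      · simp only [V0.lvl, Fin.val_last]
        omega
      · simp only [V0.lvl]; omega
  last := by
    intro x v hu
    cases v with
    | s y => exact absurd hu (Finset.notMem_empty _)
    | b z =>
      rcases mem_bfP _ _ hu with ⟨h1, h2⟩ | ⟨z', h2, _⟩
      · rw [Finset.mem_singleton] at h2
        exact absurd h2 (by simp)
      · exact absurd h2 (by simp)
    | t y =>
      have hu' : V0.t x ∈ ({V0.b (Fin.last 7, y), V0.s y} : Finset V0) := hu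
      rw [Finset.mem_insert, Finset.mem_singleton] at hu'
      rcases hu' with h | h
      · exact absurd h (by simp)
      · exact absurd h (by simp)

/-! ### the recursion -/

/-- the vertices of the next graph -/
inductive NV (W : Type) (m : ℕ) : Type
  | s (x : Fin (m + 1) → Bool)
  | a (z : BV m)
  | f (w : W)
  | g (w : W)
  | b (z : BV m)
  | t (x : Fin (m + 1) → Bool)

namespace NV

variable {W : Type} {m : ℕ}

noncomputable instance : DecidableEq (NV W m) := Classical.decEq _

/-- the vertices as a sum -/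
def equiv : NV W m ≃
    (Fin (m + 1) → Bool) ⊕ (BV m ⊕ (W ⊕ (W ⊕ (BV m ⊕ (Fin (m + 1) → Bool))))) where
  toFun
    | s x => .inl x
    | a z => .inr (.inl z)
    | f w => .inr (.inr (.inl w))
    | g w => .inr (.inr (.inr (.inl w)))
    | b z => .inr (.inr (.inr (.inr (.inl z))))
    | t x => .inr (.inr (.inr (.inr (.inr x))))
  invFun
    | .inl x => s x
    | .inr (.inl z) => a z
    | .inr (.inr (.inl w)) => f w
    | .inr (.inr (.inr (.inl w))) => g w
    | .inr (.inr (.inr (.inr (.inl z)))) => b z
    | .inr (.inr (.inr (.inr (.inr x)))) => t x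
  left_inv v := by cases v <;> rfl
  right_inv v := by rcases v with x | x | x | x | x | x <;> rfl

noncomputable instance [Fintype W] : Fintype (NV W m) := Fintype.ofEquiv _ equiv.symm

lemma card [Fintype W] : Fintype.card (NV W m) =
    2 * Fintype.card W + 2 * ((m + 1) * 2 ^ m) + 4 * 2 ^ m := by
  rw [Fintype.card_congr equiv]
  simp only [Fintype.card_sum, Fintype.card_prod, Fintype.card_bool, Fintype.card_fin,
    Fintype.card_fun]
  ring

variable (Q : W → Finset W) (src snk : (Fin m → Bool) → W)

open Classical in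
/-- predecessors -/
noncomputable def P : NV W m → Finset (NV W m)
  | s _ => ∅
  | a z => bfP a (fun r => {s (ext r false), s (ext r true)}) z
  | f w => if h : ∃ x, src x = w then {a (Fin.last m, h.choose)} else (Q w).image f
  | g w => if h : ∃ x, src x = w then {f (snk h.choose)} else (Q w).image g
  | b z => bfP b (fun r => {g (snk r)}) z
  | t x => {b (Fin.last m, ini x), s x}

variable {Q src snk}

lemma P_a_zero (r : Fin m → Bool) :
    P Q src snk (a (0, r)) = {s (ext r false), s (ext r true)} := rfl

lemma P_a_succ (l : Fin m) (r : Fin m → Bool) :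
    P Q src snk (a (l.succ, r)) = {a (l.castSucc, r), a (l.castSucc, flp r l)} := rfl

lemma P_b_zero (r : Fin m → Bool) : P Q src snk (b (0, r)) = {g (snk r)} := rfl

lemma P_b_succ (l : Fin m) (r : Fin m → Bool) :
    P Q src snk (b (l.succ, r)) = {b (l.castSucc, r), b (l.castSucc, flp r l)} := rfl

lemma P_t (x : Fin (m + 1) → Bool) :
    P Q src snk (t x) = {b (Fin.last m, ini x), s x} := rfl

lemma P_s (x : Fin (m + 1) → Bool) : P Q src snk (s x) = ∅ := rfl

open Classical in
lemma P_f_src (hsrc : Function.Injective src) (x : Fin m → Bool) :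
    P Q src snk (f (src x)) = {a (Fin.last m, x)} := by
  have h : ∃ x', src x' = src x := ⟨x, rfl⟩
  show (if h : ∃ x', src x' = src x then _ else _) = _
  rw [dif_pos h, hsrc h.choose_spec]

open Classical in
lemma P_g_src (hsrc : Function.Injective src) (x : Fin m → Bool) :
    P Q src snk (g (src x)) = {f (snk x)} := by
  have h : ∃ x', src x' = src x := ⟨x, rfl⟩
  show (if h : ∃ x', src x' = src x then _ else _) = _
  rw [dif_pos h, hsrc h.choose_spec]

open Classical in
lemma mem_P_f {w : W} (hw : ¬ ∃ x, src x = w) : P Q src snk (f w) = (Q w).image f := by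
  show (if h : ∃ x', src x' = w then _ else _) = _
  rw [dif_neg hw]

open Classical in
lemma mem_P_g {w : W} (hw : ¬ ∃ x, src x = w) : P Q src snk (g w) = (Q w).image g := by
  show (if h : ∃ x', src x' = w then _ else _) = _
  rw [dif_neg hw]

lemma P_card (hsrc : Function.Injective src) (hQ : ∀ w, (Q w).card ≤ 2) (v : NV W m) :
    (P Q src snk v).card ≤ 2 := by
  classical
  cases v with
  | s x => simp [P]
  | a z => exact bfP_card _ _ (fun r => Finset.card_le_two) z
  | f w =>
    by_cases h : ∃ x, src x = w
    · obtain ⟨x, rfl⟩ := h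
      rw [P_f_src hsrc]
      simp
    · rw [mem_P_f h]
      exact Finset.card_image_le.trans (hQ w)
  | g w =>
    by_cases h : ∃ x, src x = w
    · obtain ⟨x, rfl⟩ := h
      rw [P_g_src hsrc]
      simp
    · rw [mem_P_g h]
      exact Finset.card_image_le.trans (hQ w)
  | b z => exact bfP_card _ _ (fun r => by simp) z
  | t x => exact Finset.card_le_two

/-- levels -/
def lvl (L : ℕ) (l : W → ℕ) : NV W m → ℕ
  | s _ => 0
  | a z => 1 + z.1.val
  | f w => m + 2 + l w
  | g w => m + 3 + L + l w
  | b z => m + 4 + 2 * L + z.1.val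
  | t _ => 2 * m + 5 + 2 * L

lemma lvl_lt (hsrc : Function.Injective src) {l : W → ℕ} (hl : ∀ w, ∀ u ∈ Q w, l u < l w)
    {L : ℕ} (hL : ∀ w, l w ≤ L) (v u : NV W m) (hu : u ∈ P Q src snk v) :
    lvl L l u < lvl L l v := by
  classical
  cases v with
  | s x => exact absurd hu (Finset.notMem_empty _)
  | a z =>
    rcases mem_bfP _ _ hu with ⟨h1, h2⟩ | ⟨z', rfl, h2⟩
    · rw [Finset.mem_insert, Finset.mem_singleton] at h2
      rcases h2 with rfl | rfl <;> simp only [lvl] <;> omega
    · simp only [lvl]; omega
  | f w =>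
    by_cases h : ∃ x, src x = w
    · obtain ⟨x, rfl⟩ := h
      rw [P_f_src hsrc, Finset.mem_singleton] at hu
      subst hu
      simp only [lvl, Fin.val_last]
      omega
    · rw [mem_P_f h] at hu
      obtain ⟨u', hu', rfl⟩ := Finset.mem_image.mp hu
      have := hl w u' hu'
      simp only [lvl]
      omega
  | g w =>
    by_cases h : ∃ x, src x = w
    · obtain ⟨x, rfl⟩ := h
      rw [P_g_src hsrc, Finset.mem_singleton] at hu
      subst hu
      have := hL (snk x)
      simp only [lvl]
      omega
    · rw [mem_P_g h] at hu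
      obtain ⟨u', hu', rfl⟩ := Finset.mem_image.mp hu
      have := hl w u' hu'
      simp only [lvl]
      omega
  | b z =>
    rcases mem_bfP _ _ hu with ⟨h1, h2⟩ | ⟨z', rfl, h2⟩
    · rw [Finset.mem_singleton] at h2
      subst h2
      have := hL (snk z.2)
      simp only [lvl]
      omega
    · simp only [lvl]; omega
  | t x =>
    have hu' : u ∈ ({b (Fin.last m, ini x), s x} : Finset (NV W m)) := hu
    rw [Finset.mem_insert, Finset.mem_singleton] at hu'
    rcases hu' with rfl | rfl
    · simp only [lvl, Fin.val_last]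
      omega
    · simp only [lvl]; omega

lemma t_notMem (hsrc : Function.Injective src) (x : Fin (m + 1) → Bool) (v : NV W m) :
    t x ∉ P Q src snk v := by
  classical
  intro hu
  cases v with
  | s y => exact absurd hu (Finset.notMem_empty _)
  | a z =>
    rcases mem_bfP _ _ hu with ⟨h1, h2⟩ | ⟨z', h2, _⟩
    · rw [Finset.mem_insert, Finset.mem_singleton] at h2
      rcases h2 with h2 | h2 <;> exact absurd h2 (by simp)
    · exact absurd h2 (by simp)
  | f w =>
    by_cases h : ∃ x, src x = w
    · obtain ⟨y, rfl⟩ := h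
      rw [P_f_src hsrc, Finset.mem_singleton] at hu
      exact absurd hu (by simp)
    · rw [mem_P_f h] at hu
      obtain ⟨u', _, h2⟩ := Finset.mem_image.mp hu
      exact absurd h2 (by simp)
  | g w =>
    by_cases h : ∃ x, src x = w
    · obtain ⟨y, rfl⟩ := h
      rw [P_g_src hsrc, Finset.mem_singleton] at hu
      exact absurd hu (by simp)
    · rw [mem_P_g h] at hu
      obtain ⟨u', _, h2⟩ := Finset.mem_image.mp hu
      exact absurd h2 (by simp)
  | b z =>
    rcases mem_bfP _ _ hu with ⟨h1, h2⟩ | ⟨z', h2, _⟩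
    · rw [Finset.mem_singleton] at h2
      exact absurd h2 (by simp)
    · exact absurd h2 (by simp)
  | t y =>
    have hu' : t x ∈ ({b (Fin.last m, ini y), s y} : Finset (NV W m)) := hu
    rw [Finset.mem_insert, Finset.mem_singleton] at hu'
    rcases hu' with h | h
    · exact absurd h (by simp)
    · exact absurd h (by simp)

end NV

/-- the next graph -/
noncomputable def Gr.next {m : ℕ} (G : Gr m) : Gr (m + 1) where
  V := NV G.V m
  dec := inferInstance
  fin := inferInstance
  P := NV.P G.P G.src G.snk
  src := NV.s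
  snk := NV.t
  lvl := NV.lvl (Finset.univ.sup G.lvl) G.lvl
  src_inj := fun x y h => NV.s.inj h
  snk_inj := fun x y h => NV.t.inj h
  edge := by
    intro x
    rw [NV.P_t]
    simp
  P_src := fun x => rfl
  P_card := NV.P_card G.src_inj G.P_card
  lvl_lt := NV.lvl_lt G.src_inj G.lvl_lt (fun w => Finset.le_sup (Finset.mem_univ w))
  last := NV.t_notMem G.src_inj

/-- the graphs -/
noncomputable def gr : ∀ j : ℕ, Gr (j + 7)
  | 0 => gr0
  | j + 1 => (gr j).next

lemma claim_congr {V X Y : Type} [DecidableEq V] [Fintype X] [Fintype Y]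
    {P : V → Finset V} {src snk : X → V} {M : ℕ} (e : Y ≃ X)
    (h : Claim P (fun y => src (e y)) (fun y => snk (e y)) M) : Claim P src snk M := by
  classical
  have hT : ∀ (c : ℕ → Finset V) (s t : ℕ) (f : X → V),
      (T c s t (fun y => f (e y))).card = (T c s t f).card := by
    intro c s t f
    refine Finset.card_bij (fun y _ => e y) ?_ ?_ ?_
    · intro y hy
      rw [mem_T] at hy ⊢
      exact hy
    · intro y _ y' _ h
      exact e.injective h
    · intro x hx
      rw [mem_T] at hx
      refine ⟨e.symm x, ?_, e.apply_symm_apply x⟩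
      rw [mem_T, e.apply_symm_apply]
      exact hx
  intro c hc s t hst hcs htt
  obtain ⟨s', t', h1, h2, h3, h4, h5⟩ := h c hc s t hst hcs (by rw [hT]; exact htt)
  rw [hT] at h5
  exact ⟨s', t', h1, h2, h3, h4, h5⟩

theorem gr_claim (j : ℕ) : Claim (gr j).P (gr j).src (gr j).snk (2 ^ j) := by
  classical
  induction j with
  | zero =>
    refine claim_base (P := V0.P) (Equiv.refl _) (b := V0.b) ⟨fun x y h => V0.b.inj h, ?_, ?_⟩
      (fun x y h => V0.s.inj h) (fun x y h => V0.t.inj h) ?_ ?_
    · intro l r
      show _ ∈ bfP V0.b (fun r => {V0.s r}) (l.succ, r)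
      rw [bfP_succ]
      simp
    · intro l r
      show _ ∈ bfP V0.b (fun r => {V0.s r}) (l.succ, r)
      rw [bfP_succ]
      simp
    · intro x
      show V0.s x ∈ bfP V0.b (fun r => {V0.s r}) (0, x)
      rw [bfP_zero]
      simp
    · intro x
      show _ ∈ ({V0.b (Fin.last 7, x), V0.s x} : Finset V0)
      simp
  | succ j ih =>
    have hp : 2 ^ (j + 7) = 128 * 2 ^ j := by ring
    have key : Claim (NV.P (gr j).P (gr j).src (gr j).snk)
        (fun p : (Fin (j + 7) → Bool) × Bool => NV.s (ext p.1 p.2))
        (fun p => NV.t (ext p.1 p.2)) (2 * 2 ^ j) := by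
      refine claim_step (M := 2 ^ j) (by positivity) hp (gr j).src_inj (gr j).snk_inj
        (gr j).edge ih (Equiv.refl _) (g1 := NV.f) (g2 := NV.g)
        (fun x y h => NV.f.inj h) (fun x y h => NV.g.inj h) (fun x y h => by cases h) ?_ ?_
        (b1 := NV.a) (b2 := NV.b) ⟨fun x y h => NV.a.inj h, ?_, ?_⟩
        ⟨fun x y h => NV.b.inj h, ?_, ?_⟩
        (fun x y h => (extEquiv _).injective (NV.s.inj h))
        (fun x y h => (extEquiv _).injective (NV.t.inj h)) ?_ ?_ ?_ ?_ ?_
      · intro w u hu
        have hw : ¬ ∃ x, (gr j).src x = w := by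
          rintro ⟨x, rfl⟩
          rw [(gr j).P_src] at hu
          exact absurd hu (Finset.notMem_empty _)
        rw [NV.mem_P_f hw]
        exact Finset.mem_image_of_mem _ hu
      · intro w u hu
        have hw : ¬ ∃ x, (gr j).src x = w := by
          rintro ⟨x, rfl⟩
          rw [(gr j).P_src] at hu
          exact absurd hu (Finset.notMem_empty _)
        rw [NV.mem_P_g hw]
        exact Finset.mem_image_of_mem _ hu
      · intro l r
        rw [NV.P_a_succ]
        simp
      · intro l r
        rw [NV.P_a_succ]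
        simp
      · intro l r
        rw [NV.P_b_succ]
        simp
      · intro l r
        rw [NV.P_b_succ]
        simp
      · intro x b
        show NV.s (ext x b) ∈ NV.P (gr j).P (gr j).src (gr j).snk (NV.a (0, x))
        rw [NV.P_a_zero]
        cases b <;> simp
      · intro x
        rw [NV.P_f_src (gr j).src_inj]
        simp
      · intro x
        rw [NV.P_g_src (gr j).src_inj]
        simp
      · intro x
        show NV.g ((gr j).snk x) ∈ NV.P (gr j).P (gr j).src (gr j).snk (NV.b (0, x))
        rw [NV.P_b_zero]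
        simp
      · intro x
        show NV.b (Fin.last _, x.1) ∈ _
        rw [NV.P_t, ini_ext]
        simp
    rw [pow_succ, Nat.mul_comm]
    exact claim_congr (extEquiv (j + 7)) key

lemma gr_card (j : ℕ) : Fintype.card (gr j).V ≤ 128 * 2 ^ j * (j + 5) ^ 2 := by
  induction j with
  | zero =>
    have h : Fintype.card (gr 0).V = 1280 := V0.card
    rw [h]
    norm_num
  | succ j ih =>
    have hp : 2 ^ (j + 7) = 128 * 2 ^ j := by ring
    have h : Fintype.card (gr (j + 1)).V = 2 * Fintype.card (gr j).V +
      2 * ((j + 7 + 1) * 2 ^ (j + 7)) + 4 * 2 ^ (j + 7) := NV.card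
    rw [h, hp]
    have : 128 * 2 ^ (j + 1) * (j + 1 + 5) ^ 2 =
        2 * (128 * 2 ^ j * (j + 5) ^ 2) + 2 * ((j + 7 + 1) * (128 * 2 ^ j)) +
          4 * (128 * 2 ^ j) + 2 ^ j * 256 * (j + 1) := by ring
    omega

end Pool.Agent.W988.PF
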