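import Pool.Agent.W988.PF.CM
import Pool.Agent.W988.PF.Gr

/-! Catalytic evaluation of the graphs of Paul, Tarjan and Celoni block by block. -/

set_option autoImplicit false

namespace Pool.Agent.W988.PF

open Finset
open Pool.Agent.W988.SR

/-! ### indices -/

/-- replace the first `i` bits -/
def mix {i m : ℕ} (r : Fin m → Bool) (x : Fin i → Bool) : Fin m → Bool :=
  fun q => if h : q.val < i then x ⟨q.val, h⟩ else r q

lemma mix_ext {i m : ℕ} (hm : i ≤ m) (r : Fin m → Bool) (x : Fin i → Bool) (b : Bool) :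
    ext (mix r x) b = mix (ext r b) x := by
  funext q
  by_cases h1 : q.val < m
  · by_cases h2 : q.val < i
    · simp [ext, mix, h1, h2]
    · simp [ext, mix, h1, h2]
  · have h2 : ¬ q.val < i := by omega
    simp [ext, mix, h1, h2]

lemma mix_ini {i m : ℕ} (r : Fin (m + 1) → Bool) (x : Fin i → Bool) :
    ini (mix r x) = mix (ini r) x := by
  funext q
  rfl

lemma mix_flp_ge {i m : ℕ} (r : Fin m → Bool) (x : Fin i → Bool) (l : Fin m) (h : i ≤ l.val) :
    flp (mix r x) l = mix (flp r l) x := by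
  funext q
  unfold flp mix
  by_cases hq : q = l
  · subst hq
    rw [Function.update_self, dif_neg (by omega), dif_neg (by omega), Function.update_self]
  · rw [Function.update_of_ne hq]
    split_ifs with h1
    · rfl
    · rw [Function.update_of_ne hq]

lemma mix_flp_lt {i m : ℕ} (r : Fin m → Bool) (x : Fin i → Bool) (l : Fin m) (h : l.val < i) :
    flp (mix r x) l = mix r (flp x ⟨l.val, h⟩) := by
  funext q
  unfold flp mix
  by_cases hq : q = l
  · subst hq
    rw [Function.update_self, dif_pos h, dif_pos h, Function.update_self]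
  · rw [Function.update_of_ne hq]
    split_ifs with h1
    · rw [Function.update_of_ne]
      intro h2
      apply hq
      apply Fin.ext
      have h3 : (⟨q.val, h1⟩ : Fin i).val = (⟨l.val, h⟩ : Fin i).val := congrArg Fin.val h2
      exact h3
    · rfl

lemma mix_self {i : ℕ} (r x : Fin i → Bool) : mix r x = x := by
  funext q
  unfold mix
  rw [dif_pos q.2]

lemma mix_inj {i m : ℕ} (hm : i ≤ m) (r : Fin m → Bool) :
    Function.Injective (fun x : Fin i → Bool => mix r x) := by
  intro x y h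
  have h : mix r x = mix r y := h
  funext q
  have h1 := congrFun h ⟨q.val, lt_of_lt_of_le q.2 hm⟩
  unfold mix at h1
  rw [dif_pos q.2, dif_pos q.2] at h1
  exact h1

/-- the first `i` bits -/
def res {i m : ℕ} (hm : i ≤ m) (r : Fin m → Bool) : Fin i → Bool :=
  fun q => r ⟨q.val, lt_of_lt_of_le q.2 hm⟩

lemma mix_res {i m : ℕ} (hm : i ≤ m) (r : Fin m → Bool) : mix r (res hm r) = r := by
  funext q
  unfold mix res
  split_ifs <;> rfl

/-! ### sorted lists -/

lemma exists_sorted {S : Type} (A : Finset S) (lvl : S → ℕ) :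
    ∃ l : List S, l.Nodup ∧ (∀ w, w ∈ l ↔ w ∈ A) ∧ l.Pairwise (fun a b => lvl a ≤ lvl b) := by
  classical
  refine ⟨A.toList.insertionSort (fun a b => lvl a ≤ lvl b), ?_, ?_, ?_⟩
  · exact ((List.perm_insertionSort _ _).nodup_iff).2 (Finset.nodup_toList A)
  · intro w
    rw [List.Perm.mem_iff (List.perm_insertionSort _ _), Finset.mem_toList]
  · have : Std.Total (fun a b : S => lvl a ≤ lvl b) := ⟨fun a b => le_total _ _⟩
    have : IsTrans S (fun a b => lvl a ≤ lvl b) := ⟨fun a b c h h' => le_trans h h'⟩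
    exact List.pairwise_insertionSort _ _

section blk

variable {K : Type} [Field K] [Fintype K] [DecidableEq K] {k : ℕ} [NeZero k] {V : Type}
  {G : Dag V} {j₀ : ℕ}

/-- the growth of the length -/
def Gf (q k P S : ℕ) (ℓ : ℕ) : ℕ := (q - 1) * (4 * ℓ + k ^ (2 * P) * (S + 1) + 2)

lemma Gf_mono (q k P S : ℕ) : Monotone (Gf q k P S) := by
  intro a b h
  unfold Gf
  exact Nat.mul_le_mul_left _ (by omega)

lemma le_Gf {q : ℕ} (hq : 2 ≤ q) (k P S ℓ : ℕ) : ℓ ≤ Gf q k P S ℓ := by
  unfold Gf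
  calc ℓ ≤ 1 * (4 * ℓ + k ^ (2 * P) * (S + 1) + 2) := by omega
    _ ≤ _ := Nat.mul_le_mul_right _ (by omega)

/-- all blocks of a layer -/
def LC (K : Type) [Field K] (G : Dag V) (k : ℕ) [NeZero k] (j₀ : ℕ) (ℓ : ℕ) {m : ℕ}
    (y : (Fin m → Bool) → V) : Prop :=
  ∀ r : Fin m → Bool, Comp K G k (gr j₀).V ℓ (fun x : Fin (j₀ + 7) → Bool => y (mix r x))

omit [Fintype K] [DecidableEq K] in
lemma LC.mono {ℓ ℓ' : ℕ} {m : ℕ} {y : (Fin m → Bool) → V} (h : LC K G k j₀ ℓ y)
    (hl : ℓ ≤ ℓ') : LC K G k j₀ ℓ' y := fun r => (h r).mono hl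

lemma card_pos_le (j₀ : ℕ) : Fintype.card (Fin (j₀ + 7) → Bool) ≤ Fintype.card (gr j₀).V :=
  Fintype.card_le_of_injective _ (gr j₀).src_inj

/-- one layer, block by block -/
lemma comp_step (hK : 2 * Fintype.card (Fin (j₀ + 7) → Bool) < Fintype.card K - 1)
    (e₀ : G.Entry k) {u1 u2 y : (Fin (j₀ + 7) → Bool) → V} {ℓ : ℕ}
    (h1 : Comp K G k (gr j₀).V ℓ u1) (h2 : Comp K G k (gr j₀).V ℓ u2)
    (hy : Function.Injective y)
    (hp : ∀ x, ∀ v ∈ G.pred (y x), (∃ x', u1 x' = v) ∨ (∃ x', u2 x' = v)) :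
    Comp K G k (gr j₀).V (Gf (Fintype.card K) k (Fintype.card (Fin (j₀ + 7) → Bool))
      (Fintype.card (gr j₀).V) ℓ) y := by
  classical
  let g : (gr j₀).V → V := fun s =>
    if h : ∃ x, (gr j₀).src x = s then y h.choose else y (fun _ => false)
  have hg : ∀ x, g ((gr j₀).src x) = y x := by
    intro x
    have h : ∃ x', (gr j₀).src x' = (gr j₀).src x := ⟨x, rfl⟩
    show (if h : ∃ x', (gr j₀).src x' = (gr j₀).src x then y h.choose else _) = _
    rw [dif_pos h, (gr j₀).src_inj h.choose_spec]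
  have hmem : ∀ s, s ∈ ((univ : Finset (Fin (j₀ + 7) → Bool)).toList.map (gr j₀).src) ↔
      ∃ x, (gr j₀).src x = s := by
    intro s
    rw [List.mem_map]
    constructor
    · rintro ⟨x, _, hx⟩
      exact ⟨x, hx⟩
    · rintro ⟨x, hx⟩
      exact ⟨x, by rw [Finset.mem_toList]; exact mem_univ _, hx⟩
  have key := comp_block (S := (gr j₀).V) hK e₀ g
    ((univ : Finset (Fin (j₀ + 7) → Bool)).toList.map (gr j₀).src) (gr j₀).src u1 u2 h1 h2
    (by
      intro a ha b hb hab
      obtain ⟨x, rfl⟩ := (hmem a).1 ha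
      obtain ⟨x', rfl⟩ := (hmem b).1 hb
      rw [hg, hg] at hab
      rw [hy hab])
    (by
      intro l1 w l2 hl v hv
      have hw : w ∈ ((univ : Finset (Fin (j₀ + 7) → Bool)).toList.map (gr j₀).src) := by
        rw [hl]
        simp
      obtain ⟨x, rfl⟩ := (hmem w).1 hw
      rw [hg] at hv
      rcases hp x v hv with h | h
      · exact Or.inl h
      · exact Or.inr (Or.inl h))
    (by
      intro x
      exact (hmem _).2 ⟨x, rfl⟩)
  have h3 : (fun x => g ((gr j₀).src x)) = y := funext hg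
  rw [h3] at key
  refine key.mono ?_
  unfold Gf
  rw [List.length_map, Finset.length_toList, Finset.card_univ]
  have := card_pos_le j₀
  refine Nat.mul_le_mul_left _ ?_
  refine Nat.add_le_add_right (Nat.add_le_add_left ?_ _) _
  exact Nat.mul_le_mul_left _ (by omega)

/-- the smallest graph at once -/
lemma comp_small (hK : 2 * Fintype.card (Fin (j₀ + 7) → Bool) < Fintype.card K - 1)
    (e₀ : G.Entry k) {emb : (gr j₀).V → V} (hinj : Function.Injective emb)
    (hemb : ∀ w, (¬ ∃ x, (gr j₀).src x = w) → ∀ v ∈ G.pred (emb w),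
      ∃ u ∈ (gr j₀).P w, emb u = v) {ℓ : ℕ}
    (h : Comp K G k (gr j₀).V ℓ (fun x => emb ((gr j₀).src x))) :
    Comp K G k (gr j₀).V (Gf (Fintype.card K) k (Fintype.card (Fin (j₀ + 7) → Bool))
      (Fintype.card (gr j₀).V) ℓ) (fun x => emb ((gr j₀).snk x)) := by
  classical
  obtain ⟨wl, hnd, hmem, hsort⟩ := exists_sorted
    (univ.filter (fun w : (gr j₀).V => ¬ ∃ x, (gr j₀).src x = w)) (gr j₀).lvl
  have hmem' : ∀ w, w ∈ wl ↔ ¬ ∃ x, (gr j₀).src x = w := by
    intro w
    rw [hmem, mem_filter]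
    simp
  have key := comp_block (S := (gr j₀).V) hK e₀ emb wl (gr j₀).snk _ _ h h
    (fun a _ b _ hab => hinj hab)
    (by
      intro l1 w l2 hl v hv
      have hw : w ∈ wl := by
        rw [hl]
        simp
      obtain ⟨u, hu, rfl⟩ := hemb w ((hmem' w).1 hw) v hv
      by_cases hs : ∃ x, (gr j₀).src x = u
      · obtain ⟨x, rfl⟩ := hs
        exact Or.inl ⟨x, rfl⟩
      · right
        right
        refine ⟨u, ?_, rfl⟩
        have hu' : u ∈ wl := (hmem' u).2 hs
        have hlt := (gr j₀).lvl_lt w u hu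
        rw [hl, List.mem_append] at hu'
        rcases hu' with h1 | h1
        · exact h1
        · exfalso
          rw [hl, List.pairwise_append] at hsort
          rcases List.mem_cons.1 h1 with h2 | h2
          · subst h2
            exact lt_irrefl _ hlt
          · have := (List.pairwise_cons.1 hsort.2.1).1 u h2
            omega)
    (by
      intro x
      rw [hmem']
      rintro ⟨x', hx'⟩
      have h1 := (gr j₀).edge x
      rw [← hx', (gr j₀).P_src] at h1
      exact Finset.notMem_empty _ h1)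
  refine key.mono ?_
  unfold Gf
  have h1 : wl.length ≤ Fintype.card (gr j₀).V := by
    rw [← List.toFinset_card_of_nodup hnd]
    exact Finset.card_le_univ _
  refine Nat.mul_le_mul_left _ ?_
  refine Nat.add_le_add_right (Nat.add_le_add_left ?_ _) _
  exact Nat.mul_le_mul_left _ (by omega)

/-- the number of steps -/
def dep (j₀ : ℕ) : ℕ → ℕ
  | 0 => 1
  | d + 1 => 2 * dep j₀ d + 2 * (j₀ + d + 7) + 5

/-- abbreviation -/
noncomputable abbrev GG (K : Type) [Fintype K] (k j₀ : ℕ) : ℕ → ℕ :=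
  Gf (Fintype.card K) k (Fintype.card (Fin (j₀ + 7) → Bool)) (Fintype.card (gr j₀).V)

lemma layer_step (hK : 2 * Fintype.card (Fin (j₀ + 7) → Bool) < Fintype.card K - 1)
    (e₀ : G.Entry k) {m m1 m2 : ℕ} (hm : j₀ + 7 ≤ m) {y : (Fin m → Bool) → V}
    {u1 : (Fin m1 → Bool) → V} {u2 : (Fin m2 → Bool) → V} {ℓ : ℕ}
    (h1 : LC K G k j₀ ℓ u1) (h2 : LC K G k j₀ ℓ u2)
    (hy : Function.Injective y)
    (hp : ∀ r : Fin m → Bool, ∃ (r1 : Fin m1 → Bool) (r2 : Fin m2 → Bool),
      ∀ x : Fin (j₀ + 7) → Bool, ∀ v ∈ G.pred (y (mix r x)),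
        (∃ x' : Fin (j₀ + 7) → Bool, u1 (mix r1 x') = v) ∨
          (∃ x' : Fin (j₀ + 7) → Bool, u2 (mix r2 x') = v)) :
    LC K G k j₀ (GG K k j₀ ℓ) y := by
  intro r
  obtain ⟨r1, r2, h3⟩ := hp r
  exact comp_step hK e₀ (h1 r1) (h2 r2) (fun a b hab => mix_inj hm r (hy hab)) h3

lemma layer_bf (hK : 2 * Fintype.card (Fin (j₀ + 7) → Bool) < Fintype.card K - 1)
    (e₀ : G.Entry k) {m : ℕ} (hm : j₀ + 7 ≤ m) {bf : BV m → V} (hinj : Function.Injective bf)
    (hp : ∀ (l : Fin m) (r : Fin m → Bool), ∀ v ∈ G.pred (bf (l.succ, r)),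
      v = bf (l.castSucc, r) ∨ v = bf (l.castSucc, flp r l)) {ℓ : ℕ}
    (h0 : LC K G k j₀ ℓ (fun r => bf (0, r))) :
    LC K G k j₀ ((GG K k j₀)^[m] ℓ) (fun r => bf (Fin.last m, r)) := by
  have key : ∀ l (hl : l ≤ m), LC K G k j₀ ((GG K k j₀)^[l] ℓ)
      (fun r => bf (⟨l, Nat.lt_succ_of_le hl⟩, r)) := by
    intro l
    induction l with
    | zero => intro _; exact h0
    | succ l ih =>
      intro hl
      have h1 := ih (by omega)
      rw [Function.iterate_succ_apply']
      refine layer_step hK e₀ hm h1 h1 (fun a b hab => ?_) (fun r => ?_)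
      · exact congrArg Prod.snd (hinj hab)
      · obtain ⟨l', hl'⟩ : ∃ l' : Fin m, l'.val = l := ⟨⟨l, by omega⟩, rfl⟩
        have e1 : (⟨l + 1, Nat.lt_succ_of_le hl⟩ : Fin (m + 1)) = l'.succ := by
          apply Fin.ext
          simp [hl']
        have e2 : (⟨l, Nat.lt_succ_of_le (by omega)⟩ : Fin (m + 1)) = l'.castSucc := by
          apply Fin.ext
          simp [hl']
        by_cases hli : l < j₀ + 7
        · refine ⟨r, r, fun x v hv => ?_⟩
          rw [e1] at hv
          rcases hp l' _ v hv with h | h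
          · left
            exact ⟨x, by rw [h, e2]⟩
          · left
            refine ⟨flp x ⟨l'.val, by omega⟩, ?_⟩
            rw [h, e2, mix_flp_lt]
        · refine ⟨r, flp r l', fun x v hv => ?_⟩
          rw [e1] at hv
          rcases hp l' _ v hv with h | h
          · left
            exact ⟨x, by rw [h, e2]⟩
          · right
            refine ⟨x, ?_⟩
            rw [h, e2, mix_flp_ge _ _ _ (by omega)]
  exact key m le_rfl

lemma blk_next (hK : 2 * Fintype.card (Fin (j₀ + 7) → Bool) < Fintype.card K - 1)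
    (e₀ : G.Entry k) {m : ℕ} (hm : j₀ + 7 ≤ m) (H : Gr m) (D : ℕ)
    (ih : ∀ (emb : H.V → V), Function.Injective emb →
      (∀ w, (¬ ∃ x, H.src x = w) → ∀ v ∈ G.pred (emb w), ∃ u ∈ H.P w, emb u = v) → ∀ ℓ,
      LC K G k j₀ ℓ (fun x => emb (H.src x)) →
      LC K G k j₀ ((GG K k j₀)^[D] ℓ) (fun x => emb (H.snk x)))
    (emb : NV H.V m → V) (hinj : Function.Injective emb)
    (hpred : ∀ w, (∀ x, w ≠ NV.s x) → ∀ v ∈ G.pred (emb w),
      ∃ u ∈ NV.P H.P H.src H.snk w, emb u = v) (ℓ : ℕ)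
    (h : LC K G k j₀ ℓ (fun x => emb (NV.s x))) :
    LC K G k j₀ ((GG K k j₀)^[2 * D + 2 * m + 5] ℓ) (fun x => emb (NV.t x)) := by
  classical
  have hq : 2 ≤ Fintype.card K := by omega
  have hle : ∀ ℓ n, ℓ ≤ (GG K k j₀)^[n] ℓ := by
    intro ℓ n
    induction n with
    | zero => exact le_rfl
    | succ n ih =>
      rw [Function.iterate_succ_apply']
      exact ih.trans (le_Gf hq _ _ _ _)
  -- the layers of the first butterfly
  have s1 : LC K G k j₀ (GG K k j₀ ℓ) (fun r => emb (NV.a (0, r))) := by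
    refine layer_step hK e₀ hm h h (fun a b hab => ?_) (fun r => ?_)
    · exact congrArg Prod.snd (NV.a.inj (hinj hab))
    · refine ⟨ext r false, ext r true, fun x v hv => ?_⟩
      obtain ⟨u, hu, rfl⟩ := hpred _ (fun x => by simp) v hv
      rw [NV.P_a_zero, mem_insert, mem_singleton] at hu
      rcases hu with rfl | rfl
      · left
        exact ⟨x, by rw [mix_ext hm]⟩
      · right
        exact ⟨x, by rw [mix_ext hm]⟩
  have s2 := layer_bf hK e₀ hm (bf := fun z => emb (NV.a z))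
    (fun a b hab => NV.a.inj (hinj hab)) (fun l r v hv => by
      obtain ⟨u, hu, rfl⟩ := hpred _ (fun x => by simp) v hv
      rw [NV.P_a_succ, mem_insert, mem_singleton] at hu
      rcases hu with rfl | rfl
      · exact Or.inl rfl
      · exact Or.inr rfl) s1
  rw [← Function.iterate_succ_apply (GG K k j₀)] at s2
  -- the first copy
  have s3 : LC K G k j₀ (GG K k j₀ ((GG K k j₀)^[m.succ] ℓ))
      (fun x => emb (NV.f (H.src x))) := by
    refine layer_step hK e₀ hm s2 s2 (fun a b hab => ?_) (fun r => ?_)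
    · exact H.src_inj (NV.f.inj (hinj hab))
    · refine ⟨r, r, fun x v hv => ?_⟩
      obtain ⟨u, hu, rfl⟩ := hpred _ (fun x => by simp) v hv
      rw [NV.P_f_src H.src_inj, mem_singleton] at hu
      subst hu
      exact Or.inl ⟨x, rfl⟩
  rw [← Function.iterate_succ_apply' (GG K k j₀)] at s3
  have s4 := ih (fun w => emb (NV.f w)) (fun a b hab => NV.f.inj (hinj hab))
    (fun w hw v hv => by
      obtain ⟨u, hu, rfl⟩ := hpred _ (fun x => by simp) v hv
      rw [NV.mem_P_f hw, mem_image] at hu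
      obtain ⟨u', hu', rfl⟩ := hu
      exact ⟨u', hu', rfl⟩) _ s3
  rw [← Function.iterate_add_apply (GG K k j₀)] at s4
  -- the second copy
  have s5 : LC K G k j₀ (GG K k j₀ ((GG K k j₀)^[D + m.succ.succ] ℓ))
      (fun x => emb (NV.g (H.src x))) := by
    refine layer_step hK e₀ hm s4 s4 (fun a b hab => ?_) (fun r => ?_)
    · exact H.src_inj (NV.g.inj (hinj hab))
    · refine ⟨r, r, fun x v hv => ?_⟩
      obtain ⟨u, hu, rfl⟩ := hpred _ (fun x => by simp) v hv
      rw [NV.P_g_src H.src_inj, mem_singleton] at hu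
      subst hu
      exact Or.inl ⟨x, rfl⟩
  rw [← Function.iterate_succ_apply' (GG K k j₀)] at s5
  have s6 := ih (fun w => emb (NV.g w)) (fun a b hab => NV.g.inj (hinj hab))
    (fun w hw v hv => by
      obtain ⟨u, hu, rfl⟩ := hpred _ (fun x => by simp) v hv
      rw [NV.mem_P_g hw, mem_image] at hu
      obtain ⟨u', hu', rfl⟩ := hu
      exact ⟨u', hu', rfl⟩) _ s5
  rw [← Function.iterate_add_apply (GG K k j₀)] at s6
  -- the second butterfly
  have s7 : LC K G k j₀ (GG K k j₀ ((GG K k j₀)^[D + (D + m.succ.succ).succ] ℓ))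
      (fun r => emb (NV.b (0, r))) := by
    refine layer_step hK e₀ hm s6 s6 (fun a b hab => ?_) (fun r => ?_)
    · exact congrArg Prod.snd (NV.b.inj (hinj hab))
    · refine ⟨r, r, fun x v hv => ?_⟩
      obtain ⟨u, hu, rfl⟩ := hpred _ (fun x => by simp) v hv
      rw [NV.P_b_zero, mem_singleton] at hu
      subst hu
      exact Or.inl ⟨x, rfl⟩
  rw [← Function.iterate_succ_apply' (GG K k j₀)] at s7
  have s8 := layer_bf hK e₀ hm (bf := fun z => emb (NV.b z))
    (fun a b hab => NV.b.inj (hinj hab)) (fun l r v hv => by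
      obtain ⟨u, hu, rfl⟩ := hpred _ (fun x => by simp) v hv
      rw [NV.P_b_succ, mem_insert, mem_singleton] at hu
      rcases hu with rfl | rfl
      · exact Or.inl rfl
      · exact Or.inr rfl) s7
  rw [← Function.iterate_add_apply (GG K k j₀)] at s8
  -- the sinks
  have s9 : LC K G k j₀ (GG K k j₀ ((GG K k j₀)^[m + (D + (D + m.succ.succ).succ).succ] ℓ))
      (fun x => emb (NV.t x)) := by
    refine layer_step hK e₀ (by omega) s8 (h.mono (hle ℓ _)) (fun a b hab => ?_) (fun r => ?_)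
    · exact NV.t.inj (hinj hab)
    · refine ⟨ini r, r, fun x v hv => ?_⟩
      obtain ⟨u, hu, rfl⟩ := hpred _ (fun x => by simp) v hv
      rw [NV.P_t, mem_insert, mem_singleton] at hu
      rcases hu with rfl | rfl
      · left
        exact ⟨x, by rw [← mix_ini]⟩
      · right
        exact ⟨x, rfl⟩
  rw [← Function.iterate_succ_apply' (GG K k j₀)] at s9
  have hdep : (m + (D + (D + m.succ.succ).succ).succ).succ = 2 * D + 2 * m + 5 := by omega
  rw [hdep] at s9
  exact s9

/-- **Block evaluation of the graphs.** -/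
theorem blk (hK : 2 * Fintype.card (Fin (j₀ + 7) → Bool) < Fintype.card K - 1)
    (e₀ : G.Entry k) (d : ℕ) : ∀ (emb : (gr (j₀ + d)).V → V), Function.Injective emb →
    (∀ w, (¬ ∃ x, (gr (j₀ + d)).src x = w) → ∀ v ∈ G.pred (emb w),
      ∃ u ∈ (gr (j₀ + d)).P w, emb u = v) → ∀ ℓ,
    LC K G k j₀ ℓ (fun x => emb ((gr (j₀ + d)).src x)) →
    LC K G k j₀ ((GG K k j₀)^[dep j₀ d] ℓ) (fun x => emb ((gr (j₀ + d)).snk x)) := by
  classical
  induction d with
  | zero =>
    intro emb hinj hemb ℓ h r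
    have h1 : (fun x : Fin (j₀ + 7) → Bool => emb ((gr (j₀ + 0)).snk (mix r x))) =
        fun x => emb ((gr j₀).snk x) := by
      funext x
      rw [mix_self]
      rfl
    have h2 : (fun x : Fin (j₀ + 7) → Bool => emb ((gr (j₀ + 0)).src (mix r x))) =
        fun x => emb ((gr j₀).src x) := by
      funext x
      rw [mix_self]
      rfl
    rw [h1]
    have h3 := h r
    rw [h2] at h3
    exact comp_small hK e₀ hinj hemb h3
  | succ d ih =>
    intro emb hinj hemb ℓ h
    exact blk_next hK e₀ (by omega) (gr (j₀ + d)) (dep j₀ d) ih emb hinj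
      (fun w hw v hv => hemb w (by
        rintro ⟨x, hx⟩
        exact hw x hx.symm) v hv) ℓ h

end blk

end Pool.Agent.W988.PF
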