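import Pool.Agent.W988.PF.LP

/-! The catalytic evaluation of a block (Cook and Mertz). -/

set_option autoImplicit false

namespace Pool.Agent.W988.PF

open Finset
open Pool.Agent.W988.SR

section algebra

variable (K : Type) [Field K] {Pos : Type} {k : ℕ}

/-- one-hot encoding -/
def enc (v : Pos → Fin k) : Pos → Fin k → K := fun x a => if v x = a then 1 else 0

variable {K} [Fintype Pos]

/-- the indicator of `Y` as a monomial -/
def mon (Y : Pos → Fin k) (r : Pos → Fin k → K) : K := ∏ x, r x (Y x)

lemma mon_enc [DecidableEq (Pos → Fin k)] (Y v : Pos → Fin k) :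
    mon Y (enc K v) = if v = Y then 1 else 0 := by
  unfold mon enc
  split_ifs with h
  · subst h
    simp
  · obtain ⟨x, hx⟩ := Function.ne_iff.1 h
    exact Finset.prod_eq_zero (mem_univ x) (if_neg hx)

lemma sum_all [Fintype K] (Y1 Y2 : Pos → Fin k) (r1 r2 s1 s2 : Pos → Fin k → K)
    (h : 2 * Fintype.card Pos < Fintype.card K - 1) :
    ∑ t : K, mon Y1 (t • r1 + s1) * mon Y2 (t • r2 + s2) = 0 := by
  classical
  obtain ⟨f, hf⟩ : ∃ f : Polynomial K, f =
    (∏ x, (Polynomial.C (r1 x (Y1 x)) * Polynomial.X + Polynomial.C (s1 x (Y1 x)))) *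
      ∏ x, (Polynomial.C (r2 x (Y2 x)) * Polynomial.X + Polynomial.C (s2 x (Y2 x))) := ⟨_, rfl⟩
  have hev : ∀ t : K, Polynomial.eval t f =
      mon Y1 (t • r1 + s1) * mon Y2 (t • r2 + s2) := by
    intro t
    rw [hf, Polynomial.eval_mul, Polynomial.eval_prod, Polynomial.eval_prod]
    unfold mon
    congr 1
    · refine Finset.prod_congr rfl fun x _ => ?_
      rw [Polynomial.eval_add, Polynomial.eval_mul, Polynomial.eval_C, Polynomial.eval_X,
        Polynomial.eval_C]
      show r1 x (Y1 x) * t + s1 x (Y1 x) = t * r1 x (Y1 x) + s1 x (Y1 x)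
      ring
    · refine Finset.prod_congr rfl fun x _ => ?_
      rw [Polynomial.eval_add, Polynomial.eval_mul, Polynomial.eval_C, Polynomial.eval_X,
        Polynomial.eval_C]
      show r2 x (Y2 x) * t + s2 x (Y2 x) = t * r2 x (Y2 x) + s2 x (Y2 x)
      ring
  have hdeg : f.natDegree < Fintype.card K - 1 := by
    refine lt_of_le_of_lt ?_ h
    rw [hf]
    refine Polynomial.natDegree_mul_le.trans ?_
    have h1 : ∀ (r s : Pos → K), (∏ x, (Polynomial.C (r x) * Polynomial.X +
        Polynomial.C (s x))).natDegree ≤ Fintype.card Pos := by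
      intro r s
      refine (Polynomial.natDegree_prod_le _ _).trans ?_
      refine (Finset.sum_le_card_nsmul _ _ 1
        (fun x _ => Polynomial.natDegree_linear_le)).trans ?_
      rw [Finset.card_univ, smul_eq_mul, mul_one]
    calc _ ≤ Fintype.card Pos + Fintype.card Pos :=
          Nat.add_le_add (h1 (fun x => r1 x (Y1 x)) (fun x => s1 x (Y1 x)))
            (h1 (fun x => r2 x (Y2 x)) (fun x => s2 x (Y2 x)))
      _ = _ := by ring
  calc ∑ t : K, mon Y1 (t • r1 + s1) * mon Y2 (t • r2 + s2)
      = ∑ t : K, Polynomial.eval t f := Finset.sum_congr rfl fun t _ => (hev t).symm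
    _ = ∑ t : K, ∑ i ∈ range (Fintype.card K - 1), f.coeff i * t ^ i :=
        Finset.sum_congr rfl fun t _ => Polynomial.eval_eq_sum_range' hdeg t
    _ = ∑ i ∈ range (Fintype.card K - 1), f.coeff i * ∑ t : K, t ^ i := by
        rw [Finset.sum_comm]
        refine Finset.sum_congr rfl fun i _ => ?_
        rw [Finset.mul_sum]
    _ = 0 := by
        refine Finset.sum_eq_zero fun i hi => ?_
        rw [mem_range] at hi
        rw [FiniteField.sum_pow_lt_card_sub_one K i hi, mul_zero]

lemma sum_units [Fintype K] [DecidableEq K] (Y1 Y2 : Pos → Fin k)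
    (r1 r2 s1 s2 : Pos → Fin k → K) (h : 2 * Fintype.card Pos < Fintype.card K - 1) :
    ∑ t ∈ univ.erase (0 : K), mon Y1 (t • r1 + s1) * mon Y2 (t • r2 + s2) =
      -(mon Y1 s1 * mon Y2 s2) := by
  have h1 := sum_all Y1 Y2 r1 r2 s1 s2 h
  rw [← Finset.add_sum_erase univ _ (mem_univ (0 : K))] at h1
  simp only [zero_smul, zero_add] at h1
  exact eq_neg_of_add_eq_zero_right h1

end algebra

section block

variable {K : Type} [Field K] {Pos : Type} {k : ℕ} [NeZero k] {V : Type} {G : Dag V} {S : Type}

open Classical in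
/-- the value of a predecessor -/
noncomputable def look (g : S → V) (wl : List S) (u1 u2 : Pos → V) (Y : (Pos → Fin k) × (Pos → Fin k))
    (z : S → Fin k) (v : V) : Fin k :=
  if h : ∃ x, u1 x = v then Y.1 h.choose
  else if h : ∃ x, u2 x = v then Y.2 h.choose
  else if h : ∃ w, w ∈ wl ∧ g w = v then z h.choose
  else 0

open Classical in
/-- the local evaluation -/
noncomputable def locz (g : S → V) (wl : List S) (u1 u2 : Pos → V)
    (Y : (Pos → Fin k) × (Pos → Fin k)) (I : G.Tables k) (l : List S) (z : S → Fin k) :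
    S → Fin k :=
  l.foldl (fun z w => Function.update z w (I ⟨g w, fun p => look g wl u1 u2 Y z p.1⟩)) z

/-- the memory: three registers and a scratch -/
abbrev Mem (K Pos : Type) (k : ℕ) (S : Type) : Type := (Fin 3 → Pos → Fin k → K) × (S → Fin k)

open Classical in
/-- the instruction for one node -/
noncomputable def locI (K : Type) (G : Dag V) (g : S → V) (wl : List S) (u1 u2 : Pos → V)
    (Y : (Pos → Fin k) × (Pos → Fin k)) (w : S) : Ins (G.Entry k) (Mem K Pos k S) k where
  addr m := ⟨g w, fun p => look g wl u1 u2 Y m.2 p.1⟩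
  upd m c := (m.1, Function.update m.2 w c)

omit [Field K] in
open Classical in
lemma run_loc (g : S → V) (wl : List S) (u1 u2 : Pos → V)
    (Y : (Pos → Fin k) × (Pos → Fin k)) (I : G.Tables k) (l : List S)
    (R : Fin 3 → Pos → Fin k → K) (z : S → Fin k) :
    runL I (l.map (locI K G g wl u1 u2 Y)) (R, z) = (R, locz g wl u1 u2 Y I l z) := by
  induction l generalizing z with
  | nil => rfl
  | cons w l ih =>
    rw [List.map_cons, runL_cons]
    have h1 : (locI K G g wl u1 u2 Y w).upd (R, z) (I ((locI K G g wl u1 u2 Y w).addr (R, z))) =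
        (R, Function.update z w (I ⟨g w, fun p => look g wl u1 u2 Y z p.1⟩)) := rfl
    rw [h1, ih]
    rfl

/-- the order of the nodes of a block is right -/
def Ord (G : Dag V) (g : S → V) (wl : List S) (u1 u2 : Pos → V) : Prop :=
  ∀ l1 w l2, wl = l1 ++ w :: l2 → ∀ v ∈ G.pred (g w),
    (∃ x, u1 x = v) ∨ (∃ x, u2 x = v) ∨ ∃ w' ∈ l1, g w' = v

lemma locz_spec {g : S → V} {wl : List S} {u1 u2 : Pos → V}
    (hinj : ∀ a ∈ wl, ∀ b ∈ wl, g a = g b → a = b) (hord : Ord G g wl u1 u2)
    {Y : (Pos → Fin k) × (Pos → Fin k)} {I : G.Tables k}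
    (h1 : Y.1 = fun x => G.val I (u1 x)) (h2 : Y.2 = fun x => G.val I (u2 x)) :
    ∀ (l2 l1 : List S) (z : S → Fin k), wl = l1 ++ l2 → (∀ w ∈ l1, z w = G.val I (g w)) →
      ∀ w ∈ wl, locz g wl u1 u2 Y I l2 z w = G.val I (g w) := by
  classical
  intro l2
  induction l2 with
  | nil =>
    intro l1 z hl hz w hw
    rw [hl, List.append_nil] at hw
    exact hz w hw
  | cons w l2 ih =>
    intro l1 z hl hz
    have hlook : ∀ p : {p // p ∈ G.pred (g w)}, look g wl u1 u2 Y z p.1 = G.val I p.1 := by
      rintro ⟨v, hv⟩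
      simp only
      unfold look
      split_ifs with c1 c2 c3
      · rw [h1]
        simp only
        rw [c1.choose_spec]
      · rw [h2]
        simp only
        rw [c2.choose_spec]
      · rcases hord l1 w l2 hl v hv with h | h | ⟨w', hw', hgw'⟩
        · exact absurd h c1
        · exact absurd h c2
        · have h3 := c3.choose_spec
          have h4 : w' ∈ wl := by
            rw [hl]
            exact List.mem_append_left _ hw'
          have h5 : c3.choose = w' := hinj _ h3.1 _ h4 (h3.2.trans hgw'.symm)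
          rw [h5, hz w' hw', hgw']
      · exfalso
        rcases hord l1 w l2 hl v hv with h | h | ⟨w', hw', hgw'⟩
        · exact c1 h
        · exact c2 h
        · exact c3 ⟨w', by rw [hl]; exact List.mem_append_left _ hw', hgw'⟩
    have hval : I ⟨g w, fun p => look g wl u1 u2 Y z p.1⟩ = G.val I (g w) := by
      rw [Dag.val_eq]
      congr 2
      funext p
      exact hlook p
    refine ih (l1 ++ [w]) _ (by rw [hl]; simp) ?_
    intro w' hw'
    rw [List.mem_append, List.mem_singleton] at hw'
    beta_reduce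
    by_cases h : w' = w
    · subst h
      rw [Function.update_self, hval]
    · rw [Function.update_of_ne h]
      exact hz w' (hw'.resolve_right h)

/-- all scratch cells are empty -/
def z₀ (S : Type) (k : ℕ) [NeZero k] : S → Fin k := fun _ => 0

/-- the effect of a program on the registers -/
def Eff (l : List (Ins (G.Entry k) (Mem K Pos k S) k))
    (φ : G.Tables k → (Fin 3 → Pos → Fin k → K) → (Fin 3 → Pos → Fin k → K)) : Prop :=
  ∀ I R, runL I l (R, z₀ S k) = (φ I R, z₀ S k)

omit [Field K] in
lemma Eff.append {l l' : List (Ins (G.Entry k) (Mem K Pos k S) k)}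
    {φ φ' : G.Tables k → (Fin 3 → Pos → Fin k → K) → (Fin 3 → Pos → Fin k → K)}
    (h : Eff l φ) (h' : Eff l' φ') : Eff (l ++ l') (fun I R => φ' I (φ I R)) := by
  intro I R
  rw [runL_append, h, h']

/-- the block `y` can be added to any register -/
def Comp (K : Type) [Field K] (G : Dag V) (k : ℕ) [NeZero k] (S : Type) (ℓ : ℕ) (y : Pos → V) :
    Prop :=
  ∀ (i : Fin 3) (c : K), ∃ l : List (Ins (G.Entry k) (Mem K Pos k S) k), l.length ≤ ℓ ∧
    Eff l (fun I R => Function.update R i (R i + c • enc K (fun x => G.val I (y x))))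

lemma Comp.mono {ℓ ℓ' : ℕ} {y : Pos → V} (h : Comp K G k S ℓ y) (hl : ℓ ≤ ℓ') :
    Comp K G k S ℓ' y := by
  intro i c
  obtain ⟨l, h1, h2⟩ := h i c
  exact ⟨l, h1.trans hl, h2⟩

variable [Fintype Pos]

open Classical in
/-- the value of the block for the guess `Y` -/
noncomputable def FY (g : S → V) (wl : List S) (out : Pos → S) (u1 u2 : Pos → V)
    (I : G.Tables k) (Y : (Pos → Fin k) × (Pos → Fin k)) : Pos → Fin k :=
  fun x => locz g wl u1 u2 Y I wl (z₀ S k) (out x)

open Classical in
/-- the instruction that adds the contribution of the guess `Y` -/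
noncomputable def updI (G : Dag V) (e₀ : G.Entry k) (out : Pos → S) (i : Fin 3) (c : K)
    (Y : (Pos → Fin k) × (Pos → Fin k)) : Ins (G.Entry k) (Mem K Pos k S) k where
  addr _ := e₀
  upd m _ := (Function.update m.1 i (m.1 i + (c * (mon Y.1 (m.1 (i + 1)) * mon Y.2 (m.1 (i + 2)))) •
    enc K (fun x => m.2 (out x))), z₀ S k)

lemma i1 (i : Fin 3) : i + 1 ≠ i := by
  fin_cases i <;> decide

lemma i2 (i : Fin 3) : i + 2 ≠ i := by
  fin_cases i <;> decide

lemma i12 (i : Fin 3) : i + 2 ≠ i + 1 := by
  fin_cases i <;> decide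

/-- the program for one guess -/
noncomputable def segY (G : Dag V) (e₀ : G.Entry k) (g : S → V) (wl : List S) (out : Pos → S)
    (u1 u2 : Pos → V) (i : Fin 3) (c : K) (Y : (Pos → Fin k) × (Pos → Fin k)) :
    List (Ins (G.Entry k) (Mem K Pos k S) k) :=
  wl.map (locI K G g wl u1 u2 Y) ++ [updI G e₀ out i c Y]

lemma eff_segY (e₀ : G.Entry k) (g : S → V) (wl : List S) (out : Pos → S)
    (u1 u2 : Pos → V) (i : Fin 3) (c : K) (Y : (Pos → Fin k) × (Pos → Fin k)) :
    Eff (segY G e₀ g wl out u1 u2 i c Y) (fun I R => Function.update R i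
      (R i + (c * (mon Y.1 (R (i + 1)) * mon Y.2 (R (i + 2)))) •
        enc K (FY g wl out u1 u2 I Y))) := by
  intro I R
  unfold segY
  rw [runL_append, run_loc, runL_cons, runL_nil]
  rfl

lemma eff_guesses (e₀ : G.Entry k) (g : S → V) (wl : List S) (out : Pos → S)
    (u1 u2 : Pos → V) (i : Fin 3) (c : K) (ys : List ((Pos → Fin k) × (Pos → Fin k))) :
    Eff ((ys.map (segY G e₀ g wl out u1 u2 i c)).flatten) (fun I R => Function.update R i
      (R i + c • (ys.map (fun Y => (mon Y.1 (R (i + 1)) * mon Y.2 (R (i + 2))) •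
        enc K (FY g wl out u1 u2 I Y))).sum)) := by
  induction ys with
  | nil =>
    intro I R
    simp
  | cons Y ys ih =>
    intro I R
    rw [List.map_cons, List.flatten_cons, runL_append, eff_segY, ih]
    simp only [Function.update_self, Function.update_of_ne (i1 i), Function.update_of_ne (i2 i),
      Function.update_idem, List.map_cons, List.sum_cons]
    congr 2
    rw [smul_add, ← add_assoc, mul_smul]

open Classical in
/-- the sum over all guesses -/
noncomputable def QQ (K : Type) [Field K] (g : S → V) (wl : List S) (out : Pos → S)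
    (u1 u2 : Pos → V) (I : G.Tables k) (a b : Pos → Fin k → K) : Pos → Fin k → K :=
  ∑ Y : (Pos → Fin k) × (Pos → Fin k), (mon Y.1 a * mon Y.2 b) •
    enc K (FY g wl out u1 u2 I Y)

open Classical in
/-- the program for all guesses -/
noncomputable def evalL (G : Dag V) (e₀ : G.Entry k) (g : S → V) (wl : List S) (out : Pos → S)
    (u1 u2 : Pos → V) (i : Fin 3) (c : K) : List (Ins (G.Entry k) (Mem K Pos k S) k) :=
  ((univ : Finset ((Pos → Fin k) × (Pos → Fin k))).toList.map
    (segY G e₀ g wl out u1 u2 i c)).flatten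

lemma eff_evalL (e₀ : G.Entry k) (g : S → V) (wl : List S) (out : Pos → S)
    (u1 u2 : Pos → V) (i : Fin 3) (c : K) :
    Eff (evalL G e₀ g wl out u1 u2 i c) (fun I R => Function.update R i
      (R i + c • QQ K g wl out u1 u2 I (R (i + 1)) (R (i + 2)))) := by
  classical
  intro I R
  unfold evalL
  rw [eff_guesses]
  beta_reduce
  rw [Finset.sum_map_toList]
  unfold QQ
  congr!

lemma length_evalL (e₀ : G.Entry k) (g : S → V) (wl : List S) (out : Pos → S)
    (u1 u2 : Pos → V) (i : Fin 3) (c : K) :
    (evalL G e₀ g wl out u1 u2 i c).length =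
      k ^ (2 * Fintype.card Pos) * (wl.length + 1) := by
  classical
  unfold evalL
  rw [List.length_flatten, List.map_map]
  have h : (List.length ∘ (segY G e₀ g wl out u1 u2 i c)) = fun _ => wl.length + 1 := by
    funext Y
    simp [segY]
  rw [h, List.map_const', List.sum_replicate, Finset.length_toList, Finset.card_univ,
    Fintype.card_prod, Fintype.card_fun, Fintype.card_fin, smul_eq_mul]
  congr 1
  ring

/-- scale two registers -/
def scal (G : Dag V) (e₀ : G.Entry k) (i : Fin 3) (t : K) :
    Ins (G.Entry k) (Mem K Pos k S) k where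
  addr _ := e₀
  upd m _ := (Function.update (Function.update m.1 (i + 1) (t • m.1 (i + 1))) (i + 2)
    (t • m.1 (i + 2)), m.2)

omit [Fintype Pos] in
lemma eff_scal (e₀ : G.Entry k) (i : Fin 3) (t : K) :
    Eff (S := S) [scal (Pos := Pos) G e₀ i t] (fun _ R => Function.update
      (Function.update R (i + 1) (t • R (i + 1))) (i + 2) (t • R (i + 2))) := by
  intro I R
  rfl

/-- One round. -/
lemma eff_round {e₀ : G.Entry k} {g : S → V} {wl : List S} {out : Pos → S} {u1 u2 : Pos → V}
    {ℓ : ℕ} (h1 : Comp K G k S ℓ u1) (h2 : Comp K G k S ℓ u2) (i : Fin 3) (c t : K)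
    (ht : t ≠ 0) :
    ∃ l : List (Ins (G.Entry k) (Mem K Pos k S) k),
      l.length ≤ 4 * ℓ + k ^ (2 * Fintype.card Pos) * (wl.length + 1) + 2 ∧
      Eff l (fun I R => Function.update R i (R i + c • QQ K g wl out u1 u2 I
        (t • R (i + 1) + enc K (fun x => G.val I (u1 x)))
        (t • R (i + 2) + enc K (fun x => G.val I (u2 x))))) := by
  obtain ⟨A1, hA1, eA1⟩ := h1 (i + 1) 1
  obtain ⟨A2, hA2, eA2⟩ := h2 (i + 2) 1
  obtain ⟨B1, hB1, eB1⟩ := h1 (i + 1) (-1)
  obtain ⟨B2, hB2, eB2⟩ := h2 (i + 2) (-1)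
  refine ⟨[scal G e₀ i t] ++ (A1 ++ (A2 ++ (evalL G e₀ g wl out u1 u2 i c ++
    (B1 ++ (B2 ++ [scal G e₀ i t⁻¹]))))), ?_, ?_⟩
  · simp only [List.length_append, List.length_cons, List.length_nil, length_evalL]
    omega
  · intro I R
    rw [((eff_scal e₀ i t).append (eA1.append (eA2.append ((eff_evalL e₀ g wl out u1 u2 i
      c).append (eB1.append (eB2.append (eff_scal e₀ i t⁻¹))))))) I R]
    congr 1
    funext a
    have c1 := i1 i
    have c2 := i2 i
    have c12 := i12 i
    have hcases : a = i ∨ a = i + 1 ∨ a = i + 2 := by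
      revert a
      fin_cases i <;> decide
    rcases hcases with rfl | rfl | rfl
    · simp [c1, c2, c12, c1.symm, c2.symm, c12.symm, Function.update_of_ne]
    · simp [c1, c2, c12, c1.symm, c2.symm, c12.symm, Function.update_of_ne, smul_smul, ht]
    · simp [c1, c2, c12, c1.symm, c2.symm, c12.symm, Function.update_of_ne, smul_smul, ht]

/-- All rounds. -/
lemma eff_rounds {e₀ : G.Entry k} {g : S → V} {wl : List S} {out : Pos → S} {u1 u2 : Pos → V}
    {ℓ : ℕ} (h1 : Comp K G k S ℓ u1) (h2 : Comp K G k S ℓ u2) (i : Fin 3) (c : K)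
    (ts : List K) (hts : ∀ t ∈ ts, t ≠ 0) :
    ∃ l : List (Ins (G.Entry k) (Mem K Pos k S) k),
      l.length ≤ ts.length * (4 * ℓ + k ^ (2 * Fintype.card Pos) * (wl.length + 1) + 2) ∧
      Eff l (fun I R => Function.update R i (R i + c • (ts.map (fun t =>
        QQ K g wl out u1 u2 I
          (t • R (i + 1) + enc K (fun x => G.val I (u1 x)))
          (t • R (i + 2) + enc K (fun x => G.val I (u2 x))))).sum)) := by
  induction ts with
  | nil =>
    refine ⟨[], Nat.zero_le _, ?_⟩
    intro I R
    simp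
  | cons t ts ih =>
    obtain ⟨l, hl, el⟩ := ih (fun t' h => hts t' (List.mem_cons_of_mem _ h))
    obtain ⟨l', hl', el'⟩ := eff_round (e₀ := e₀) (g := g) (wl := wl) (out := out) h1 h2 i c t
      (hts t (List.mem_cons_self ..))
    refine ⟨l' ++ l, ?_, ?_⟩
    · rw [List.length_append, List.length_cons, Nat.succ_mul]
      omega
    · intro I R
      rw [(el'.append el) I R]
      simp only [Function.update_self, Function.update_of_ne (i1 i), Function.update_of_ne (i2 i),
        Function.update_idem, List.map_cons, List.sum_cons]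
      congr 2
      rw [smul_add, ← add_assoc]

lemma QQ_smul_sum [Fintype K] [DecidableEq K] (hK : 2 * Fintype.card Pos < Fintype.card K - 1)
    (g : S → V) (wl : List S) (out : Pos → S) (u1 u2 : Pos → V) (I : G.Tables k)
    (a b : Pos → Fin k → K) (v1 v2 : Pos → Fin k) :
    ∑ t ∈ univ.erase (0 : K), QQ K g wl out u1 u2 I (t • a + enc K v1) (t • b + enc K v2) =
      - enc K (FY g wl out u1 u2 I (v1, v2)) := by
  classical
  unfold QQ
  rw [Finset.sum_comm]
  have h : ∀ Y : (Pos → Fin k) × (Pos → Fin k), ∑ t ∈ univ.erase (0 : K),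
      (mon Y.1 (t • a + enc K v1) * mon Y.2 (t • b + enc K v2)) • enc K (FY g wl out u1 u2 I Y) =
      if Y = (v1, v2) then - enc K (FY g wl out u1 u2 I (v1, v2)) else 0 := by
    intro Y
    rw [← Finset.sum_smul, sum_units Y.1 Y.2 a b _ _ hK, mon_enc, mon_enc]
    by_cases h1 : v1 = Y.1
    · by_cases h2 : v2 = Y.2
      · have h3 : Y = (v1, v2) := by rw [h1, h2]
        rw [if_pos h1, if_pos h2, if_pos h3, h3]
        simp
      · have h3 : Y ≠ (v1, v2) := fun h => h2 (by rw [h])
        rw [if_neg h2, if_neg h3]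
        simp
    · have h3 : Y ≠ (v1, v2) := fun h => h1 (by rw [h])
      rw [if_neg h1, if_neg h3]
      simp
  rw [Finset.sum_congr rfl (fun Y _ => h Y)]
  simp

/-- **The block lemma.** -/
theorem comp_block [Fintype K] [DecidableEq K] (hK : 2 * Fintype.card Pos < Fintype.card K - 1)
    (e₀ : G.Entry k) (g : S → V) (wl : List S) (out : Pos → S) (u1 u2 : Pos → V) {ℓ : ℕ}
    (h1 : Comp K G k S ℓ u1) (h2 : Comp K G k S ℓ u2)
    (hinj : ∀ a ∈ wl, ∀ b ∈ wl, g a = g b → a = b) (hord : Ord G g wl u1 u2)
    (hout : ∀ x, out x ∈ wl) :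
    Comp K G k S ((Fintype.card K - 1) *
      (4 * ℓ + k ^ (2 * Fintype.card Pos) * (wl.length + 1) + 2)) (fun x => g (out x)) := by
  intro i c
  obtain ⟨l, hl, el⟩ := eff_rounds (e₀ := e₀) (g := g) (wl := wl) (out := out) h1 h2 i (-c)
    (univ.erase (0 : K)).toList (by
      intro t ht
      rw [Finset.mem_toList, Finset.mem_erase] at ht
      exact ht.1)
  refine ⟨l, ?_, ?_⟩
  · rw [Finset.length_toList, Finset.card_erase_of_mem (mem_univ _), Finset.card_univ] at hl
    exact hl
  · intro I R
    rw [el I R]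
    beta_reduce
    rw [Finset.sum_map_toList, QQ_smul_sum hK]
    congr 2
    rw [smul_neg, neg_smul, neg_neg]
    congr 3
    funext x
    unfold FY
    exact locz_spec hinj hord rfl rfl wl [] _ rfl (by simp) _ (hout x)

omit [Fintype Pos] in
/-- The blocks of nodes without predecessors. -/
theorem comp_base (e₀ : G.Entry k) (g : S → V) (wl : List S) (out : Pos → S)
    (hpred : ∀ w ∈ wl, G.pred (g w) = ∅)
    (hout : ∀ x, out x ∈ wl) (u : Pos → V) :
    Comp K G k S (wl.length + 1) (fun x => g (out x)) := by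
  classical
  intro i c
  refine ⟨wl.map (locI K G g wl u u (fun _ => 0, fun _ => 0)) ++ [⟨fun _ => e₀, fun m _ =>
    (Function.update m.1 i (m.1 i + c • enc K (fun x => m.2 (out x))), z₀ S k)⟩], by simp, ?_⟩
  intro I R
  rw [runL_append, run_loc, runL_cons, runL_nil]
  simp only
  congr 5
  funext x
  -- the local evaluation does not depend on the guess
  have key : ∀ (l2 l1 : List S) (z : S → Fin k), wl = l1 ++ l2 →
      (∀ w ∈ l1, z w = G.val I (g w)) → ∀ w ∈ wl,
      locz g wl u u (fun _ => 0, fun _ => 0) I l2 z w = G.val I (g w) := by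
    intro l2
    induction l2 with
    | nil =>
      intro l1 z hl hz w hw
      rw [hl, List.append_nil] at hw
      exact hz w hw
    | cons w l2 ih =>
      intro l1 z hl hz
      have hval : I ⟨g w, fun p => look g wl u u (fun _ => 0, fun _ => 0) z p.1⟩ =
          G.val I (g w) := by
        rw [Dag.val_eq]
        congr 2
        funext p
        have h1 : w ∈ wl := by rw [hl]; simp
        obtain ⟨q, hq⟩ := p
        exfalso
        rw [hpred w h1] at hq
        exact Finset.notMem_empty _ hq
      refine ih (l1 ++ [w]) _ (by rw [hl]; simp) ?_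
      intro w' hw'
      rw [List.mem_append, List.mem_singleton] at hw'
      beta_reduce
      by_cases h : w' = w
      · subst h
        rw [Function.update_self, hval]
      · rw [Function.update_of_ne h]
        exact hz w' (hw'.resolve_right h)
  exact key wl [] _ rfl (by simp) _ (hout x)

end block

end Pool.Agent.W988.PF
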