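import Pool.Agent.W988.PF.Live

/-! Dense nodes, unread sinks. -/

set_option autoImplicit false

namespace Pool.Agent.W988.PF

open Finset
open Pool.Agent.W988.SR

section luck

variable {V Q O : Type} {G : Dag V} {k : ℕ} (P : Program (G.Entry k) k Q O)

/-- the number of entries of the table of `v` that are read -/
noncomputable def cnt (I : G.Tables k) (v : V) : ℕ :=
  Nat.card {α : G.Args k v // P.Reads I ⟨v, α⟩}

open Classical in
/-- the nodes of whose table more than `s` entries are read -/
noncomputable def dn [Fintype V] (s : ℕ) (I : G.Tables k) : Finset V :=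
  univ.filter (fun v => s < cnt P I v)

open Classical in
/-- all edges -/
noncomputable def EF [Fintype V] (G : Dag V) : Finset (V × V) :=
  univ.filter (fun z => z.1 ∈ G.pred z.2)

variable {P}

lemma mem_EF [Fintype V] {z : V × V} : z ∈ EF G ↔ z.1 ∈ G.pred z.2 := by
  classical
  unfold EF
  simp

lemma mem_dn [Fintype V] {s : ℕ} {I : G.Tables k} {v : V} : v ∈ dn P s I ↔ s < cnt P I v := by
  classical
  unfold dn
  simp

lemma reads_eq [Fintype V] (I : G.Tables k) :
    Nat.card {e : G.Entry k // P.Reads I e} = ∑ v, cnt P I v := by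
  have e : {e : G.Entry k // P.Reads I e} ≃ Σ v : V, {α : G.Args k v // P.Reads I ⟨v, α⟩} :=
    { toFun := fun z => ⟨z.1.1, ⟨z.1.2, z.2⟩⟩
      invFun := fun z => ⟨⟨z.1, z.2.1⟩, z.2.2⟩
      left_inv := fun z => rfl
      right_inv := fun z => rfl }
  rw [Nat.card_congr e, Nat.card_sigma]
  rfl

lemma dn_card [Fintype V] (s : ℕ) (I : G.Tables k) :
    (dn P s I).card * (s + 1) ≤ Nat.card {e : G.Entry k // P.Reads I e} := by
  rw [reads_eq]
  calc (dn P s I).card * (s + 1) = ∑ _v ∈ dn P s I, (s + 1) := by
        rw [Finset.sum_const, smul_eq_mul]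
    _ ≤ ∑ v ∈ dn P s I, cnt P I v := Finset.sum_le_sum fun v hv => mem_dn.1 hv
    _ ≤ _ := Finset.sum_le_sum_of_subset (Finset.subset_univ _)

end luck

/-! ### unread sinks -/

/-- change the parity -/
def flip {k : ℕ} (hk : Even k) (c : Fin k) : Fin k :=
  if h : c.val % 2 = 0 then ⟨c.val + 1, by
    obtain ⟨r, hr⟩ := hk
    have := c.2
    omega⟩
  else ⟨c.val - 1, by
    have := c.2
    omega⟩

lemma flip_val {k : ℕ} (hk : Even k) (c : Fin k) :
    (flip hk c).val = if c.val % 2 = 0 then c.val + 1 else c.val - 1 := by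
  unfold flip
  split_ifs <;> rfl

lemma flip_flip {k : ℕ} (hk : Even k) (c : Fin k) : flip hk (flip hk c) = c := by
  apply Fin.ext
  rw [flip_val, flip_val]
  split_ifs <;> omega

lemma flip_mod {k : ℕ} (hk : Even k) (c : Fin k) : (flip hk c).val % 2 ≠ c.val % 2 := by
  rw [flip_val]
  split_ifs <;> omega

section sink

variable {V Q : Type} {G : Dag V} {k : ℕ} {X : Type}

/-- the parity of the sum of the values of the sinks -/
def par [Fintype X] (G : Dag V) (snk : X → V) (I : G.Tables k) : Bool :=
  decide ((∑ x, (G.val I (snk x)).val) % 2 = 1)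

/-- the sinks whose right entries are not read -/
def unr (P : Program (G.Entry k) k Q Bool) (snk : X → V) (I : G.Tables k) : Set X :=
  {x | ∀ j, ¬ At P I j (snk x)}

variable {P : Program (G.Entry k) k Q Bool} {snk : X → V}

lemma not_trans {v w : V} (hlast : ∀ b, v ∉ G.pred b) :
    ¬ Relation.TransGen (fun a b => a ∈ G.pred b) v w := by
  intro h
  induction h with
  | single h => exact hlast _ h
  | tail _ _ ih => exact ih

lemma val_upd_last {v : V} (hlast : ∀ b, v ∉ G.pred b) (I : G.Tables k) (c : Fin k) {w : V}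
    (hw : w ≠ v) : G.val (G.upd I v c) w = G.val I w :=
  Dag.val_upd I v c w hw (not_trans hlast)

lemma args_upd_last {v : V} (hlast : ∀ b, v ∉ G.pred b) (I : G.Tables k) (c : Fin k) (w : V) :
    G.args (G.upd I v c) w = G.args I w := by
  funext x
  exact val_upd_last hlast I c (fun h => hlast w (h ▸ x.2))

lemma state_upd_last {v : V} (I : G.Tables k) (c : Fin k) (hun : ∀ j, ¬ At P I j v) (j : ℕ) :
    P.state (G.upd I v c) j = P.state I j := by
  apply Program.state_congr
  intro i _ e he
  symm
  apply Dag.upd_ne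
  intro hE
  apply hun i
  unfold At
  rw [he, hE]

lemma at_upd_last {v : V} (hlast : ∀ b, v ∉ G.pred b) (I : G.Tables k) (c : Fin k)
    (hun : ∀ j, ¬ At P I j v) (j : ℕ) (w : V) : At P (G.upd I v c) j w ↔ At P I j w := by
  unfold At
  rw [state_upd_last I c hun, args_upd_last hlast]

lemma par_upd [Fintype X] (hsnk : Function.Injective snk) (hk : Even k) {x₀ : X}
    (hlast : ∀ b, snk x₀ ∉ G.pred b) (I : G.Tables k) :
    par G snk (G.upd I (snk x₀) (flip hk (G.val I (snk x₀)))) ≠ par G snk I := by
  classical
  have h1 : ∑ x, (G.val (G.upd I (snk x₀) (flip hk (G.val I (snk x₀)))) (snk x)).val =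
      (flip hk (G.val I (snk x₀))).val + ∑ x ∈ univ.erase x₀, (G.val I (snk x)).val := by
    rw [← Finset.add_sum_erase univ _ (mem_univ x₀), Dag.val_upd_self]
    congr 1
    refine Finset.sum_congr rfl fun x hx => ?_
    rw [val_upd_last hlast]
    intro h
    exact (Finset.mem_erase.1 hx).1 (hsnk h)
  have h2 : ∑ x, (G.val I (snk x)).val =
      (G.val I (snk x₀)).val + ∑ x ∈ univ.erase x₀, (G.val I (snk x)).val := by
    rw [← Finset.add_sum_erase univ _ (mem_univ x₀)]
  have h3 := flip_mod hk (G.val I (snk x₀))
  unfold par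
  rw [h1, h2]
  intro h
  rw [decide_eq_decide] at h
  omega

/-- Half of the inputs on which some sink is not read get the wrong output. -/
lemma noSink [Fintype V] [Fintype X] (hsnk : Function.Injective snk) (hk : Even k)
    (hlast : ∀ x b, snk x ∉ G.pred b) :
    2 * Nat.card {I : G.Tables k // P.Outputs I (par G snk I) ∧ (unr P snk I).Nonempty} ≤
      Nat.card (G.Tables k) := by
  classical
  rcases isEmpty_or_nonempty X with hX | hX
  · have : IsEmpty {I : G.Tables k // P.Outputs I (par G snk I) ∧ (unr P snk I).Nonempty} := by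
      constructor
      rintro ⟨I, _, x, _⟩
      exact hX.elim x
    rw [Nat.card_of_isEmpty]
    exact Nat.zero_le _
  · let x₀ : G.Tables k → X := fun I => Classical.epsilon (fun x => x ∈ unr P snk I)
    have hx₀ : ∀ I, (unr P snk I).Nonempty → x₀ I ∈ unr P snk I := fun I h =>
      Classical.epsilon_spec h
    let τ : G.Tables k → G.Tables k := fun I =>
      G.upd I (snk (x₀ I)) (flip hk (G.val I (snk (x₀ I))))
    have hun : ∀ I, (unr P snk I).Nonempty → unr P snk (τ I) = unr P snk I := by
      intro I hI
      ext x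
      unfold unr
      simp only [Set.mem_setOf_eq]
      refine forall_congr' fun j => not_congr ?_
      exact at_upd_last (hlast _) I _ (hx₀ I hI) j _
    have hxx : ∀ I, (unr P snk I).Nonempty → x₀ (τ I) = x₀ I := by
      intro I hI
      show Classical.epsilon (fun x => x ∈ unr P snk (τ I)) = _
      rw [hun I hI]
    have hττ : ∀ I, (unr P snk I).Nonempty → τ (τ I) = I := by
      intro I hI
      show G.upd (τ I) (snk (x₀ (τ I))) (flip hk (G.val (τ I) (snk (x₀ (τ I))))) = I
      rw [hxx I hI]
      have h1 : G.val (τ I) (snk (x₀ I)) = flip hk (G.val I (snk (x₀ I))) :=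
        Dag.val_upd_self _ _ _
      rw [h1, flip_flip]
      show G.upd (G.upd I (snk (x₀ I)) _) (snk (x₀ I)) _ = I
      rw [Dag.upd_upd, Dag.upd_val]
    set S := univ.filter (fun I : G.Tables k => P.Outputs I (par G snk I) ∧
      (unr P snk I).Nonempty) with hS
    set N := univ.filter (fun I : G.Tables k => ¬ P.Outputs I (par G snk I)) with hN
    have h1 : S.card ≤ N.card := by
      refine Finset.card_le_card_of_injOn τ ?_ ?_
      · intro I hI
        rw [hS, mem_coe, mem_filter] at hI
        rw [hN, mem_coe, mem_filter]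
        refine ⟨mem_univ _, fun hout => ?_⟩
        have h2 : P.Outputs (τ I) (par G snk I) := by
          obtain ⟨j, hj⟩ := hI.2.1
          exact ⟨j, by rw [state_upd_last I _ (hx₀ I hI.2.2)]; exact hj⟩
        have h3 := Program.outputs_unique hout h2
        exact par_upd hsnk hk (hlast _) I h3
      · intro I hI I' hI' heq
        rw [hS, mem_coe, mem_filter] at hI hI'
        rw [← hττ I hI.2.2, ← hττ I' hI'.2.2, heq]
    have h2 : S.card + N.card ≤ Nat.card (G.Tables k) := by
      rw [← Finset.card_union_of_disjoint, Nat.card_eq_fintype_card]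
      · exact Finset.card_le_univ _
      · rw [Finset.disjoint_left]
        intro I h3 h4
        exact (mem_filter.1 h4).2 (mem_filter.1 h3).2.1
    have h3 : Nat.card {I : G.Tables k // P.Outputs I (par G snk I) ∧
        (unr P snk I).Nonempty} = S.card := by
      rw [Nat.card_eq_fintype_card, Fintype.card_subtype]
    rw [h3]
    omega

end sink

end Pool.Agent.W988.PF
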