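import Pool.Agent.W988.PF.Blk
import Pool.Agent.W988.PF.Luck

/-! The programs that read everything. -/

set_option autoImplicit false

namespace Pool.Agent.W988.PF

open Finset
open Pool.Agent.W988.SR

/-- the graph as a directed acyclic graph -/
noncomputable def dg (j : ℕ) : Dag (gr j).V where
  pred := (gr j).P
  rank := (gr j).lvl
  lt := (gr j).lvl_lt

section lift

variable {X M : Type} {k : ℕ}

/-- an instruction with one more memory cell -/
def Ins.lift (i : Ins X M k) : Ins X (M × Bool) k where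
  addr m := i.addr m.1
  upd m c := (i.upd m.1 c, m.2)

lemma run_lift (I : X → Fin k) (l : List (Ins X M k)) (m : M) (b : Bool) :
    runL I (l.map Ins.lift) (m, b) = (runL I l m, b) := by
  induction l generalizing m with
  | nil => rfl
  | cons i l ih =>
    rw [List.map_cons, runL_cons, runL_cons]
    exact ih _

end lift

lemma xor_par (a b : ℕ) : xor (decide (a % 2 = 1)) (decide (b % 2 = 1)) =
    decide ((a + b) % 2 = 1) := by
  rcases Nat.mod_two_eq_zero_or_one a with ha | ha <;>
    rcases Nat.mod_two_eq_zero_or_one b with hb | hb <;>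
    simp [Nat.add_mod, ha, hb]

section full

variable {K : Type} [Field K] {k : ℕ} [NeZero k] {V S Pos : Type} {G : Dag V}

open Classical in
/-- the parity of a value in a register -/
noncomputable def rp (R : Pos → Fin k → K) (x : Pos) : Bool :=
  decide (∃ a : Fin k, a.val % 2 = 1 ∧ R x a ≠ 0)

lemma rp_enc (v : Pos → Fin k) (x : Pos) : rp (enc K v) x = decide ((v x).val % 2 = 1) := by
  unfold rp enc
  rw [decide_eq_decide]
  constructor
  · rintro ⟨a, ha, hne⟩
    split_ifs at hne with h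
    · rw [h]; exact ha
    · exact absurd rfl hne
  · intro h
    exact ⟨v x, h, by simp⟩

/-- the instruction that adds a parity -/
noncomputable def accI (G : Dag V) (K : Type) [Field K] (S : Type) (e₀ : G.Entry k) (x : Pos) :
    Ins (G.Entry k) (Mem K Pos k S × Bool) k where
  addr _ := e₀
  upd m _ := (m.1, xor m.2 (rp (m.1.1 0) x))

/-- One sink. -/
lemma one_sink (e₀ : G.Entry k) {ℓ : ℕ} {y : Pos → V} (h : Comp K G k S ℓ y) (x : Pos) :
    ∃ l : List (Ins (G.Entry k) (Mem K Pos k S × Bool) k), l.length ≤ 2 * ℓ + 1 ∧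
      ∀ I b, runL I l ((0, z₀ S k), b) =
        ((0, z₀ S k), xor b (decide ((G.val I (y x)).val % 2 = 1))) := by
  obtain ⟨A, hA, eA⟩ := h 0 1
  obtain ⟨B, hB, eB⟩ := h 0 (-1)
  refine ⟨A.map Ins.lift ++ (accI G K S e₀ x :: B.map Ins.lift), ?_, ?_⟩
  · simp only [List.length_append, List.length_cons, List.length_map]
    omega
  · intro I b
    rw [runL_append, run_lift, eA, runL_cons]
    have h1 : (accI G K S e₀ x).upd ((Function.update (0 : Fin 3 → Pos → Fin k → K) 0
        ((0 : Fin 3 → Pos → Fin k → K) 0 + (1 : K) • enc K (fun x => G.val I (y x))), z₀ S k), b)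
        (I ((accI G K S e₀ x).addr ((Function.update (0 : Fin 3 → Pos → Fin k → K) 0
        ((0 : Fin 3 → Pos → Fin k → K) 0 + (1 : K) • enc K (fun x => G.val I (y x))),
          z₀ S k), b))) =
        ((Function.update (0 : Fin 3 → Pos → Fin k → K) 0
        ((0 : Fin 3 → Pos → Fin k → K) 0 + (1 : K) • enc K (fun x => G.val I (y x))), z₀ S k),
          xor b (decide ((G.val I (y x)).val % 2 = 1))) := by
      show ((_, _), xor b (rp _ x)) = _
      congr 2
      rw [← rp_enc (K := K) (fun x => G.val I (y x)) x]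
      congr 1
      simp
    beta_reduce
    rw [h1, run_lift, eB]
    congr 2
    beta_reduce
    rw [Function.update_self, Function.update_idem]
    simp

/-- All sinks. -/
lemma all_sinks (e₀ : G.Entry k) {m : ℕ} {ℓ : ℕ} {snk : (Fin m → Bool) → V}
    (h : ∀ s : Fin m → Bool, ∃ l : List (Ins (G.Entry k) (Mem K Pos k S × Bool) k),
      l.length ≤ 2 * ℓ + 1 ∧ ∀ I b, runL I l ((0, z₀ S k), b) =
        ((0, z₀ S k), xor b (decide ((G.val I (snk s)).val % 2 = 1))))
    (ss : List (Fin m → Bool)) :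
    ∃ l : List (Ins (G.Entry k) (Mem K Pos k S × Bool) k),
      l.length ≤ ss.length * (2 * ℓ + 1) ∧
      ∀ I b, runL I l ((0, z₀ S k), b) =
        ((0, z₀ S k), xor b (decide ((ss.map (fun s => (G.val I (snk s)).val)).sum % 2 = 1))) := by
  induction ss with
  | nil =>
    refine ⟨[], Nat.zero_le _, ?_⟩
    intro I b
    simp
  | cons s ss ih =>
    obtain ⟨l, hl, el⟩ := ih
    obtain ⟨l', hl', el'⟩ := h s
    refine ⟨l' ++ l, ?_, ?_⟩
    · rw [List.length_append, List.length_cons, Nat.succ_mul]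
      omega
    · intro I b
      rw [runL_append, el', el, Bool.xor_assoc, xor_par, List.map_cons, List.sum_cons]

end full

/-- **The program that reads everything.** -/
theorem full_k (K : Type) [Field K] [Fintype K] [DecidableEq K] (k : ℕ) [NeZero k] (j₀ d : ℕ)
    (hK : 2 * 2 ^ (j₀ + 7) < Fintype.card K - 1) :
    ∃ l : List (Ins ((dg (j₀ + d)).Entry k)
      (Mem K (Fin (j₀ + 7) → Bool) k (gr j₀).V × Bool) k),
      l.length ≤ 2 ^ (j₀ + d + 7) *
        (2 * (Gf (Fintype.card K) k (2 ^ (j₀ + 7)) (Fintype.card (gr j₀).V))^[dep j₀ d]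
          (Fintype.card (gr j₀).V + 1) + 1) ∧
      ∀ I, (runL I l ((0, z₀ _ k), false)).2 = par (dg (j₀ + d)) (gr (j₀ + d)).snk I := by
  classical
  have hP : Fintype.card (Fin (j₀ + 7) → Bool) = 2 ^ (j₀ + 7) := by simp
  have hK' : 2 * Fintype.card (Fin (j₀ + 7) → Bool) < Fintype.card K - 1 := by rw [hP]; exact hK
  obtain ⟨e₀, _⟩ : ∃ e : (dg (j₀ + d)).Entry k, True :=
    ⟨⟨(gr (j₀ + d)).src (fun _ => false), fun _ => 0⟩, trivial⟩
  have hm : j₀ + 7 ≤ j₀ + d + 7 := by omega
  -- the sources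
  have hs : LC K (dg (j₀ + d)) k j₀ (Fintype.card (gr j₀).V + 1) (gr (j₀ + d)).src := by
    intro r
    let g : (gr j₀).V → (gr (j₀ + d)).V := fun s =>
      if h : ∃ x, (gr j₀).src x = s then (gr (j₀ + d)).src (mix r h.choose)
      else (gr (j₀ + d)).src (mix r (fun _ : Fin (j₀ + 7) => false))
    have hg : ∀ x, g ((gr j₀).src x) = (gr (j₀ + d)).src (mix r x) := by
      intro x
      have h : ∃ x', (gr j₀).src x' = (gr j₀).src x := ⟨x, rfl⟩
      show (if h : ∃ x', (gr j₀).src x' = (gr j₀).src x then _ else _) = _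
      rw [dif_pos h, (gr j₀).src_inj h.choose_spec]
    have hmem : ∀ s, s ∈ ((univ : Finset (Fin (j₀ + 7) → Bool)).toList.map (gr j₀).src) ↔
        ∃ x, (gr j₀).src x = s := by
      intro s
      rw [List.mem_map]
      constructor
      · rintro ⟨x, _, hx⟩
        exact ⟨x, hx⟩
      · rintro ⟨x, hx⟩
        exact ⟨x, by rw [Finset.mem_toList]; exact mem_univ _, hx⟩
    have key := comp_base (K := K) (S := (gr j₀).V) e₀ g
      ((univ : Finset (Fin (j₀ + 7) → Bool)).toList.map (gr j₀).src) (gr j₀).src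
      (by
        intro w hw
        obtain ⟨x, rfl⟩ := (hmem w).1 hw
        rw [hg]
        exact (gr (j₀ + d)).P_src _)
      (by
        intro x
        exact (hmem _).2 ⟨x, rfl⟩) (fun _ => (gr (j₀ + d)).src (fun _ => false))
    have h3 : (fun x => g ((gr j₀).src x)) = fun x => (gr (j₀ + d)).src (mix r x) := funext hg
    rw [h3] at key
    refine key.mono ?_
    rw [List.length_map, Finset.length_toList, Finset.card_univ]
    have := card_pos_le j₀
    omega
  have ht := blk (G := dg (j₀ + d)) hK' e₀ d id Function.injective_id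
    (fun w _ v hv => ⟨v, hv, rfl⟩) _ hs
  obtain ⟨ℓ, hℓ⟩ : ∃ ℓ, ℓ = (GG K k j₀)^[dep j₀ d] (Fintype.card (gr j₀).V + 1) := ⟨_, rfl⟩
  rw [← hℓ] at ht
  obtain ⟨l, hl, el⟩ := all_sinks (K := K) (S := (gr j₀).V) (Pos := Fin (j₀ + 7) → Bool) e₀
    (ℓ := ℓ) (snk := (gr (j₀ + d)).snk) (fun s => by
      obtain ⟨l, h1, h2⟩ := one_sink e₀ (ht s) (res hm s)
      refine ⟨l, h1, fun I b => ?_⟩
      rw [h2]
      simp only [id]
      rw [mix_res]) (univ : Finset (Fin (j₀ + d + 7) → Bool)).toList
  refine ⟨l, ?_, ?_⟩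
  · refine hl.trans (le_of_eq ?_)
    rw [Finset.length_toList, Finset.card_univ, hℓ]
    have h1 : Fintype.card (Fin (j₀ + d + 7) → Bool) = 2 ^ (j₀ + d + 7) := by simp
    rw [h1]
    unfold GG
    rw [hP]
  · intro I
    rw [el]
    simp only [Bool.false_xor]
    rw [Finset.sum_map_toList]
    rfl

end Pool.Agent.W988.PF
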