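import Pool.Agent.W988.SR.Basic

/-! Straight line programs: lists of instructions that read a variable and change the memory. -/

set_option autoImplicit false

namespace Pool.Agent.W988.PF

open Finset
open Pool.Agent.W988.SR

/-- An instruction: read the variable `addr m` and replace the memory `m` by `upd m c`, where `c`
is the value that was read. -/
structure Ins (X M : Type) (k : ℕ) where
  /-- the variable that is read -/
  addr : M → X
  /-- the new memory -/
  upd : M → Fin k → M

section run

variable {X M : Type} {k : ℕ}

/-- execute a list of instructions -/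
def runL (I : X → Fin k) (l : List (Ins X M k)) (m : M) : M :=
  l.foldl (fun m i => i.upd m (I (i.addr m))) m

@[simp] lemma runL_nil (I : X → Fin k) (m : M) : runL I ([] : List (Ins X M k)) m = m := rfl

@[simp] lemma runL_cons (I : X → Fin k) (i : Ins X M k) (l : List (Ins X M k)) (m : M) :
    runL I (i :: l) m = runL I l (i.upd m (I (i.addr m))) := rfl

lemma runL_append (I : X → Fin k) (l l' : List (Ins X M k)) (m : M) :
    runL I (l ++ l') m = runL I l' (runL I l m) := by
  unfold runL
  rw [List.foldl_append]

/-- the branching program of a list -/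
def toProg {O : Type} (l : List (Ins X M k)) (m₀ : M) (out : M → O) :
    Program X k (Fin (l.length + 1) × M) O where
  start := (0, m₀)
  act q := if h : q.1.val < l.length then Sum.inr ((l.get ⟨q.1.val, h⟩).addr q.2)
    else Sum.inl (out q.2)
  next q c := if h : q.1.val < l.length then
      (⟨q.1.val + 1, by omega⟩, (l.get ⟨q.1.val, h⟩).upd q.2 c)
    else q

lemma toProg_state {O : Type} (l : List (Ins X M k)) (m₀ : M) (out : M → O) (I : X → Fin k) :
    ∀ j (hj : j ≤ l.length), (toProg l m₀ out).state I j =
      (⟨j, Nat.lt_succ_of_le hj⟩, runL I (l.take j) m₀) := by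
  intro j
  induction j with
  | zero => intro _; rfl
  | succ j ih =>
    intro hj
    have hj' : j < l.length := hj
    rw [Program.state_succ, ih hj'.le]
    have h1 : (toProg l m₀ out).act (⟨j, Nat.lt_succ_of_le hj'.le⟩, runL I (l.take j) m₀) =
        Sum.inr ((l.get ⟨j, hj'⟩).addr (runL I (l.take j) m₀)) := by
      unfold toProg
      simp only
      rw [dif_pos hj']
    unfold Program.step
    rw [h1]
    simp only
    have h2 : l.take (j + 1) = l.take j ++ [l.get ⟨j, hj'⟩] := by
      rw [List.take_succ_eq_append_getElem hj']
      rfl
    rw [h2, runL_append, runL_cons, runL_nil]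
    unfold toProg
    simp only
    rw [dif_pos hj']

lemma toProg_outputs {O : Type} (l : List (Ins X M k)) (m₀ : M) (out : M → O) (I : X → Fin k) :
    (toProg l m₀ out).Outputs I (out (runL I l m₀)) := by
  refine ⟨l.length, ?_⟩
  rw [toProg_state l m₀ out I l.length le_rfl, List.take_length]
  unfold toProg
  simp only
  rw [dif_neg (lt_irrefl _)]

end run

end Pool.Agent.W988.PF
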