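import Pool.Agent.W988.PF.BP
import Pool.Agent.W988.PF.LP

/-! From programs over an alphabet to Boolean programs. -/

set_option autoImplicit false

namespace Pool.Agent.W988.PF

open Finset
open Pool.Agent.W988.SR

/-! ### lists of Boolean instructions -/

/-- A Boolean instruction. -/
structure BIns (n : ℕ) (M : Type) where
  /-- the bit that is read -/
  addr : M → Fin n
  /-- the new memory -/
  upd : M → Bool → M

section brun

variable {n : ℕ} {M : Type}

/-- execute a list of instructions -/
def brun (x : Fin n → Bool) (l : List (BIns n M)) (m : M) : M :=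
  l.foldl (fun m i => i.upd m (x (i.addr m))) m

@[simp] lemma brun_nil (x : Fin n → Bool) (m : M) : brun x ([] : List (BIns n M)) m = m := rfl

@[simp] lemma brun_cons (x : Fin n → Bool) (i : BIns n M) (l : List (BIns n M)) (m : M) :
    brun x (i :: l) m = brun x l (i.upd m (x (i.addr m))) := rfl

lemma brun_append (x : Fin n → Bool) (l l' : List (BIns n M)) (m : M) :
    brun x (l ++ l') m = brun x l' (brun x l m) := by
  unfold brun
  rw [List.foldl_append]

/-- the branching program of a list -/
def toBP (l : List (BIns n M)) (m₀ : M) (out : M → Bool) : BP n (Fin (l.length + 1) × M) where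
  start := (0, m₀)
  act q := if h : q.1.val < l.length then Sum.inr ((l.get ⟨q.1.val, h⟩).addr q.2)
    else Sum.inl (out q.2)
  next q c := if h : q.1.val < l.length then
      (⟨q.1.val + 1, by omega⟩, (l.get ⟨q.1.val, h⟩).upd q.2 c)
    else q

lemma BP.state_succ {Q : Type} (P : BP n Q) (x : Fin n → Bool) (j : ℕ) :
    P.state x (j + 1) = P.step x (P.state x j) := by
  unfold BP.state
  rw [Function.iterate_succ_apply']

lemma toBP_state (l : List (BIns n M)) (m₀ : M) (out : M → Bool) (x : Fin n → Bool) :
    ∀ j (hj : j ≤ l.length), (toBP l m₀ out).state x j =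
      (⟨j, Nat.lt_succ_of_le hj⟩, brun x (l.take j) m₀) := by
  intro j
  induction j with
  | zero => intro _; rfl
  | succ j ih =>
    intro hj
    have hj' : j < l.length := hj
    rw [BP.state_succ, ih hj'.le]
    have h1 : (toBP l m₀ out).act (⟨j, Nat.lt_succ_of_le hj'.le⟩, brun x (l.take j) m₀) =
        Sum.inr ((l.get ⟨j, hj'⟩).addr (brun x (l.take j) m₀)) := by
      unfold toBP
      simp only
      rw [dif_pos hj']
    unfold BP.step
    rw [h1]
    simp only
    have h2 : l.take (j + 1) = l.take j ++ [l.get ⟨j, hj'⟩] := by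
      rw [List.take_succ_eq_append_getElem hj']
      rfl
    rw [h2, brun_append, brun_cons, brun_nil]
    unfold toBP
    simp only
    rw [dif_pos hj']

lemma toBP_stop (l : List (BIns n M)) (m₀ : M) (out : M → Bool) (x : Fin n → Bool) :
    (toBP l m₀ out).act ((toBP l m₀ out).state x l.length) = Sum.inl (out (brun x l m₀)) := by
  rw [toBP_state l m₀ out x l.length le_rfl, List.take_length]
  unfold toBP
  simp only
  rw [dif_neg (lt_irrefl _)]

lemma toBP_outputs (l : List (BIns n M)) (m₀ : M) (out : M → Bool) (x : Fin n → Bool) :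
    (toBP l m₀ out).Outputs x (out (brun x l m₀)) := ⟨l.length, toBP_stop l m₀ out x⟩

lemma BP.stable {Q : Type} {P : BP n Q} {x : Fin n → Bool} {j : ℕ} {b : Bool}
    (h : P.act (P.state x j) = Sum.inl b) : ∀ i, P.state x (j + i) = P.state x j := by
  intro i
  induction i with
  | zero => rfl
  | succ i ih =>
    rw [← add_assoc, BP.state_succ, ih]
    unfold BP.step
    rw [h]

lemma toBP_reads (l : List (BIns n M)) (m₀ : M) (out : M → Bool) (x : Fin n → Bool) :
    (toBP l m₀ out).reads x ≤ l.length := by
  classical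
  have h : ∀ i : Fin n, (∃ j, (toBP l m₀ out).act ((toBP l m₀ out).state x j) = Sum.inr i) →
      ∃ j : Fin l.length, (toBP l m₀ out).act ((toBP l m₀ out).state x j.val) = Sum.inr i := by
    rintro i ⟨j, hj⟩
    rcases Nat.lt_or_ge j l.length with h1 | h1
    · exact ⟨⟨j, h1⟩, hj⟩
    · exfalso
      have h2 := BP.stable (toBP_stop l m₀ out x) (j - l.length)
      rw [Nat.add_sub_cancel' h1] at h2
      rw [h2, toBP_stop] at hj
      exact absurd hj (by simp)
  unfold BP.reads
  calc Nat.card {i : Fin n // ∃ j, (toBP l m₀ out).act ((toBP l m₀ out).state x j) =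
        Sum.inr i} ≤ Nat.card (Fin l.length) := by
        refine Nat.card_le_card_of_injective (fun i => (h i.1 i.2).choose) ?_
        rintro ⟨i, hi⟩ ⟨i', hi'⟩ heq
        have h1 := (h i hi).choose_spec
        have h2 := (h i' hi').choose_spec
        simp only at heq
        rw [heq, h2] at h1
        exact Subtype.ext (Sum.inr.inj h1).symm
    _ = _ := by simp

end brun

/-! ### bits of letters -/

section tobool

variable {X M : Type} {κ n : ℕ} (E : Fin (2 ^ κ) ≃ (Fin κ → Bool)) (ι : X × Fin κ → Fin n)

/-- the letters with given bits -/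
def letters (x : Fin n → Bool) : X → Fin (2 ^ κ) := fun e => E.symm (fun b => x (ι (e, b)))

/-- read one bit into the buffer -/
def bitI (i : Ins X M (2 ^ κ)) (b : Fin κ) : BIns n (M × (Fin κ → Bool)) where
  addr m := ι (i.addr m.1, b)
  upd m c := (m.1, Function.update m.2 b c)

/-- execute the instruction -/
def excI (hκ : 0 < κ) (i : Ins X M (2 ^ κ)) : BIns n (M × (Fin κ → Bool)) where
  addr m := ι (i.addr m.1, ⟨0, hκ⟩)
  upd m _ := (i.upd m.1 (E.symm m.2), m.2)

/-- the translation of an instruction -/
def tr (hκ : 0 < κ) (i : Ins X M (2 ^ κ)) : List (BIns n (M × (Fin κ → Bool))) :=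
  (List.finRange κ).map (bitI ι i) ++ [excI E ι hκ i]

lemma brun_bits (i : Ins X M (2 ^ κ)) (x : Fin n → Bool) (m : M) (bs : List (Fin κ))
    (w : Fin κ → Bool) : brun x (bs.map (bitI ι i)) (m, w) =
      (m, fun b => if b ∈ bs then x (ι (i.addr m, b)) else w b) := by
  induction bs generalizing w with
  | nil => simp
  | cons b bs ih =>
    rw [List.map_cons, brun_cons]
    have h1 : (bitI ι i b).upd (m, w) (x ((bitI ι i b).addr (m, w))) =
        (m, Function.update w b (x (ι (i.addr m, b)))) := rfl
    rw [h1, ih]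
    congr 1
    funext b'
    by_cases h2 : b' ∈ bs
    · rw [if_pos h2, if_pos (List.mem_cons_of_mem _ h2)]
    · rw [if_neg h2]
      by_cases h3 : b' = b
      · subst h3
        rw [Function.update_self, if_pos (List.mem_cons_self ..)]
      · rw [Function.update_of_ne h3, if_neg]
        intro h4
        rcases List.mem_cons.1 h4 with h5 | h5
        · exact h3 h5
        · exact h2 h5

lemma brun_tr (hκ : 0 < κ) (i : Ins X M (2 ^ κ)) (x : Fin n → Bool) (m : M)
    (w : Fin κ → Bool) : ∃ w', brun x (tr E ι hκ i) (m, w) =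
      (i.upd m (letters E ι x (i.addr m)), w') := by
  unfold tr
  rw [brun_append, brun_bits, brun_cons, brun_nil]
  refine ⟨fun b => x (ι (i.addr m, b)), ?_⟩
  have h1 : (fun b => if b ∈ List.finRange κ then x (ι (i.addr m, b)) else w b) =
      fun b => x (ι (i.addr m, b)) := by
    funext b
    rw [if_pos (List.mem_finRange b)]
  rw [h1]
  rfl

lemma brun_all (hκ : 0 < κ) (x : Fin n → Bool) (l : List (Ins X M (2 ^ κ))) (m : M)
    (w : Fin κ → Bool) : ∃ w', brun x ((l.map (tr E ι hκ)).flatten) (m, w) =
      (runL (letters E ι x) l m, w') := by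
  induction l generalizing m w with
  | nil => exact ⟨w, rfl⟩
  | cons i l ih =>
    obtain ⟨w1, h1⟩ := brun_tr E ι hκ i x m w
    obtain ⟨w2, h2⟩ := ih (i.upd m (letters E ι x (i.addr m))) w1
    exact ⟨w2, by rw [List.map_cons, List.flatten_cons, brun_append, h1, h2]; rfl⟩

lemma length_all (hκ : 0 < κ) (l : List (Ins X M (2 ^ κ))) :
    ((l.map (tr (n := n) E ι hκ)).flatten).length = l.length * (κ + 1) := by
  rw [List.length_flatten, List.map_map]
  have h : (List.length ∘ (tr (n := n) E ι hκ)) = fun _ : Ins X M (2 ^ κ) => κ + 1 := by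
    funext i
    simp [tr]
  rw [h, List.map_const', List.sum_replicate, smul_eq_mul]

/-- **Boolean programs from lists.** -/
theorem exists_bp [Finite M] (hκ : 0 < κ) (l : List (Ins X M (2 ^ κ))) (m₀ : M)
    (out : M → Bool) :
    ∃ (Q : Type) (_ : Finite Q) (P : BP n Q),
      Nat.card Q = (l.length * (κ + 1) + 1) * (Nat.card M * 2 ^ κ) ∧
      ∀ x, P.Outputs x (out (runL (letters E ι x) l m₀)) ∧ P.reads x ≤ l.length * (κ + 1) := by
  refine ⟨_, inferInstance, toBP ((l.map (tr E ι hκ)).flatten) (m₀, fun _ => false)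
    (fun m => out m.1), ?_, ?_⟩
  · rw [Nat.card_prod, Nat.card_prod, length_all]
    simp
  · intro x
    refine ⟨?_, ?_⟩
    · obtain ⟨w', h⟩ := brun_all E ι hκ x l m₀ (fun _ => false)
      have h1 := toBP_outputs ((l.map (tr E ι hκ)).flatten) (m₀, fun _ => false)
        (fun m => out m.1) x
      rw [h] at h1
      exact h1
    · have h1 := toBP_reads ((l.map (tr E ι hκ)).flatten) (m₀, fun _ => false)
        (fun m => out m.1) x
      exact h1.trans (le_of_eq (length_all E ι hκ l))

end tobool

/-! ### from Boolean programs to programs over an alphabet -/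

section fromBool

variable {X Q : Type} {κ n : ℕ} (E : Fin (2 ^ κ) ≃ (Fin κ → Bool)) (ι : X × Fin κ → Fin n)

open Classical in
/-- the variable that contains a bit -/
noncomputable def vr (e₀ : X) (i : Fin n) : X := if h : ∃ z, ι z = i then h.choose.1 else e₀

open Classical in
/-- the bit of a letter, or of the padding -/
noncomputable def bt (y : Fin n → Bool) (i : Fin n) (c : Fin (2 ^ κ)) : Bool :=
  if h : ∃ z, ι z = i then E c h.choose.2 else y i

open Classical in
/-- the input with given letters and given padding -/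
noncomputable def inp (y : Fin n → Bool) (I : X → Fin (2 ^ κ)) : Fin n → Bool := fun i =>
  if h : ∃ z, ι z = i then E (I h.choose.1) h.choose.2 else y i

/-- the program over the alphabet -/
noncomputable def fromBP (P : BP n Q) (e₀ : X) (y : Fin n → Bool) :
    Program X (2 ^ κ) Q Bool where
  start := P.start
  act q := match P.act q with
    | .inl b => .inl b
    | .inr i => .inr (vr ι e₀ i)
  next q c := match P.act q with
    | .inl _ => q
    | .inr i => P.next q (bt E ι y i c)

variable {E ι}

lemma bt_inp (e₀ : X) (y : Fin n → Bool) (I : X → Fin (2 ^ κ)) (i : Fin n) :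
    bt E ι y i (I (vr ι e₀ i)) = inp E ι y I i := by
  unfold bt vr inp
  by_cases h : ∃ z, ι z = i
  · rw [dif_pos h, dif_pos h, dif_pos h]
  · rw [dif_neg h, dif_neg h]

lemma fromBP_state (P : BP n Q) (e₀ : X) (y : Fin n → Bool) (I : X → Fin (2 ^ κ)) (j : ℕ) :
    (fromBP E ι P e₀ y).state I j = P.state (inp E ι y I) j := by
  induction j with
  | zero => rfl
  | succ j ih =>
    rw [Program.state_succ, BP.state_succ, ih]
    obtain ⟨q, hq⟩ : ∃ q, q = P.state (inp E ι y I) j := ⟨_, rfl⟩
    rw [← hq]
    unfold Program.step BP.step fromBP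
    simp only
    cases hact : P.act q with
    | inl b => rfl
    | inr i =>
      simp only
      rw [bt_inp]

lemma fromBP_outputs (P : BP n Q) (e₀ : X) (y : Fin n → Bool) (I : X → Fin (2 ^ κ)) (b : Bool)
    (h : P.Outputs (inp E ι y I) b) : (fromBP E ι P e₀ y).Outputs I b := by
  obtain ⟨j, hj⟩ := h
  refine ⟨j, ?_⟩
  rw [fromBP_state]
  unfold fromBP
  simp only
  rw [hj]

lemma fromBP_reads [Finite X] (P : BP n Q) (e₀ : X) (y : Fin n → Bool)
    (I : X → Fin (2 ^ κ)) :
    Nat.card {e : X // (fromBP E ι P e₀ y).Reads I e} ≤ P.reads (inp E ι y I) + 1 := by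
  classical
  have h1 : ∀ e, (fromBP E ι P e₀ y).Reads I e → e ≠ e₀ →
      ∃ i, (∃ j, P.act (P.state (inp E ι y I) j) = Sum.inr i) ∧ vr ι e₀ i = e := by
    rintro e ⟨j, hj⟩ hne
    rw [fromBP_state] at hj
    unfold fromBP at hj
    simp only at hj
    cases hact : P.act (P.state (inp E ι y I) j) with
    | inl b =>
      rw [hact] at hj
      exact absurd hj (by simp)
    | inr i =>
      rw [hact] at hj
      exact ⟨i, ⟨j, hact⟩, Sum.inr.inj hj⟩
  let F : {e : X // (fromBP E ι P e₀ y).Reads I e} →
      Option {i : Fin n // ∃ j, P.act (P.state (inp E ι y I) j) = Sum.inr i} := fun e =>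
    if h : e.1 = e₀ then none else some ⟨(h1 e.1 e.2 h).choose, (h1 e.1 e.2 h).choose_spec.1⟩
  have hF : Function.Injective F := by
    rintro ⟨e, he⟩ ⟨e', he'⟩ heq
    apply Subtype.ext
    simp only
    by_cases h : e = e₀
    · by_cases h' : e' = e₀
      · rw [h, h']
      · exfalso
        have g1 : F ⟨e, he⟩ = none := dif_pos h
        have g2 : F ⟨e', he'⟩ = some ⟨(h1 e' he' h').choose, (h1 e' he' h').choose_spec.1⟩ :=
          dif_neg h'
        rw [g1, g2] at heq
        exact absurd heq (by simp)
    · by_cases h' : e' = e₀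
      · exfalso
        have g1 : F ⟨e, he⟩ = some ⟨(h1 e he h).choose, (h1 e he h).choose_spec.1⟩ := dif_neg h
        have g2 : F ⟨e', he'⟩ = none := dif_pos h'
        rw [g1, g2] at heq
        exact absurd heq (by simp)
      · have g1 : F ⟨e, he⟩ = some ⟨(h1 e he h).choose, (h1 e he h).choose_spec.1⟩ := dif_neg h
        have g2 : F ⟨e', he'⟩ = some ⟨(h1 e' he' h').choose, (h1 e' he' h').choose_spec.1⟩ :=
          dif_neg h'
        rw [g1, g2] at heq
        have h3 := congrArg Subtype.val (Option.some.inj heq)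
        simp only at h3
        have h4 := (h1 e he h).choose_spec.2
        have h5 := (h1 e' he' h').choose_spec.2
        rw [← h4, ← h5, h3]
  have h2 := Nat.card_le_card_of_injective F hF
  have h3 : Nat.card (Option {i : Fin n // ∃ j, P.act (P.state (inp E ι y I) j) =
      Sum.inr i}) = P.reads (inp E ι y I) + 1 := by
    unfold BP.reads
    rw [Nat.card_eq_fintype_card, Fintype.card_option, Nat.card_eq_fintype_card]
  rwa [h3] at h2

lemma letters_inp (hι : Function.Injective ι) (y : Fin n → Bool) (I : X → Fin (2 ^ κ)) :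
    letters E ι (inp E ι y I) = I := by
  classical
  funext e
  unfold letters
  rw [Equiv.symm_apply_eq]
  funext b
  unfold inp
  have h : ∃ z, ι z = ι (e, b) := ⟨_, rfl⟩
  rw [dif_pos h]
  have h1 : h.choose = (e, b) := hι h.choose_spec
  rw [h1]

lemma inp_letters (x y : Fin n → Bool)
    (h : ∀ i, (¬ ∃ z, ι z = i) → y i = x i) : inp E ι y (letters E ι x) = x := by
  classical
  funext i
  unfold inp
  by_cases h1 : ∃ z, ι z = i
  · rw [dif_pos h1]
    unfold letters
    rw [Equiv.apply_symm_apply]
    have h2 := h1.choose_spec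
    conv_rhs => rw [← h2]
  · rw [dif_neg h1]
    exact h i h1

/-- A good padding. -/
lemma exists_pad [Finite X] (hι : Function.Injective ι) (A : Set (Fin n → Bool)) :
    ∃ y : Fin n → Bool, Nat.card A * Nat.card (X → Fin (2 ^ κ)) ≤
      2 ^ n * Nat.card {I : X → Fin (2 ^ κ) // inp E ι y I ∈ A} := by
  classical
  have : Fintype X := Fintype.ofFinite X
  by_contra hcon
  push Not at hcon
  -- the injection
  let F : A × (X → Fin (2 ^ κ)) →
      Σ y : Fin n → Bool, {I : X → Fin (2 ^ κ) // inp E ι y I ∈ A} := fun z =>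
    ⟨inp E ι z.1.1 z.2, ⟨letters E ι z.1.1, by
      rw [inp_letters z.1.1]
      · exact z.1.2
      · intro i hi
        unfold inp
        rw [dif_neg hi]⟩⟩
  have hF : Function.Injective F := by
    rintro ⟨⟨x, hx⟩, J⟩ ⟨⟨x', hx'⟩, J'⟩ heq
    have h1 : inp E ι x J = inp E ι x' J' := congrArg Sigma.fst heq
    have h2 : letters E ι x = letters E ι x' := by
      have : ∀ (z z' : Σ y : Fin n → Bool, {I : X → Fin (2 ^ κ) // inp E ι y I ∈ A}), z = z' →
          z.2.1 = z'.2.1 := by
        rintro z z' rfl
        rfl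
      exact this _ _ heq
    have h3 : J = J' := by
      rw [← letters_inp hι x J, h1, letters_inp hι]
    have h4 : x = x' := by
      rw [← inp_letters (E := E) x (inp E ι x J) (fun i hi => by
        unfold inp
        rw [dif_neg hi]), h1, h2]
      exact inp_letters x' _ (fun i hi => by
        unfold inp
        rw [dif_neg hi])
    subst h3
    subst h4
    rfl
  have h1 := Nat.card_le_card_of_injective F hF
  rw [Nat.card_prod, Nat.card_sigma] at h1
  have h2 : 2 ^ n * ∑ y : Fin n → Bool, Nat.card {I : X → Fin (2 ^ κ) // inp E ι y I ∈ A} <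
      2 ^ n * (Nat.card A * Nat.card (X → Fin (2 ^ κ))) := by
    have h3 : (univ : Finset (Fin n → Bool)).card = 2 ^ n := by
      rw [Finset.card_univ]
      simp
    rw [Finset.mul_sum]
    calc ∑ y : Fin n → Bool, 2 ^ n * Nat.card {I : X → Fin (2 ^ κ) // inp E ι y I ∈ A} <
          ∑ _y : Fin n → Bool, Nat.card A * Nat.card (X → Fin (2 ^ κ)) :=
          Finset.sum_lt_sum_of_nonempty ⟨fun _ => false, mem_univ _⟩ (fun y _ => hcon y)
      _ = _ := by rw [Finset.sum_const, h3, smul_eq_mul]
  have h3 := Nat.mul_le_mul_left (2 ^ n) h1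
  omega

end fromBool

end Pool.Agent.W988.PF
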