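import Pool.Agent.W988.PF.Fm
import Pool.Agent.W988.PF.ToBool
import Pool.Agent.W988.PF.Full

/-! Circuits for the evaluation of a graph of tables. -/

set_option autoImplicit false

namespace Pool.Agent.W988.PF

open Finset
open Pool.Agent.W988.SR

section circ

variable {V X : Type} [Fintype V] [Fintype X] {G : Dag V} {κ n : ℕ}
  (E : Fin (2 ^ κ) ≃ (Fin κ → Bool)) (ι : G.Entry (2 ^ κ) × Fin κ → Fin n)

/-- a bit of a node is the bit of a letter -/
def litF (v : V) (a : Fin (2 ^ κ)) (b : Fin κ) : Fm n ((V × Fin κ) ⊕ Unit) :=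
  .bin (fun c _ => c == E a b) (.var (.inl (v, b))) (.con true)

/-- the value of a node is the letter `a` -/
def eqF (v : V) (a : Fin (2 ^ κ)) : Fm n ((V × Fin κ) ⊕ Unit) :=
  Fm.big (· && ·) true ((List.finRange κ).map (litF E v a))

/-- the arguments of `v` are `α` -/
noncomputable def argF (v : V) (α : G.Args (2 ^ κ) v) : Fm n ((V × Fin κ) ⊕ Unit) :=
  Fm.big (· && ·) true ((G.pred v).attach.toList.map (fun w => eqF E w.1 (α w)))

open Classical in
/-- a bit of the value of `v` -/
noncomputable def nodF (v : V) (b : Fin κ) : Fm n ((V × Fin κ) ⊕ Unit) :=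
  Fm.big (· || ·) false ((univ : Finset (G.Args (2 ^ κ) v)).toList.map (fun α =>
    .bin (· && ·) (argF E v α) (.inp (ι (⟨v, α⟩, b)))))

open Classical in
/-- the parity of the value of `v` -/
noncomputable def parF (v : V) : Fm n ((V × Fin κ) ⊕ Unit) :=
  Fm.big (· || ·) false ((univ.filter (fun a : Fin (2 ^ κ) => a.val % 2 = 1)).toList.map
    (fun a => eqF E v a))

/-- the system -/
noncomputable def sysF (snk : X → V) : (V × Fin κ) ⊕ Unit → Fm n ((V × Fin κ) ⊕ Unit)
  | .inl z => nodF E ι z.1 z.2
  | .inr _ => Fm.big xor false ((univ : Finset X).toList.map (fun s => parF E (snk s)))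

/-- the levels -/
def sysL (G : Dag V) : (V × Fin κ) ⊕ Unit → ℕ
  | .inl z => G.rank z.1
  | .inr _ => univ.sup G.rank + 1

variable {E ι}

omit [Fintype V] in
lemma eqF_above {lvl : (V × Fin κ) ⊕ Unit → ℕ} {l : ℕ} {v : V} {a : Fin (2 ^ κ)}
    (h : ∀ b, lvl (.inl (v, b)) < l) : (eqF (n := n) E v a).Above lvl l := by
  apply Fm.big_above
  intro φ hφ
  rw [List.mem_map] at hφ
  obtain ⟨b, _, rfl⟩ := hφ
  exact ⟨h b, trivial⟩

omit [Fintype V] in
lemma eqF_size (v : V) (a : Fin (2 ^ κ)) : (eqF (n := n) E v a).size ≤ κ * 4 + 1 := by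
  have h := Fm.big_size (h := (· && ·)) (z := true) ((List.finRange κ).map (litF (n := n) E v a))
    (m := 3) (by
      intro φ hφ
      rw [List.mem_map] at hφ
      obtain ⟨b, _, rfl⟩ := hφ
      exact le_rfl)
  rw [List.length_map, List.length_finRange] at h
  exact h

omit [Fintype V] in
lemma eqF_eval (x : Fin n → Bool) (u : (V × Fin κ) ⊕ Unit → Bool) (v : V) (a c : Fin (2 ^ κ))
    (hu : ∀ b, u (.inl (v, b)) = E c b) : (eqF (n := n) E v a).eval x u = decide (c = a) := by
  unfold eqF
  rw [Fm.big_and, decide_eq_decide]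
  constructor
  · intro h
    apply E.injective
    funext b
    have h1 := h _ (List.mem_map.2 ⟨b, List.mem_finRange b, rfl⟩)
    have h2 : (u (.inl (v, b)) == E a b) = true := h1
    rw [← hu b]
    exact eq_of_beq h2
  · rintro rfl φ hφ
    rw [List.mem_map] at hφ
    obtain ⟨b, _, rfl⟩ := hφ
    show (u (.inl (v, b)) == E c b) = true
    rw [hu b]
    exact beq_self_eq_true _

lemma sysF_above (snk : X → V) (b : (V × Fin κ) ⊕ Unit) :
    (sysF E ι snk b).Above (sysL G) (sysL G b) := by
  classical
  cases b with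
  | inl z =>
    obtain ⟨v, b⟩ := z
    apply Fm.big_above
    intro φ hφ
    rw [List.mem_map] at hφ
    obtain ⟨α, _, rfl⟩ := hφ
    refine ⟨?_, trivial⟩
    apply Fm.big_above
    intro φ hφ
    rw [List.mem_map] at hφ
    obtain ⟨w, _, rfl⟩ := hφ
    exact eqF_above (fun b => G.lt v w.1 w.2)
  | inr _ =>
    apply Fm.big_above
    intro φ hφ
    rw [List.mem_map] at hφ
    obtain ⟨s, _, rfl⟩ := hφ
    apply Fm.big_above
    intro φ hφ
    rw [List.mem_map] at hφ
    obtain ⟨a, _, rfl⟩ := hφ
    refine eqF_above (fun b => ?_)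
    show G.rank (snk s) < univ.sup G.rank + 1
    have := Finset.le_sup (f := G.rank) (mem_univ (snk s))
    omega

lemma nodF_size (hG : ∀ v, (G.pred v).card ≤ 2) (v : V) (b : Fin κ) :
    (nodF E ι v b).size ≤ 2 ^ κ * 2 ^ κ * (8 * κ + 8) + 1 := by
  classical
  have h := Fm.big_size (h := (· || ·)) (z := false)
    ((univ : Finset (G.Args (2 ^ κ) v)).toList.map (fun α =>
      (.bin (· && ·) (argF (n := n) E v α) (.inp (ι (⟨v, α⟩, b))) :
        Fm n ((V × Fin κ) ⊕ Unit)))) (m := 8 * κ + 7) (by
      intro φ hφ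
      rw [List.mem_map] at hφ
      obtain ⟨α, _, rfl⟩ := hφ
      have h1 := Fm.big_size (h := (· && ·)) (z := true)
        ((G.pred v).attach.toList.map (fun w => eqF (n := n) E w.1 (α w))) (m := κ * 4 + 1) (by
          intro φ hφ
          rw [List.mem_map] at hφ
          obtain ⟨w, _, rfl⟩ := hφ
          exact eqF_size _ _)
      rw [List.length_map, Finset.length_toList, Finset.card_attach] at h1
      have h2 : (G.pred v).card * (κ * 4 + 1 + 1) ≤ 2 * (κ * 4 + 1 + 1) :=
        Nat.mul_le_mul_right _ (hG v)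
      show (argF (n := n) E v α).size + 1 + 1 ≤ 8 * κ + 7
      have h3 : (argF (n := n) E v α).size ≤ (G.pred v).card * (κ * 4 + 1 + 1) + 1 := h1
      omega)
  rw [List.length_map, Finset.length_toList, Finset.card_univ] at h
  have h2 : Fintype.card (G.Args (2 ^ κ) v) ≤ 2 ^ κ * 2 ^ κ := by
    rw [Fintype.card_fun, Fintype.card_fin, Fintype.card_coe, ← pow_two]
    exact Nat.pow_le_pow_right (by positivity) (hG v)
  calc (nodF E ι v b).size ≤ Fintype.card (G.Args (2 ^ κ) v) * (8 * κ + 7 + 1) + 1 := h
    _ ≤ _ := Nat.add_le_add_right (Nat.mul_le_mul_right (8 * κ + 7 + 1) h2) 1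

omit [Fintype V] in
lemma parF_size (v : V) : (parF (n := n) E v).size ≤ 2 ^ κ * (4 * κ + 2) + 1 := by
  classical
  have h := Fm.big_size (h := (· || ·)) (z := false)
    ((univ.filter (fun a : Fin (2 ^ κ) => a.val % 2 = 1)).toList.map
      (fun a => eqF (n := n) E v a)) (m := κ * 4 + 1) (by
      intro φ hφ
      rw [List.mem_map] at hφ
      obtain ⟨a, _, rfl⟩ := hφ
      exact eqF_size _ _)
  rw [List.length_map, Finset.length_toList] at h
  have h2 : (univ.filter (fun a : Fin (2 ^ κ) => a.val % 2 = 1)).card ≤ 2 ^ κ := by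
    refine (Finset.card_filter_le _ _).trans ?_
    rw [Finset.card_univ, Fintype.card_fin]
  have h3 := Nat.mul_le_mul_right (κ * 4 + 1 + 1) h2
  calc (parF (n := n) E v).size ≤ _ := h
    _ ≤ 2 ^ κ * (κ * 4 + 1 + 1) + 1 := by omega
    _ = _ := by ring

/-- the values of the system -/
def sysV (E : Fin (2 ^ κ) ≃ (Fin κ → Bool)) (snk : X → V)
    (I : G.Tables (2 ^ κ)) : (V × Fin κ) ⊕ Unit → Bool
  | .inl z => E (G.val I z.1) z.2
  | .inr _ => par G snk I

lemma parF_eval (x : Fin n → Bool) (snk : X → V) (I : G.Tables (2 ^ κ)) (v : V) :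
    (parF (n := n) E v).eval x (sysV E snk I) = decide ((G.val I v).val % 2 = 1) := by
  classical
  unfold parF
  rw [Fm.big_or, decide_eq_decide]
  constructor
  · rintro ⟨φ, hφ, h1⟩
    rw [List.mem_map] at hφ
    obtain ⟨a, ha, rfl⟩ := hφ
    rw [Finset.mem_toList, mem_filter] at ha
    rw [eqF_eval x _ v a (G.val I v) (fun b => rfl), decide_eq_true_eq] at h1
    rw [h1]
    exact ha.2
  · intro h
    refine ⟨_, List.mem_map.2 ⟨G.val I v, ?_, rfl⟩, ?_⟩
    · rw [Finset.mem_toList, mem_filter]
      exact ⟨mem_univ _, h⟩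
    · rw [eqF_eval x _ v _ (G.val I v) (fun b => rfl), decide_eq_true_eq]

lemma xor_list (x : Fin n → Bool) (snk : X → V) (I : G.Tables (2 ^ κ)) (ss : List X) :
    (Fm.big xor false (ss.map (fun s => parF (n := n) E (snk s)))).eval x (sysV E snk I) =
      decide ((ss.map (fun s => (G.val I (snk s)).val)).sum % 2 = 1) := by
  induction ss with
  | nil => simp [Fm.big, Fm.eval]
  | cons s ss ih =>
    show xor ((parF (n := n) E (snk s)).eval x (sysV E snk I)) _ = _
    rw [parF_eval]
    have h1 : (Fm.big xor false (ss.map (fun s => parF (n := n) E (snk s)))).eval x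
        (sysV E snk I) = decide ((ss.map (fun s => (G.val I (snk s)).val)).sum % 2 = 1) := ih
    rw [h1, xor_par, List.map_cons, List.sum_cons]

lemma sysF_eval (x : Fin n → Bool) (snk : X → V) (b : (V × Fin κ) ⊕ Unit) :
    sysV E snk (letters E ι x) b = (sysF E ι snk b).eval x (sysV E snk (letters E ι x)) := by
  classical
  obtain ⟨I, hI⟩ : ∃ I, I = letters E ι x := ⟨_, rfl⟩
  cases b with
  | inl z =>
    obtain ⟨v, b⟩ := z
    rw [← hI]
    show E (G.val I v) b = (nodF E ι v b).eval x (sysV E snk I)
    unfold nodF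
    rw [Fm.big_or]
    have harg : ∀ α : G.Args (2 ^ κ) v, (argF (n := n) E v α).eval x (sysV E snk I) =
        decide (G.args I v = α) := by
      intro α
      unfold argF
      rw [Fm.big_and, decide_eq_decide]
      constructor
      · intro h
        funext w
        have h1 := h _ (List.mem_map.2 ⟨w, by simp, rfl⟩)
        rw [eqF_eval x _ w.1 _ (G.val I w.1) (fun b => rfl), decide_eq_true_eq] at h1
        exact h1
      · rintro rfl φ hφ
        rw [List.mem_map] at hφ
        obtain ⟨w, _, rfl⟩ := hφ
        rw [eqF_eval x _ w.1 _ (G.val I w.1) (fun b => rfl), decide_eq_true_eq]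
        rfl
    have hval : E (G.val I v) b = x (ι (⟨v, G.args I v⟩, b)) := by
      rw [Dag.val_eq, hI]
      unfold letters
      rw [Equiv.apply_symm_apply]
    rw [Bool.eq_iff_iff, decide_eq_true_eq]
    constructor
    · intro h
      refine ⟨_, List.mem_map.2 ⟨G.args I v, by simp, rfl⟩, ?_⟩
      show ((argF (n := n) E v (G.args I v)).eval x (sysV E snk I) &&
        x (ι (⟨v, G.args I v⟩, b))) = true
      rw [harg, ← hval, h]
      simp
    · rintro ⟨φ, hφ, h1⟩
      rw [List.mem_map] at hφ
      obtain ⟨α, _, rfl⟩ := hφ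
      have h2 : ((argF (n := n) E v α).eval x (sysV E snk I) && x (ι (⟨v, α⟩, b))) = true := h1
      rw [harg, Bool.and_eq_true, decide_eq_true_eq] at h2
      rw [hval, h2.1]
      exact h2.2
  | inr _ =>
    rw [← hI]
    show par G snk I = (Fm.big xor false ((univ : Finset X).toList.map
      (fun s => parF E (snk s)))).eval x (sysV E snk I)
    rw [xor_list, Finset.sum_map_toList]
    rfl

/-- **The circuit.** -/
theorem exists_circ (hG : ∀ v, (G.pred v).card ≤ 2) (snk : X → V) :
    ∃ C : Circuit n, C.size ≤ Fintype.card V * κ * (2 ^ κ * 2 ^ κ * (8 * κ + 8) + 1) +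
        (Fintype.card X * (2 ^ κ * (4 * κ + 2) + 2) + 1) ∧
      ∀ x, C.Outputs x (par G snk (letters E ι x)) := by
  classical
  obtain ⟨C, h1, h2⟩ := circ_of_system (sysF E ι snk) (sysL G) (sysF_above snk) (.inr ())
    (s := univ.sup (fun b => (sysF E ι snk b).size)) (fun b =>
      Finset.le_sup (f := fun b => (sysF E ι snk b).size) (mem_univ b))
  refine ⟨C, ?_, ?_⟩
  · rw [h1, Fintype.sum_sum_type]
    apply Nat.add_le_add
    · calc ∑ z : V × Fin κ, (sysF E ι snk (.inl z)).size ≤
            ∑ _z : V × Fin κ, (2 ^ κ * 2 ^ κ * (8 * κ + 8) + 1) :=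
            Finset.sum_le_sum fun z _ => nodF_size hG z.1 z.2
        _ = _ := by
          rw [Finset.sum_const, Finset.card_univ, Fintype.card_prod, Fintype.card_fin,
            smul_eq_mul]
    · rw [Fintype.sum_unique]
      have h := Fm.big_size (h := xor) (z := false)
        ((univ : Finset X).toList.map (fun s => parF (n := n) E (snk s)))
        (m := 2 ^ κ * (4 * κ + 2) + 1) (by
          intro φ hφ
          rw [List.mem_map] at hφ
          obtain ⟨s, _, rfl⟩ := hφ
          exact parF_size _)
      rw [List.length_map, Finset.length_toList, Finset.card_univ] at h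
      exact h
  · intro x
    exact h2 x _ (sysF_eval x snk)

end circ

/-- **The program that reads few bits.** -/
theorem few_k {V : Type} [Fintype V] (G : Dag V) (k : ℕ) [NeZero k] :
    ∃ l : List (Ins (G.Entry k) (V → Fin k) k), l.length = Fintype.card V ∧
      ∀ I, runL I l (fun _ => 0) = G.val I := by
  classical
  obtain ⟨vs, hnd, hmem, hsort⟩ := exists_sorted (univ : Finset V) G.rank
  refine ⟨vs.map (fun v => ⟨fun m => ⟨v, fun w => m w.1⟩, fun m c => Function.update m v c⟩),
    ?_, ?_⟩
  · rw [List.length_map, ← Finset.card_univ, ← List.toFinset_card_of_nodup hnd]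
    congr 1
    ext v
    rw [List.mem_toFinset, hmem]
  · intro I
    have key : ∀ (l2 l1 : List V) (m : V → Fin k), vs = l1 ++ l2 →
        (∀ v ∈ l1, m v = G.val I v) → ∀ v, runL I (l2.map (fun v =>
          (⟨fun m => ⟨v, fun w => m w.1⟩, fun m c => Function.update m v c⟩ :
            Ins (G.Entry k) (V → Fin k) k))) m v = G.val I v := by
      intro l2
      induction l2 with
      | nil =>
        intro l1 m hl hm v
        refine hm v ?_
        have h1 := (hmem v).2 (mem_univ v)
        rwa [hl, List.append_nil] at h1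
      | cons v l2 ih =>
        intro l1 m hl hm
        rw [List.map_cons, runL_cons]
        simp only
        have hval : I ⟨v, fun w => m w.1⟩ = G.val I v := by
          rw [Dag.val_eq]
          congr 2
          funext w
          refine hm w.1 ?_
          have h1 := (hmem w.1).2 (mem_univ w.1)
          rw [hl, List.mem_append] at h1
          rcases h1 with h1 | h1
          · exact h1
          · exfalso
            have hlt := G.lt v w.1 w.2
            rw [hl, List.pairwise_append] at hsort
            rcases List.mem_cons.1 h1 with h2 | h2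
            · rw [h2] at hlt
              exact lt_irrefl _ hlt
            · have := (List.pairwise_cons.1 hsort.2.1).1 w.1 h2
              omega
        refine ih (l1 ++ [v]) _ (by rw [hl]; simp) ?_
        intro v' hv'
        rw [List.mem_append, List.mem_singleton] at hv'
        by_cases h : v' = v
        · subst h
          rw [Function.update_self, hval]
        · rw [Function.update_of_ne h]
          exact hm v' (hv'.resolve_right h)
    funext v
    exact key vs [] _ rfl (by simp) v

end Pool.Agent.W988.PF
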