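import Pool.Agent.W988.PF.Luck
import Pool.Agent.W988.PF.Walk

/-! The bottleneck and the counting. -/

set_option autoImplicit false

namespace Pool.Agent.W988.PF

open Finset
open Pool.Agent.W988.SR

/-- Every pebbling of the sinks that starts with at most `r` pebbles has at some time at least `w`
pebbles. -/
def Robust {V X : Type} (G : Dag V) (snk : X → V) (r w : ℕ) : Prop :=
  ∀ c : ℕ → Finset V, Peb G.pred c → (c 0).card ≤ r → (∀ x, ∃ τ, snk x ∈ c τ) →
    ∃ τ, w ≤ (c τ).card

section cnt

variable {V Q O : Type} [Fintype V] {G : Dag V} {k : ℕ} (P : Program (G.Entry k) k Q O)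

open Classical in
/-- the live nodes -/
noncomputable def Live (F : Finset V) (I : G.Tables k) (s : ℕ) : Finset V :=
  univ.filter (fun u => IsLive P F I s u)

open Classical in
/-- the node read -/
noncomputable def Rd (I : G.Tables k) (s : ℕ) : Finset V := univ.filter (fun u => At P I s u)

variable {P} {F : Finset V}

lemma mem_live {I : G.Tables k} {s : ℕ} {u : V} : u ∈ Live P F I s ↔ IsLive P F I s u := by
  classical
  unfold Live
  simp

lemma mem_rd {I : G.Tables k} {s : ℕ} {u : V} : u ∈ Rd P I s ↔ At P I s u := by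
  classical
  unfold Rd
  simp

lemma card_rd (I : G.Tables k) (s : ℕ) : (Rd P I s).card ≤ 1 := by
  rw [Finset.card_le_one]
  intro a ha b hb
  rw [mem_rd] at ha hb
  exact ha.unique hb

omit [Fintype V] in
lemma isLive_of_not_at {I : G.Tables k} {s : ℕ} {u : V} (h : IsLive P F I (s + 1) u)
    (hn : ¬ At P I s u) : IsLive P F I s u := by
  obtain ⟨hF, j, hj, hno⟩ := h
  refine ⟨hF, j + 1, ?_, fun i hi => ?_⟩
  · have : s + 1 + j = s + (j + 1) := by ring
    rwa [this] at hj
  · rcases Nat.eq_zero_or_pos i with h0 | h0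
    · rw [h0]
      exact hn
    · have := hno (i - 1) (by omega)
      have h2 : s + 1 + (i - 1) = s + i := by omega
      rwa [h2] at this

open Classical in
/-- the edges that reveal the live nodes -/
noncomputable def DF (P : Program (G.Entry k) k Q O) (F : Finset V) (I : G.Tables k) (s : ℕ) :
    Finset (V × V) := univ.filter (fun z => DE P F I s z.1 z.2)

lemma mem_DF {I : G.Tables k} {s : ℕ} {z : V × V} : z ∈ DF P F I s ↔ DE P F I s z.1 z.2 := by
  classical
  unfold DF
  simp

lemma card_live {I : G.Tables k} {s : ℕ} : (Live P F I s).card = (DF P F I s).card := by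
  classical
  have h : Live P F I s = (DF P F I s).image Prod.fst := by
    ext u
    rw [mem_live, mem_image]
    constructor
    · intro hu
      obtain ⟨x, hx⟩ := exists_de hu
      exact ⟨(u, x), by rw [mem_DF]; exact hx, rfl⟩
    · rintro ⟨⟨u', x⟩, hz, rfl⟩
      rw [mem_DF] at hz
      exact hz.1
  rw [h]
  apply Finset.card_image_of_injOn
  rintro ⟨u, x⟩ hz ⟨u', x'⟩ hz' heq
  simp only at heq
  subst heq
  rw [mem_coe, mem_DF] at hz hz'
  have := de_unique hz hz'
  simp only at this
  rw [this]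

/-- The inputs with few dense nodes and all sinks read. -/
def Good {X : Type} (P : Program (G.Entry k) k Q O) (snk : X → V) (s δ : ℕ) :
    Set (G.Tables k) :=
  {I | (dn P s I).card ≤ δ ∧ ∀ x, ∃ j, At P I j (snk x)}

open Classical in
/-- the pebbling -/
noncomputable def conf (P : Program (G.Entry k) k Q O) (F : Finset V) (I : G.Tables k) :
    ℕ → Finset V
  | 0 => Live P F I 0 ∪ F
  | t + 1 => Live P F I (t + 1) ∪ F ∪ Rd P I t

open Classical in
lemma live_sub_conf (I : G.Tables k) (t : ℕ) : Live P F I t ∪ F ⊆ conf P F I t := by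
  classical
  cases t with
  | zero => exact Finset.Subset.refl _
  | succ t => exact Finset.subset_union_left

lemma conf_card (I : G.Tables k) (t : ℕ) :
    (conf P F I t).card ≤ (Live P F I t).card + F.card + 1 := by
  classical
  cases t with
  | zero =>
    have := Finset.card_union_le (Live P F I 0) F
    show (Live P F I 0 ∪ F).card ≤ _
    omega
  | succ t =>
    have h1 := Finset.card_union_le (Live P F I (t + 1)) F
    have h2 := Finset.card_union_le (Live P F I (t + 1) ∪ F) (Rd P I t)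
    have h3 := card_rd (P := P) I t
    show (Live P F I (t + 1) ∪ F ∪ Rd P I t).card ≤ _
    omega

lemma conf_peb (I : G.Tables k) : Peb G.pred (conf P F I) := by
  classical
  intro t v h1 h2 u hu
  have h3 : v ∉ Live P F I t ∪ F := fun h => h2 (live_sub_conf I t h)
  rw [mem_union, not_or] at h3
  have h4 : At P I t v := by
    have h1' : v ∈ Live P F I (t + 1) ∪ F ∪ Rd P I t := h1
    rw [mem_union, mem_union] at h1'
    rcases h1' with (h | h) | h
    · by_contra hcon
      exact h3.1 (mem_live.2 (isLive_of_not_at (mem_live.1 h) hcon))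
    · exact absurd h h3.2
    · exact mem_rd.1 h
  apply live_sub_conf I t
  rw [mem_union]
  by_cases huF : u ∈ F
  · exact Or.inr huF
  · left
    rw [mem_live]
    exact ⟨huF, 0, ⟨v, h3.2, hu, h4⟩, fun i hi => absurd hi (Nat.not_lt_zero _)⟩

lemma exists_time {X : Type} {snk : X → V} {s δ p : ℕ}
    (hrob : Robust G snk (p + δ) (p + δ + 1)) {I : G.Tables k}
    (hI : I ∈ Good P snk s δ) : ∃ t, p ≤ (DF P (dn P s I) I t).card := by
  classical
  obtain ⟨h1, h3⟩ := hI
  by_cases hp : p ≤ (DF P (dn P s I) I 0).card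
  · exact ⟨0, hp⟩
  obtain ⟨τ, hτ⟩ := hrob (conf P (dn P s I) I) (conf_peb I) (by
      have h4 := Finset.card_union_le (Live P (dn P s I) I 0) (dn P s I)
      have h5 := card_live (P := P) (F := dn P s I) (I := I) (s := 0)
      show (Live P (dn P s I) I 0 ∪ dn P s I).card ≤ _
      omega) (by
      intro x
      obtain ⟨j, hj⟩ := h3 x
      refine ⟨j + 1, ?_⟩
      show snk x ∈ Live P (dn P s I) I (j + 1) ∪ dn P s I ∪ Rd P I j
      rw [mem_union, mem_rd]
      exact Or.inr hj)
  refine ⟨τ, ?_⟩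
  have h4 := conf_card (P := P) (F := dn P s I) I τ
  rw [card_live] at h4
  omega

/-! ### labels -/

open Classical in
/-- the numbers of the revealing entries -/
noncomputable def io (P : Program (G.Entry k) k Q O) (F : Finset V) (I : G.Tables k) (s : ℕ)
    (x : V) : ℕ :=
  if ∃ u, DE P F I s u x then Nat.card (AS P F I s x) else 0

open Classical in
/-- the heads of the edges into `x` -/
noncomputable def UD (D : Finset (V × V)) (x : V) : Finset V :=
  univ.filter (fun u => (u, x) ∈ D)

lemma mem_UD {D : Finset (V × V)} {x u : V} : u ∈ UD D x ↔ (u, x) ∈ D := by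
  classical
  unfold UD
  simp

lemma card_DF_eq_sum (D : Finset (V × V)) : ∑ x, (UD D x).card = D.card := by
  classical
  rw [Finset.card_eq_sum_card_fiberwise (f := Prod.snd) (t := univ) (fun _ _ => mem_univ _)]
  refine Finset.sum_congr rfl fun x _ => ?_
  refine Finset.card_bij (fun u _ => (u, x)) ?_ ?_ ?_
  · intro u hu
    rw [mem_UD] at hu
    rw [mem_filter]
    exact ⟨hu, rfl⟩
  · intro u _ u' _ h
    exact congrArg Prod.fst h
  · rintro ⟨u, y⟩ hz
    rw [mem_filter] at hz
    obtain ⟨h1, h2⟩ := hz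
    simp only at h2
    subst h2
    exact ⟨u, by rw [mem_UD]; exact h1, rfl⟩

lemma io_lt {s₀ : ℕ} (hs : 1 ≤ s₀) {I : G.Tables k} (t : ℕ) (x : V) :
    io P (dn P s₀ I) I t x < s₀ ^ (UD (DF P (dn P s₀ I) I t) x).card := by
  classical
  by_cases hex : ∃ u, DE P (dn P s₀ I) I t u x
  · have hio : io P (dn P s₀ I) I t x = Nat.card (AS P (dn P s₀ I) I t x) := by
      unfold io
      rw [if_pos hex]
    obtain ⟨u, hu⟩ := hex
    have hfa : At P I (t + fa P I t x) x := at_fa hu.2.2.2
    have hnot : G.args I x ∉ AS P (dn P s₀ I) I t x := by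
      rintro ⟨⟨i, hi, hα⟩, _⟩
      have := fa_le (P := P) (I := I) (s := t) (j := i) (u := x) hα
      omega
    have hsub : insert (G.args I x) (AS P (dn P s₀ I) I t x) ⊆
        {α : G.Args k x | P.Reads I ⟨x, α⟩} := by
      intro α hα
      rcases Set.mem_insert_iff.1 hα with rfl | hα
      · exact ⟨_, hfa⟩
      · obtain ⟨⟨i, _, hα1⟩, _⟩ := hα
        exact ⟨_, hα1⟩
    have h1 := Set.ncard_le_ncard hsub (Set.toFinite _)
    rw [Set.ncard_insert_of_notMem hnot (Set.toFinite _)] at h1
    have h2 : cnt P I x ≤ s₀ := by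
      have := hu.2.1
      rw [mem_dn] at this
      omega
    have h3 : {α : G.Args k x | P.Reads I ⟨x, α⟩}.ncard = cnt P I x := by
      rw [← Nat.card_coe_set_eq]
      rfl
    have h4 : 1 ≤ (UD (DF P (dn P s₀ I) I t) x).card := by
      rw [Nat.one_le_iff_ne_zero, Finset.card_ne_zero]
      exact ⟨u, by rw [mem_UD, mem_DF]; exact hu⟩
    rw [hio, Nat.card_coe_set_eq]
    calc (AS P (dn P s₀ I) I t x).ncard < s₀ := by omega
      _ = s₀ ^ 1 := (pow_one _).symm
      _ ≤ _ := Nat.pow_le_pow_right hs h4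
  · have hio : io P (dn P s₀ I) I t x = 0 := by
      unfold io
      rw [if_neg hex]
    rw [hio]
    exact pow_pos hs _

/-- a bottleneck -/
noncomputable def tm (P : Program (G.Entry k) k Q O) (s p : ℕ) (I : G.Tables k) : ℕ := by
  classical exact if h : ∃ t, p ≤ (DF P (dn P s I) I t).card then h.choose else 0

lemma tm_spec {X : Type} {snk : X → V} {s δ p : ℕ}
    (hrob : Robust G snk (p + δ) (p + δ + 1)) {I : G.Tables k}
    (hI : I ∈ Good P snk s δ) : p ≤ (DF P (dn P s I) I (tm P s p I)).card := by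
  classical
  have h := exists_time hrob hI
  unfold tm
  rw [dif_pos h]
  exact h.choose_spec

/-- a list of the dense nodes and their values -/
noncomputable def lab (P : Program (G.Entry k) k Q O) (s δ : ℕ) (I : G.Tables k) :
    Fin δ → Option (V × Fin k) := fun a =>
  if h : a.val < (dn P s I).card then
    some ((((dn P s I).equivFin).symm ⟨a.val, h⟩).1,
      G.val I (((dn P s I).equivFin).symm ⟨a.val, h⟩).1)
  else none

lemma lab_spec {s δ : ℕ} {I : G.Tables k} (h : (dn P s I).card ≤ δ) (v : V) (c : Fin k) :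
    (∃ a, lab P s δ I a = some (v, c)) ↔ v ∈ dn P s I ∧ c = G.val I v := by
  constructor
  · rintro ⟨a, ha⟩
    unfold lab at ha
    split_ifs at ha with h1
    have h2 := Option.some.inj ha
    rw [Prod.mk.injEq] at h2
    obtain ⟨h3, h4⟩ := h2
    subst h3
    exact ⟨(((dn P s I).equivFin).symm ⟨a.val, h1⟩).2, h4.symm⟩
  · rintro ⟨hv, rfl⟩
    refine ⟨⟨((dn P s I).equivFin ⟨v, hv⟩).val,
      lt_of_lt_of_le ((dn P s I).equivFin ⟨v, hv⟩).2 h⟩, ?_⟩
    unfold lab
    rw [dif_pos ((dn P s I).equivFin ⟨v, hv⟩).2]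
    simp

lemma lab_inj {s δ : ℕ} {I I' : G.Tables k} (h : (dn P s I).card ≤ δ)
    (h' : (dn P s I').card ≤ δ) (heq : lab P s δ I = lab P s δ I') :
    dn P s I = dn P s I' ∧ ∀ v ∈ dn P s I, G.val I v = G.val I' v := by
  constructor
  · ext v
    constructor
    · intro hv
      have h1 := (lab_spec h v _).2 ⟨hv, rfl⟩
      rw [heq] at h1
      exact ((lab_spec h' v _).1 h1).1
    · intro hv
      have h1 := (lab_spec h' v _).2 ⟨hv, rfl⟩
      rw [← heq] at h1
      exact ((lab_spec h v _).1 h1).1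
  · intro v hv
    have h1 := (lab_spec h v _).2 ⟨hv, rfl⟩
    rw [heq] at h1
    exact ((lab_spec h' v _).1 h1).2

/-- The inputs with a given label. -/
def Cls {X : Type} (P : Program (G.Entry k) k Q O) (snk : X → V) (s δ p : ℕ) (q : Q)
    (l : Fin δ → Option (V × Fin k)) (D : Finset (V × V)) (i : V → ℕ) : Set (G.Tables k) :=
  {I | I ∈ Good P snk s δ ∧ P.state I (tm P s p I) = q ∧ lab P s δ I = l ∧
    DF P (dn P s I) I (tm P s p I) = D ∧ io P (dn P s I) I (tm P s p I) = i}

lemma card_cls {X : Type} (snk : X → V) (s δ p : ℕ) (q : Q)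
    (l : Fin δ → Option (V × Fin k)) (D : Finset (V × V)) (i : V → ℕ) :
    Nat.card (Cls P snk s δ p q l D i) * k ^ D.card ≤ Nat.card (G.Tables k) := by
  classical
  rcases isEmpty_or_nonempty (Cls P snk s δ p q l D i) with hemp | ⟨⟨I₀, hI₀⟩⟩
  · rw [Nat.card_of_isEmpty, zero_mul]
    exact Nat.zero_le _
  have hlive : ∀ I ∈ Cls P snk s δ p q l D i, ∀ u,
      IsLive P (dn P s I) I (tm P s p I) u ↔ u ∈ D.image Prod.fst := by
    intro I hI u
    rw [mem_image, ← hI.2.2.2.1]
    constructor
    · intro hu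
      obtain ⟨x, hx⟩ := exists_de hu
      exact ⟨(u, x), by rw [mem_DF]; exact hx, rfl⟩
    · rintro ⟨⟨u', x⟩, hz, rfl⟩
      rw [mem_DF] at hz
      exact hz.1
  have hcard : (D.image Prod.fst).card = D.card := by
    have h1 : Live P (dn P s I₀) I₀ (tm P s p I₀) = D.image Prod.fst := by
      ext u
      rw [mem_live]
      exact hlive I₀ hI₀ u
    rw [← h1, card_live, hI₀.2.2.2.1]
  have hfun : Nat.card ({u // u ∈ D.image Prod.fst} → Fin k) = k ^ D.card := by
    rw [Nat.card_eq_fintype_card, Fintype.card_fun, Fintype.card_fin, Fintype.card_coe, hcard]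
  rw [← hfun, ← Nat.card_prod]
  refine Nat.card_le_card_of_injective
    (fun z : (Cls P snk s δ p q l D i) × ({u // u ∈ D.image Prod.fst} → Fin k) =>
      ovr (IsLive P (dn P s z.1.1) z.1.1 (tm P s p z.1.1)) z.1.1
        (fun u => if h : u ∈ D.image Prod.fst then z.2 ⟨u, h⟩ else G.val z.1.1 u)) ?_
  rintro ⟨⟨I, hI⟩, c⟩ ⟨⟨I', hI'⟩, c'⟩ heq
  simp only at heq
  obtain ⟨hF, hV⟩ := lab_inj hI.1.1 hI'.1.1 (by rw [hI.2.2.1, hI'.2.2.1])
  have hIF := hI.2.2.2
  have hIF' := hI'.2.2.2
  have hl1 := hlive I hI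
  have hl2 := hlive I' hI'
  rw [← hF] at heq hIF' hl2
  have hD : ∀ u x, DE P (dn P s I) I (tm P s p I) u x ↔
      DE P (dn P s I) I' (tm P s p I') u x := by
    intro u x
    have h1 : (u, x) ∈ DF P (dn P s I) I (tm P s p I) ↔
        (u, x) ∈ DF P (dn P s I) I' (tm P s p I') := by
      rw [hIF.1, hIF'.1]
    rwa [mem_DF, mem_DF] at h1
  have hι : ∀ x, (∃ u, DE P (dn P s I) I (tm P s p I) u x) →
      Nat.card (AS P (dn P s I) I (tm P s p I) x) =
        Nat.card (AS P (dn P s I) I' (tm P s p I') x) := by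
    intro x hx
    have hx' : ∃ u, DE P (dn P s I) I' (tm P s p I') u x := by
      obtain ⟨u, hu⟩ := hx
      exact ⟨u, (hD u x).1 hu⟩
    have h1 : io P (dn P s I) I (tm P s p I) x = io P (dn P s I) I' (tm P s p I') x := by
      rw [hIF.2, hIF'.2]
    unfold io at h1
    rwa [if_pos hx, if_pos hx'] at h1
  obtain ⟨h1, h2⟩ := decode (by rw [hI.2.1, hI'.2.1]) hV hD hι _ _ heq
  subst h1
  have h3 : c = c' := by
    funext u
    have := h2 u.1 ((hl1 u.1).2 u.2)
    rwa [dif_pos u.2, dif_pos u.2] at this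
  subst h3
  rfl

end cnt

end Pool.Agent.W988.PF
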