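import Pool.Agent.W988.PF.LowA
import Pool.Agent.W988.PF.Circ

/-! The lower bound for Boolean programs in terms of parameters. -/

set_option autoImplicit false

namespace Pool.Agent.W988.PF

open Finset
open Pool.Agent.W988.SR

lemma robust_gr (j r w : ℕ) (hr : r ≤ 3 * 2 ^ j) (hw : w ≤ 2 ^ j) :
    Robust (dg j) (gr j).snk r w := by
  classical
  intro c hc h0 hall
  choose τ hτ using hall
  obtain ⟨s', t', h1, h2, h3, h4, _⟩ := gr_claim j c hc 0 (univ.sup τ) (Nat.zero_le _)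
    (h0.trans hr) (by
      have h5 : T c 0 (univ.sup τ) (gr j).snk = univ := by
        ext x
        rw [mem_T]
        simp only [mem_univ, iff_true]
        exact ⟨τ x, Nat.zero_le _, Finset.le_sup (mem_univ x), hτ x⟩
      rw [h5, Finset.card_univ]
      have h6 : Fintype.card (Fin (j + 7) → Bool) = 2 ^ (j + 7) := by simp
      rw [h6, pow_add]
      have : 0 < 2 ^ j := by positivity
      omega)
  exact ⟨s', hw.trans (h4 s' le_rfl h2)⟩

lemma card_entry (j k : ℕ) (hk : 0 < k) :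
    Fintype.card ((dg j).Entry k) ≤ Fintype.card (gr j).V * k ^ 2 := by
  classical
  rw [Fintype.card_sigma]
  calc ∑ v, Fintype.card ((dg j).Args k v) ≤ ∑ _v : (gr j).V, k ^ 2 := by
        refine Finset.sum_le_sum fun v _ => ?_
        rw [Fintype.card_fun, Fintype.card_fin, Fintype.card_coe]
        exact Nat.pow_le_pow_right hk ((gr j).P_card v)
    _ = _ := by rw [Finset.sum_const, Finset.card_univ, smul_eq_mul]

lemma card_EF_le (j : ℕ) : (EF (dg j)).card ≤ 2 * Fintype.card (gr j).V := by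
  classical
  rw [← card_DF_eq_sum]
  calc ∑ x, (UD (EF (dg j)) x).card ≤ ∑ _x : (gr j).V, 2 := by
        refine Finset.sum_le_sum fun x _ => ?_
        have h : UD (EF (dg j)) x = (gr j).P x := by
          ext u
          rw [mem_UD, mem_EF]
          rfl
        rw [h]
        exact (gr j).P_card x
    _ = _ := by
      rw [Finset.sum_const, Finset.card_univ, smul_eq_mul, mul_comm]

/-- the Boolean function -/
noncomputable def ff {j κ n : ℕ} (E : Fin (2 ^ κ) ≃ (Fin κ → Bool))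
    (ι : (dg j).Entry (2 ^ κ) × Fin κ → Fin n) (x : Fin n → Bool) : Bool :=
  par (dg j) (gr j).snk (letters E ι x)

/-- **The lower bound for Boolean programs.** -/
theorem lowB {j κ n : ℕ} (hκ : 0 < κ) (E : Fin (2 ^ κ) ≃ (Fin κ → Bool))
    {ι : (dg j).Entry (2 ^ κ) × Fin κ → Fin n} (hι : Function.Injective ι) {Q : Type} [Finite Q]
    (P : BP n Q) {R s δ p : ℕ} {ε : ℝ} (hs : 1 ≤ s) (hp : p + δ + 1 ≤ 2 ^ j) (hR : R + 1 < (δ + 1) * (s + 1))
    (hA : (1 / 2 + ε) * 2 ^ n ≤ Nat.card {x : Fin n → Bool // P.Outputs x (ff E ι x) ∧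
      P.reads x ≤ R}) :
    ε ≤ Nat.card Q * (Fintype.card (gr j).V * 2 ^ κ + 1) ^ δ *
        ((1 / 2) ^ p * Real.exp (2 * (s / 2 ^ κ) * (2 * Fintype.card (gr j).V))) := by
  classical
  obtain ⟨A, hAd⟩ : ∃ A : Set (Fin n → Bool), A = {x | P.Outputs x (ff E ι x) ∧
    P.reads x ≤ R} := ⟨_, rfl⟩
  obtain ⟨y, hy⟩ := exists_pad (E := E) hι A
  obtain ⟨e₀, _⟩ : ∃ e : (dg j).Entry (2 ^ κ), True :=
    ⟨⟨(gr j).src (fun _ => false), fun _ => ⟨0, by positivity⟩⟩, trivial⟩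
  have hk : 0 < 2 ^ κ := by positivity
  have hk2 : Even (2 ^ κ) := (Nat.even_pow.2 ⟨even_two, hκ.ne'⟩)
  have hmain := lowA (P := fromBP E ι P e₀ y) hk hk2 (gr j).snk_inj
    (fun x b => (gr j).last x b) (δ := δ) (p := p) hs
    (robust_gr j _ _ (by omega) hp)
  have hT : (0 : ℝ) < Nat.card ((dg j).Tables (2 ^ κ)) := by
    have : 0 < Nat.card ((dg j).Tables (2 ^ κ)) := by
      rw [Nat.card_pos_iff]
      exact ⟨⟨fun _ => ⟨0, hk⟩⟩, inferInstance⟩
    exact_mod_cast this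
  obtain ⟨Tt, hTt⟩ : ∃ Tt : ℝ, Tt = Nat.card ((dg j).Tables (2 ^ κ)) := ⟨_, rfl⟩
  rw [← hTt] at hmain hT
  have h1 : Nat.card {I : (dg j).Tables (2 ^ κ) // inp E ι y I ∈ A} ≤
      Nat.card {I : (dg j).Tables (2 ^ κ) // (fromBP E ι P e₀ y).Outputs I
        (par (dg j) (gr j).snk I) ∧
      Nat.card {e : (dg j).Entry (2 ^ κ) // (fromBP E ι P e₀ y).Reads I e} <
        (δ + 1) * (s + 1)} := by
    refine Nat.card_le_card_of_injective (fun I => ⟨I.1, ?_⟩) ?_
    · obtain ⟨I, hI⟩ := I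
      rw [hAd] at hI
      obtain ⟨h2, h3⟩ := hI
      constructor
      · have h4 := fromBP_outputs P e₀ y I _ h2
        unfold ff at h4
        rw [letters_inp hι] at h4
        exact h4
      · have h4 := fromBP_reads (E := E) (ι := ι) P e₀ y I
        have h5 : P.reads (inp E ι y I) ≤ R := h3
        exact lt_of_le_of_lt (h4.trans (Nat.add_le_add_right h5 1)) hR
    · rintro ⟨I, hI⟩ ⟨I', hI'⟩ h
      have h2 := congrArg Subtype.val h
      exact Subtype.ext h2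
  have h2 : (1 / 2 + ε) * Tt ≤
      Nat.card {I : (dg j).Tables (2 ^ κ) // inp E ι y I ∈ A} := by
    have h3 : (Nat.card A : ℝ) * Tt ≤ 2 ^ n *
        Nat.card {I : (dg j).Tables (2 ^ κ) // inp E ι y I ∈ A} := by
      rw [hTt]
      exact_mod_cast hy
    have h4 : (1 / 2 + ε) * 2 ^ n ≤ (Nat.card A : ℝ) := by
      rw [hAd]
      exact hA
    have h5 : (0 : ℝ) < 2 ^ n := by positivity
    have h6 : 2 ^ n * ((1 / 2 + ε) * Tt) ≤ 2 ^ n *
        (Nat.card {I : (dg j).Tables (2 ^ κ) // inp E ι y I ∈ A} : ℝ) := by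
      calc 2 ^ n * ((1 / 2 + ε) * Tt) = ((1 / 2 + ε) * 2 ^ n) * Tt := by ring
        _ ≤ Nat.card A * Tt := mul_le_mul_of_nonneg_right h4 hT.le
        _ ≤ _ := h3
    exact le_of_mul_le_mul_left h6 h5
  have h3 : (1 / 2 + ε) * Tt ≤ (1 / 2 + Nat.card Q * (Fintype.card (gr j).V * ((2 ^ κ : ℕ) : ℝ) + 1) ^ δ *
          ((1 / 2) ^ p * Real.exp (2 * (s / ((2 ^ κ : ℕ) : ℝ)) * (EF (dg j)).card))) * Tt :=
    h2.trans (le_trans (by exact_mod_cast h1) hmain)
  have h4 := le_of_mul_le_mul_right h3 hT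
  have h5 : ((EF (dg j)).card : ℝ) ≤ 2 * Fintype.card (gr j).V := by
    exact_mod_cast card_EF_le j
  push_cast at h4
  have hs0 : (0 : ℝ) ≤ s := by positivity
  have h7 : Real.exp (2 * ((s : ℝ) / 2 ^ κ) * (EF (dg j)).card) ≤
      Real.exp (2 * ((s : ℝ) / 2 ^ κ) * (2 * Fintype.card (gr j).V)) := by
    apply Real.exp_le_exp.2
    gcongr
  have h8 : (Nat.card Q : ℝ) * (Fintype.card (gr j).V * 2 ^ κ + 1) ^ δ *
      ((1 / 2) ^ p * Real.exp (2 * (s / 2 ^ κ) * (EF (dg j)).card)) ≤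
      Nat.card Q * (Fintype.card (gr j).V * 2 ^ κ + 1) ^ δ *
      ((1 / 2) ^ p * Real.exp (2 * (s / 2 ^ κ) * (2 * Fintype.card (gr j).V))) := by
    gcongr
  linarith

end Pool.Agent.W988.PF
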