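import Pool.Agent.W988.PF.Par

/-! The final bounds. -/

set_option autoImplicit false

namespace Pool.Agent.W988.PF

open Finset
open Pool.Agent.W988.SR

namespace Par

variable {n j a : ℕ}

/-- **The lower bound.** -/
theorem low (h : Par n j a) (E : Fin (2 ^ (8 * a)) ≃ (Fin (8 * a) → Bool))
    {ι : (dg j).Entry (2 ^ (8 * a)) × Fin (8 * a) → Fin n} (hι : Function.Injective ι)
    {Q : Type} [Finite Q] (P : BP n Q)
    (hA : (1 / 2 + (1 / 2 : ℝ) ^ (n / Nat.log 2 n ^ 20)) * 2 ^ n ≤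
      Nat.card {x : Fin n → Bool // P.Outputs x (ff E ι x) ∧
        P.reads x ≤ n / Nat.log 2 n ^ 15}) :
    2 ^ (n / Nat.log 2 n ^ 20) ≤ Nat.card Q := by
  have hb := h.big
  have hj := h.j_lo
  have hlo := h.lo
  have hlin := h.lin
  have hm20 := h.n20
  obtain ⟨m, hm⟩ : ∃ m, m = n / Nat.log 2 n ^ 20 := ⟨_, rfl⟩
  rw [← hm] at hm20 hA ⊢
  have hp1 : 2 ^ j = 2 * 2 ^ (j - 1) := by
    rw [← pow_succ']
    congr 1
    omega
  have hδ1 : 2 ^ (j - 5 - a) + 1 ≤ 2 ^ (j - 1) := by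
    have h1 : 2 ^ (j - 5 - a) * 2 ≤ 2 ^ (j - 1) := by
      rw [← pow_succ]
      exact Nat.pow_le_pow_right (by norm_num) (by omega)
    have h2 : 1 ≤ 2 ^ (j - 5 - a) := Nat.one_le_two_pow
    omega
  have key := lowB (by omega : 0 < 8 * a) E hι P (s := 2 ^ (6 * a - 14))
    (δ := 2 ^ (j - 5 - a)) (p := 2 ^ (j - 1)) Nat.one_le_two_pow (by omega) (by
      have h1 := h.n15
      have h2 : 2 ^ (j + 24 + 4 * a) + 1 ≤ 2 ^ (j - 5 - a) * 2 ^ (6 * a - 14) := by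
        rw [← pow_add]
        calc 2 ^ (j + 24 + 4 * a) + 1 ≤ 2 ^ (j + 24 + 4 * a) + 2 ^ (j + 24 + 4 * a) :=
              Nat.add_le_add_left Nat.one_le_two_pow _
          _ = 2 ^ (j + 24 + 4 * a + 1) := by ring
          _ ≤ _ := Nat.pow_le_pow_right (by norm_num) (by omega)
      have h3 : 2 ^ (j - 5 - a) * 2 ^ (6 * a - 14) <
          (2 ^ (j - 5 - a) + 1) * (2 ^ (6 * a - 14) + 1) := by
        have h4 : 0 < 2 ^ (j - 5 - a) := by positivity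
        have h5 : 0 < 2 ^ (6 * a - 14) := by positivity
        nlinarith
      omega) hA
  have hV := h.cardV
  obtain ⟨V, hVd⟩ : ∃ V, V = Fintype.card (gr j).V := ⟨_, rfl⟩
  rw [← hVd] at hV key
  -- the exponential
  have t2 : Real.exp (2 * (((2 ^ (6 * a - 14) : ℕ) : ℝ) / 2 ^ (8 * a)) * (2 * V)) ≤
      2 ^ (2 ^ (j - 4)) := by
    have h1 : 2 * (((2 ^ (6 * a - 14) : ℕ) : ℝ) / 2 ^ (8 * a)) * (2 * V) ≤
        ((2 ^ (j - 5) : ℕ) : ℝ) := by
      rw [mul_assoc, div_mul_eq_mul_div, ← mul_div_assoc, div_le_iff₀ (by positivity)]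
      have h2 : 2 * (2 ^ (6 * a - 14) * (2 * V)) ≤ 2 ^ (j - 5) * 2 ^ (8 * a) := by
        calc 2 * (2 ^ (6 * a - 14) * (2 * V)) ≤
              2 * (2 ^ (6 * a - 14) * (2 * 2 ^ (7 + j + 2 * a))) := by
              gcongr
          _ = 2 ^ (1 + (6 * a - 14 + (1 + (7 + j + 2 * a)))) := by
              rw [pow_add 2 1, pow_add 2 (6 * a - 14), pow_add 2 1]
              norm_num
          _ ≤ 2 ^ (j - 5 + 8 * a) := Nat.pow_le_pow_right (by norm_num) (by omega)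
          _ = _ := pow_add _ _ _
      exact_mod_cast h2
    calc Real.exp (2 * (((2 ^ (6 * a - 14) : ℕ) : ℝ) / 2 ^ (8 * a)) * (2 * V)) ≤
          Real.exp (((2 ^ (j - 5) : ℕ) : ℝ)) := Real.exp_le_exp.2 h1
      _ = (Real.exp 1) ^ (2 ^ (j - 5)) := by
          rw [← Real.exp_nat_mul, mul_one]
      _ ≤ 4 ^ (2 ^ (j - 5)) := by
          apply pow_le_pow_left₀ (Real.exp_pos _).le
          have := Real.exp_one_lt_d9
          linarith
      _ = 2 ^ (2 ^ (j - 4)) := by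
          rw [show (4 : ℝ) = 2 ^ 2 by norm_num, ← pow_mul]
          congr 1
          rw [← pow_succ']
          congr 1
          omega
  -- the number of labels
  have t3 : ((V : ℝ) * 2 ^ (8 * a) + 1) ^ (2 ^ (j - 5 - a)) ≤ 2 ^ (2 ^ (j - 4)) := by
    have h1 : V * 2 ^ (8 * a) + 1 ≤ 2 ^ (2 ^ (a + 1)) := by
      calc V * 2 ^ (8 * a) + 1 ≤ 2 ^ (7 + j + 2 * a) * 2 ^ (8 * a) +
            2 ^ (7 + j + 2 * a) * 2 ^ (8 * a) := by
            apply Nat.add_le_add (Nat.mul_le_mul_right _ hV)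
            exact Nat.mul_pos (by positivity) (by positivity)
        _ = 2 ^ (7 + j + 2 * a + 8 * a + 1) := by rw [← pow_add]; ring
        _ ≤ _ := by
            apply Nat.pow_le_pow_right (by norm_num)
            rw [pow_succ]
            omega
    have h2 : (V * 2 ^ (8 * a) + 1) ^ (2 ^ (j - 5 - a)) ≤ 2 ^ (2 ^ (j - 4)) := by
      calc (V * 2 ^ (8 * a) + 1) ^ (2 ^ (j - 5 - a)) ≤
            (2 ^ (2 ^ (a + 1))) ^ (2 ^ (j - 5 - a)) := Nat.pow_le_pow_left h1 _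
        _ = _ := by
            rw [← pow_mul, ← pow_add]
            congr 2
            omega
    exact_mod_cast h2
  -- together
  obtain ⟨q, hq⟩ : ∃ q, q = Nat.card Q := ⟨_, rfl⟩
  rw [← hq] at key ⊢
  have hqR : (0 : ℝ) ≤ q := Nat.cast_nonneg _
  have t4 : (1 / 2 : ℝ) ^ m ≤ q * 2 ^ (2 ^ (j - 4)) *
      ((1 / 2) ^ (2 ^ (j - 1)) * 2 ^ (2 ^ (j - 4))) := by
    refine key.trans ?_
    gcongr
  have t5 : (2 : ℝ) ^ (2 ^ (j - 1)) ≤ 2 ^ m * q * 2 ^ (2 ^ (j - 3)) := by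
    have h1 : (2 : ℝ) ^ (2 ^ (j - 1)) * (1 / 2) ^ (2 ^ (j - 1)) = 1 := by
      rw [← mul_pow]
      norm_num
    have h2 : (2 : ℝ) ^ (2 ^ (j - 4)) * 2 ^ (2 ^ (j - 4)) = 2 ^ (2 ^ (j - 3)) := by
      rw [← pow_add, ← two_mul, ← pow_succ']
      congr 2
      omega
    have h3 : (2 : ℝ) ^ m * (1 / 2) ^ m = 1 := by
      rw [← mul_pow]
      norm_num
    obtain ⟨A, hA1⟩ : ∃ A : ℝ, A = (2 : ℝ) ^ (2 ^ (j - 1)) := ⟨_, rfl⟩
    obtain ⟨B, hB1⟩ : ∃ B : ℝ, B = (1 / 2 : ℝ) ^ (2 ^ (j - 1)) := ⟨_, rfl⟩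
    obtain ⟨C, hC1⟩ : ∃ C : ℝ, C = (2 : ℝ) ^ (2 ^ (j - 4)) := ⟨_, rfl⟩
    obtain ⟨D, hD1⟩ : ∃ D : ℝ, D = (2 : ℝ) ^ m := ⟨_, rfl⟩
    obtain ⟨F, hF1⟩ : ∃ F : ℝ, F = (1 / 2 : ℝ) ^ m := ⟨_, rfl⟩
    have hA0 : 0 ≤ A := by rw [hA1]; positivity
    have hD0 : 0 ≤ D := by rw [hD1]; positivity
    rw [← h2]
    rw [← hA1, ← hB1] at h1
    rw [← hD1, ← hF1] at h3
    rw [← hF1, ← hC1, ← hB1] at t4
    rw [← hA1, ← hC1, ← hD1]
    calc A = A * (D * F) := by rw [h3, mul_one]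
      _ ≤ A * (D * (q * C * (B * C))) :=
          mul_le_mul_of_nonneg_left (mul_le_mul_of_nonneg_left t4 hD0) hA0
      _ = (A * B) * (D * q * (C * C)) := by ring
      _ = _ := by rw [h1, one_mul]
  have t6 : 2 ^ (2 ^ (j - 1)) ≤ 2 ^ m * q * 2 ^ (2 ^ (j - 3)) := by exact_mod_cast t5
  have hpos : 0 < 2 ^ (2 ^ (j - 3)) := by positivity
  have t7 : 2 ^ m ≤ 2 ^ (2 ^ (j - 3)) := Nat.pow_le_pow_right (by norm_num) hm20
  have t8 : 2 ^ (2 ^ (j - 3)) * (2 ^ (2 ^ (j - 3)) * 2 ^ (2 ^ (j - 3))) ≤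
      q * (2 ^ (2 ^ (j - 3)) * 2 ^ (2 ^ (j - 3))) := by
    calc 2 ^ (2 ^ (j - 3)) * (2 ^ (2 ^ (j - 3)) * 2 ^ (2 ^ (j - 3))) ≤ 2 ^ (2 ^ (j - 1)) := by
          rw [← pow_add, ← pow_add]
          apply Nat.pow_le_pow_right (by norm_num)
          have h1 : 2 ^ (j - 1) = 2 ^ (j - 3) * 4 := by
            rw [show (4 : ℕ) = 2 ^ 2 by norm_num, ← pow_add]
            congr 1
            omega
          omega
      _ ≤ 2 ^ m * q * 2 ^ (2 ^ (j - 3)) := t6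
      _ = q * (2 ^ m * 2 ^ (2 ^ (j - 3))) := by ring
      _ ≤ q * (2 ^ (2 ^ (j - 3)) * 2 ^ (2 ^ (j - 3))) :=
          Nat.mul_le_mul_left _ (Nat.mul_le_mul_right _ t7)
  have t9 := Nat.le_of_mul_le_mul_right t8 (Nat.mul_pos hpos hpos)
  exact t7.trans t9

end Par

lemma dep_le (j₀ d : ℕ) : dep j₀ d + 2 * (j₀ + d) + 21 = 2 ^ d * (2 * j₀ + 22) := by
  induction d with
  | zero =>
    show 1 + 2 * (j₀ + 0) + 21 = _
    omega
  | succ d ih =>
    have h1 : dep j₀ (d + 1) = 2 * dep j₀ d + 2 * (j₀ + d + 7) + 5 := rfl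
    rw [h1, pow_succ, mul_comm (2 ^ d) 2, mul_assoc, ← ih]
    omega

lemma iter_le (q k P S : ℕ) (D ℓ : ℕ) :
    (Gf q k P S)^[D] ℓ + (k ^ (2 * P) * (S + 1) + 2) ≤
      (4 * q) ^ D * (ℓ + (k ^ (2 * P) * (S + 1) + 2)) ∨ q = 0 := by
  rcases Nat.eq_zero_or_pos q with h0 | h0
  · exact Or.inr h0
  left
  induction D with
  | zero => simp
  | succ D ih =>
    rw [Function.iterate_succ_apply', pow_succ]
    obtain ⟨X, hX⟩ : ∃ X, X = (Gf q k P S)^[D] ℓ := ⟨_, rfl⟩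
    obtain ⟨A, hA⟩ : ∃ A, A = k ^ (2 * P) * (S + 1) + 2 := ⟨_, rfl⟩
    rw [← hX] at ih ⊢
    have h1 : Gf q k P S X = (q - 1) * (4 * X + A) := by
      unfold Gf
      rw [hA]
      ring
    rw [h1]
    rw [← hA] at ih ⊢
    have h2 : (q - 1) * (4 * X + A) + A ≤ 4 * q * (X + A) := by
      calc (q - 1) * (4 * X + A) + A ≤ (q - 1) * (4 * (X + A)) + 4 * (X + A) := by
            apply Nat.add_le_add
            · exact Nat.mul_le_mul_left _ (by omega)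
            · omega
        _ = (q - 1 + 1) * (4 * (X + A)) := by ring
        _ = _ := by
            rw [Nat.sub_add_cancel h0]
            ring
    calc (q - 1) * (4 * X + A) + A ≤ 4 * q * (X + A) := h2
      _ ≤ 4 * q * ((4 * q) ^ D * (ℓ + A)) := Nat.mul_le_mul_left _ ih
      _ = _ := by ring

/-- **The program that reads everything.** -/
theorem Par.full {n j₀ d a : ℕ} (h : Par n (j₀ + d) a) (hd1 : j₀ ≤ d) (hd2 : d ≤ j₀ + 1)
    (E : Fin (2 ^ (8 * a)) ≃ (Fin (8 * a) → Bool))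
    (ι : (dg (j₀ + d)).Entry (2 ^ (8 * a)) × Fin (8 * a) → Fin n) :
    ∃ (Q : Type) (_ : Finite Q) (P : BP n Q), Nat.card Q ≤ 2 ^ Nat.sqrt n ∧
      ∀ x, P.Outputs x (ff E ι x) := by
  classical
  have hb := h.big
  have hlo := h.lo
  have hlin := h.lin
  obtain ⟨q, hq, hq1, hq2⟩ := Nat.exists_prime_lt_and_le_two_mul (4 * 2 ^ (j₀ + 7))
    (by positivity)
  have : Fact q.Prime := ⟨hq⟩
  have hcq : Fintype.card (ZMod q) = q := ZMod.card q
  have : NeZero (2 ^ (8 * a)) := ⟨by positivity⟩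
  obtain ⟨l, hl, el⟩ := full_k (ZMod q) (2 ^ (8 * a)) j₀ d (by rw [hcq]; omega)
  rw [hcq] at hl
  obtain ⟨Q, hQ, P, hP1, hP2⟩ := exists_bp (n := n) E ι (by omega : 0 < 8 * a) l
    ((0, z₀ _ _), false) (fun m => m.2)
  refine ⟨Q, hQ, P, ?_, ?_⟩
  swap
  · intro x
    have h1 := (hP2 x).1
    rw [el] at h1
    exact h1
  rw [hP1]
  -- the exponents
  obtain ⟨S, hS⟩ : ∃ S, S = Fintype.card (gr j₀).V := ⟨_, rfl⟩
  have hS1 : S ≤ 2 ^ (7 + j₀ + 2 * a) := by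
    rw [hS]
    refine (gr_card j₀).trans ?_
    calc 128 * 2 ^ j₀ * (j₀ + 5) ^ 2 ≤ 128 * 2 ^ j₀ * (2 ^ a) ^ 2 :=
          Nat.mul_le_mul_left _ (Nat.pow_le_pow_left (by omega) 2)
      _ = _ := by
          rw [← pow_mul, show 128 = 2 ^ 7 by norm_num, ← pow_add, ← pow_add]
          congr 1
          ring
  obtain ⟨D, hD⟩ : ∃ D, D = dep j₀ d := ⟨_, rfl⟩
  have hD1 : D ≤ 2 ^ (j₀ + a + 2) := by
    have h1 := dep_le j₀ d
    rw [← hD] at h1
    calc D ≤ 2 ^ d * (2 * j₀ + 22) := by omega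
      _ ≤ 2 ^ (j₀ + 1) * 2 ^ (a + 1) := by
          apply Nat.mul_le_mul (Nat.pow_le_pow_right (by norm_num) hd2)
          rw [pow_succ]
          omega
      _ = _ := by
          rw [← pow_add]
          congr 1
          ring
  have hq3 : q ≤ 2 ^ (j₀ + 10) := by
    refine hq2.trans (le_of_eq ?_)
    rw [show (2 : ℕ) * (4 * 2 ^ (j₀ + 7)) = 2 ^ 1 * (2 ^ 2 * 2 ^ (j₀ + 7)) by norm_num,
      ← pow_add, ← pow_add]
    congr 1
    ring
  obtain ⟨Z, hZ⟩ : ∃ Z, Z = 2 ^ (j₀ + 9 * a + 9) := ⟨_, rfl⟩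
  obtain ⟨A, hA⟩ : ∃ A, A = (2 ^ (8 * a)) ^ (2 * 2 ^ (j₀ + 7)) * (S + 1) + 2 := ⟨_, rfl⟩
  -- the length
  have hA1 : S + 1 + A ≤ 2 ^ (3 * Z) := by
    have e1 : S + 1 ≤ 2 ^ S := Nat.lt_two_pow_self
    have e2 : 1 ≤ (2 ^ (8 * a)) ^ (2 * 2 ^ (j₀ + 7)) := Nat.one_le_pow _ _ (by positivity)
    have e3 : S + 1 + A ≤ 4 * (2 ^ S * (2 ^ (8 * a)) ^ (2 * 2 ^ (j₀ + 7))) := by
      rw [hA]
      have e4 : S + 1 ≤ 2 ^ S * (2 ^ (8 * a)) ^ (2 * 2 ^ (j₀ + 7)) :=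
        e1.trans (Nat.le_mul_of_pos_right _ e2)
      have e5 : (2 ^ (8 * a)) ^ (2 * 2 ^ (j₀ + 7)) * (S + 1) ≤
          2 ^ S * (2 ^ (8 * a)) ^ (2 * 2 ^ (j₀ + 7)) := by
        rw [mul_comm]
        exact Nat.mul_le_mul_right _ e1
      have e6 : 1 ≤ 2 ^ S * (2 ^ (8 * a)) ^ (2 * 2 ^ (j₀ + 7)) :=
        Nat.mul_pos (by positivity) e2
      omega
    refine e3.trans ?_
    rw [show (4 : ℕ) = 2 ^ 2 by norm_num, ← pow_mul, ← pow_add, ← pow_add]
    apply Nat.pow_le_pow_right (by norm_num)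
    have f1 : 2 ≤ Z := by
      rw [hZ]
      calc 2 = 2 ^ 1 := by norm_num
        _ ≤ _ := Nat.pow_le_pow_right (by norm_num) (by omega)
    have f2 : S ≤ Z := by
      rw [hZ]
      exact hS1.trans (Nat.pow_le_pow_right (by norm_num) (by omega))
    have f3 : 8 * a * (2 * 2 ^ (j₀ + 7)) ≤ Z := by
      rw [hZ]
      calc 8 * a * (2 * 2 ^ (j₀ + 7)) ≤ 2 ^ a * (2 * 2 ^ (j₀ + 7)) :=
            Nat.mul_le_mul_right _ (by omega)
        _ = 2 ^ (a + (j₀ + 8)) := by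
            rw [show (2 : ℕ) * 2 ^ (j₀ + 7) = 2 ^ (j₀ + 8) by ring, ← pow_add]
        _ ≤ _ := Nat.pow_le_pow_right (by norm_num) (by omega)
    omega
  have hit : (Gf q (2 ^ (8 * a)) (2 ^ (j₀ + 7)) S)^[D] (S + 1) ≤ 2 ^ (4 * Z) := by
    rcases iter_le q (2 ^ (8 * a)) (2 ^ (j₀ + 7)) S D (S + 1) with h1 | h1
    · rw [← hA] at h1
      have h2 : (4 * q) ^ D ≤ 2 ^ Z := by
        calc (4 * q) ^ D ≤ (2 ^ (2 ^ a)) ^ D := by
              apply Nat.pow_le_pow_left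
              calc 4 * q ≤ 4 * 2 ^ (j₀ + 10) := Nat.mul_le_mul_left _ hq3
                _ = 2 ^ (j₀ + 12) := by
                    rw [pow_add 2 j₀ 12, pow_add 2 j₀ 10]
                    ring
                _ ≤ _ := Nat.pow_le_pow_right (by norm_num) (by omega)
          _ = 2 ^ (2 ^ a * D) := by rw [← pow_mul]
          _ ≤ 2 ^ (2 ^ a * 2 ^ (j₀ + a + 2)) :=
              Nat.pow_le_pow_right (by norm_num) (Nat.mul_le_mul_left _ hD1)
          _ ≤ _ := by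
              apply Nat.pow_le_pow_right (by norm_num)
              rw [← pow_add, hZ]
              exact Nat.pow_le_pow_right (by norm_num) (by omega)
      calc _ ≤ _ := Nat.le_add_right _ A
        _ ≤ _ := h1
        _ ≤ 2 ^ Z * 2 ^ (3 * Z) := Nat.mul_le_mul h2 hA1
        _ = _ := by
            rw [← pow_add]
            congr 1
            ring
    · rw [h1] at hq
      exact absurd hq Nat.not_prime_zero
  have hf0 : j₀ + d + 7 + 2 ≤ Z := by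
    rw [hZ]
    calc j₀ + d + 7 + 2 ≤ 2 ^ a * 2 := by omega
      _ = 2 ^ (a + 1) := by ring
      _ ≤ _ := Nat.pow_le_pow_right (by norm_num) (by omega)
  have hf1 : 8 * a ≤ Z := by
    rw [hZ]
    calc 8 * a ≤ 2 ^ a := by omega
      _ ≤ _ := Nat.pow_le_pow_right (by norm_num) (by omega)
  have hf2 : 1 ≤ Z := by
    rw [hZ]
    exact Nat.one_le_two_pow
  have hlen : l.length ≤ 2 ^ (5 * Z) := by
    rw [← hS, ← hD] at hl
    refine hl.trans ?_
    have h1 : 2 * (Gf q (2 ^ (8 * a)) (2 ^ (j₀ + 7)) S)^[D] (S + 1) + 1 ≤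
        4 * 2 ^ (4 * Z) := by
      have : 1 ≤ 2 ^ (4 * Z) := Nat.one_le_two_pow
      omega
    calc _ ≤ 2 ^ (j₀ + d + 7) * (4 * 2 ^ (4 * Z)) := Nat.mul_le_mul_left _ h1
      _ = 2 ^ (j₀ + d + 7 + 2 + 4 * Z) := by
          rw [show (4 : ℕ) * 2 ^ (4 * Z) = 2 ^ 2 * 2 ^ (4 * Z) by norm_num, ← pow_add,
            ← pow_add]
          congr 1
          ring
      _ ≤ _ := Nat.pow_le_pow_right (by norm_num) (by omega)
  have hlen2 : l.length * (8 * a + 1) + 1 ≤ 2 ^ (7 * Z) := by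
    have h1 : 8 * a + 1 ≤ 2 ^ (8 * a) := Nat.lt_two_pow_self
    calc l.length * (8 * a + 1) + 1 ≤ 2 ^ (5 * Z) * 2 ^ (8 * a) + 2 ^ (5 * Z) * 2 ^ (8 * a) := by
          apply Nat.add_le_add (Nat.mul_le_mul hlen h1)
          exact Nat.mul_pos (by positivity) (by positivity)
      _ = 2 ^ (5 * Z + 8 * a + 1) := by rw [← pow_add]; ring
      _ ≤ _ := Nat.pow_le_pow_right (by norm_num) (by omega)
  -- the memory
  have hmem : Nat.card (Mem (ZMod q) (Fin (j₀ + 7) → Bool) (2 ^ (8 * a)) (gr j₀).V × Bool) ≤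
      2 ^ (3 * Z) := by
    have h1 : Nat.card (Mem (ZMod q) (Fin (j₀ + 7) → Bool) (2 ^ (8 * a)) (gr j₀).V × Bool) =
        ((q ^ (2 ^ (8 * a))) ^ (2 ^ (j₀ + 7))) ^ 3 * (2 ^ (8 * a)) ^ S * 2 := by
      rw [Nat.card_eq_fintype_card, Fintype.card_prod, Fintype.card_prod, Fintype.card_fun,
        Fintype.card_fun, Fintype.card_fun, Fintype.card_fun, Fintype.card_fun, hcq,
        Fintype.card_fin, Fintype.card_fin, Fintype.card_fin, Fintype.card_bool, ← hS]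
    rw [h1]
    have h2 : ((q ^ (2 ^ (8 * a))) ^ (2 ^ (j₀ + 7))) ^ 3 ≤ 2 ^ Z := by
      calc ((q ^ (2 ^ (8 * a))) ^ (2 ^ (j₀ + 7))) ^ 3 ≤
            (((2 ^ (j₀ + 10)) ^ (2 ^ (8 * a))) ^ (2 ^ (j₀ + 7))) ^ 3 := by gcongr
        _ = 2 ^ ((j₀ + 10) * 2 ^ (8 * a) * 2 ^ (j₀ + 7) * 3) := by
            rw [← pow_mul, ← pow_mul, ← pow_mul]
            simp only [mul_assoc]
        _ ≤ _ := by
            apply Nat.pow_le_pow_right (by norm_num)
            rw [hZ]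
            calc (j₀ + 10) * 2 ^ (8 * a) * 2 ^ (j₀ + 7) * 3 ≤
                  2 ^ a * 2 ^ (8 * a) * 2 ^ (j₀ + 7) * 2 ^ 2 := by
                  have : j₀ + 10 ≤ 2 ^ a := by omega
                  gcongr
                  norm_num
              _ = _ := by
                  rw [← pow_add, ← pow_add, ← pow_add]
                  congr 1
                  ring
    have h3 : (2 ^ (8 * a)) ^ S ≤ 2 ^ Z := by
      rw [← pow_mul]
      apply Nat.pow_le_pow_right (by norm_num)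
      rw [hZ]
      calc 8 * a * S ≤ 2 ^ a * 2 ^ (7 + j₀ + 2 * a) := Nat.mul_le_mul (by omega) hS1
        _ = 2 ^ (a + (7 + j₀ + 2 * a)) := by rw [← pow_add]
        _ ≤ _ := Nat.pow_le_pow_right (by norm_num) (by omega)
    calc _ ≤ 2 ^ Z * 2 ^ Z * 2 := Nat.mul_le_mul_right _ (Nat.mul_le_mul h2 h3)
      _ = 2 ^ (Z + Z + 1) := by rw [← pow_add]; ring
      _ ≤ _ := Nat.pow_le_pow_right (by norm_num) (by omega)
  calc (l.length * (8 * a + 1) + 1) * (Nat.card (Mem (ZMod q) (Fin (j₀ + 7) → Bool)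
        (2 ^ (8 * a)) (gr j₀).V × Bool) * 2 ^ (8 * a)) ≤
        2 ^ (7 * Z) * (2 ^ (3 * Z) * 2 ^ Z) := by
        apply Nat.mul_le_mul hlen2
        apply Nat.mul_le_mul hmem
        exact Nat.pow_le_pow_right (by norm_num) hf1
    _ = 2 ^ (11 * Z) := by
        rw [← pow_add, ← pow_add]
        congr 1
        ring
    _ ≤ 2 ^ Nat.sqrt n := by
        apply Nat.pow_le_pow_right (by norm_num)
        rw [Nat.le_sqrt]
        have h1 : 11 * Z ≤ 2 ^ (j₀ + 9 * a + 13) := by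
          rw [hZ]
          calc 11 * 2 ^ (j₀ + 9 * a + 9) ≤ 2 ^ 4 * 2 ^ (j₀ + 9 * a + 9) :=
                Nat.mul_le_mul_right _ (by norm_num)
            _ = 2 ^ (j₀ + 9 * a + 13) := by
                rw [← pow_add]
                congr 1
                ring
        calc 11 * Z * (11 * Z) ≤ 2 ^ (j₀ + 9 * a + 13) * 2 ^ (j₀ + 9 * a + 13) :=
              Nat.mul_le_mul h1 h1
          _ = 2 ^ (j₀ + j₀ + 18 * a + 26) := by
              rw [← pow_add]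
              congr 1
              ring
          _ ≤ 2 ^ (j₀ + d + 19 * a) := Nat.pow_le_pow_right (by norm_num) (by omega)
          _ ≤ n := h.n_ge

/-- There are parameters for all large `n`. -/
lemma exists_par : ∃ n₀ : ℕ, ∀ n ≥ n₀, ∃ j a, Par n j a := by
  obtain ⟨H, hH⟩ : ∃ H : ℕ → ℕ, H = fun j => 2 ^ j * (2 * (j + 5)) ^ 19 := ⟨_, rfl⟩
  have hH1 : ∀ j, j ≤ H j := by
    intro j
    rw [hH]
    calc j ≤ 2 ^ j := Nat.lt_two_pow_self.le
      _ ≤ _ := Nat.le_mul_of_pos_right _ (by positivity)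
  have hmono : StrictMono H := by
    apply strictMono_nat_of_lt_succ
    intro j
    rw [hH]
    simp only
    apply Nat.mul_lt_mul_of_lt_of_le
    · exact Nat.pow_lt_pow_right (by norm_num) (Nat.lt_succ_self _)
    · exact Nat.pow_le_pow_left (by omega) _
    · positivity
  refine ⟨H (2 ^ 60), fun n hn => ?_⟩
  obtain ⟨j, hj⟩ : ∃ j, j = Nat.findGreatest (fun j => H j ≤ n) n := ⟨_, rfl⟩
  have h60 : 2 ^ 60 ≤ n := (hH1 _).trans hn
  have hj1 : H j ≤ n := by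
    rw [hj]
    exact Nat.findGreatest_spec (P := fun j => H j ≤ n) h60 hn
  have hj2 : 2 ^ 60 ≤ j := by
    rw [hj]
    exact Nat.le_findGreatest h60 hn
  have hj3 : n < H (j + 1) := by
    by_contra hcon
    push Not at hcon
    have h1 : j + 1 ≤ n := (hH1 _).trans hcon
    have h2 := Nat.le_findGreatest (P := fun j => H j ≤ n) h1 hcon
    rw [← hj] at h2
    omega
  refine ⟨j, Nat.clog 2 (j + 5), ⟨Nat.le_pow_clog (by norm_num) _, ?_, ?_, ?_, ?_⟩⟩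
  · have h1 := Nat.pow_pred_clog_lt_self (b := 2) (by norm_num) (x := j + 5) (by omega)
    have h2 : 0 < Nat.clog 2 (j + 5) := Nat.clog_pos (by norm_num) (by omega)
    obtain ⟨c, hc⟩ : ∃ c, c = Nat.clog 2 (j + 5) := ⟨_, rfl⟩
    rw [← hc] at h1 h2 ⊢
    obtain ⟨b, rfl⟩ : ∃ b, c = b + 1 := ⟨c - 1, by omega⟩
    have h3 : 2 ^ b < j + 5 := h1
    rw [pow_succ]
    omega
  · rw [hH] at hj1
    exact hj1
  · rw [hH] at hj3
    exact hj3
  · by_contra hcon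
    push Not at hcon
    have h1 := Nat.le_pow_clog (b := 2) (by norm_num) (j + 5)
    have h2 : 2 ^ Nat.clog 2 (j + 5) ≤ 2 ^ 60 := Nat.pow_le_pow_right (by norm_num) (by omega)
    omega

end Pool.Agent.W988.PF
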