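import Pool.Agent.W988.PF.BP

/-! Circuits from systems of formulas. -/

set_option autoImplicit false

namespace Pool.Agent.W988.PF

open Finset

/-- Formulas over input bits and variables. -/
inductive Fm (n : ℕ) (B : Type) : Type where
  | inp (i : Fin n) : Fm n B
  | con (b : Bool) : Fm n B
  | var (b : B) : Fm n B
  | bin (h : Bool → Bool → Bool) (φ ψ : Fm n B) : Fm n B

namespace Fm

variable {n : ℕ} {B : Type}

/-- the value -/
def eval (x : Fin n → Bool) (v : B → Bool) : Fm n B → Bool
  | inp i => x i
  | con b => b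
  | var b => v b
  | bin h φ ψ => h (φ.eval x v) (ψ.eval x v)

/-- the size -/
def size : Fm n B → ℕ
  | inp _ => 1
  | con _ => 1
  | var _ => 1
  | bin _ φ ψ => φ.size + ψ.size + 1

/-- all variables have small level -/
def Above (lvl : B → ℕ) (l : ℕ) : Fm n B → Prop
  | inp _ => True
  | con _ => True
  | var b => lvl b < l
  | bin _ φ ψ => φ.Above lvl l ∧ ψ.Above lvl l

/-- the positions -/
def Pos : Fm n B → Type
  | inp _ => Unit
  | con _ => Unit
  | var _ => Unit
  | bin _ φ ψ => Option (φ.Pos ⊕ ψ.Pos)

instance instFintypePos : (φ : Fm n B) → Fintype φ.Pos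
  | inp _ => inferInstanceAs (Fintype Unit)
  | con _ => inferInstanceAs (Fintype Unit)
  | var _ => inferInstanceAs (Fintype Unit)
  | bin _ φ ψ =>
    let _ := instFintypePos φ
    let _ := instFintypePos ψ
    inferInstanceAs (Fintype (Option (φ.Pos ⊕ ψ.Pos)))

lemma card_pos (φ : Fm n B) : Nat.card φ.Pos = φ.size := by
  induction φ with
  | inp i => exact Nat.card_unique (α := Unit)
  | con b => exact Nat.card_unique (α := Unit)
  | var b => exact Nat.card_unique (α := Unit)
  | bin h φ ψ ih1 ih2 =>
    show Nat.card (Option (φ.Pos ⊕ ψ.Pos)) = φ.size + ψ.size + 1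
    rw [← ih1, ← ih2, ← Nat.card_sum, Finite.card_option]

/-- the root -/
def root : (φ : Fm n B) → φ.Pos
  | inp _ => ()
  | con _ => ()
  | var _ => ()
  | bin _ _ _ => none

/-- the height of a position -/
def ht : (φ : Fm n B) → φ.Pos → ℕ
  | inp _, _ => 1
  | con _, _ => 1
  | var _, _ => 1
  | bin _ φ ψ, none => φ.size + ψ.size + 1
  | bin _ φ _, some (.inl p) => φ.ht p
  | bin _ _ ψ, some (.inr p) => ψ.ht p

lemma ht_root (φ : Fm n B) : φ.ht φ.root = φ.size := by
  cases φ <;> rfl

lemma ht_pos (φ : Fm n B) (p : φ.Pos) : 1 ≤ φ.ht p := by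
  induction φ with
  | inp i => exact le_rfl
  | con b => exact le_rfl
  | var b => exact le_rfl
  | bin h φ ψ ih1 ih2 =>
    match p with
    | none => exact Nat.le_add_left _ _
    | some (.inl p) => exact ih1 p
    | some (.inr p) => exact ih2 p

/-- the value of a position -/
def pv (x : Fin n → Bool) (v : B → Bool) : (φ : Fm n B) → φ.Pos → Bool
  | inp i, _ => x i
  | con b, _ => b
  | var b, _ => v b
  | bin h φ ψ, none => h (φ.eval x v) (ψ.eval x v)
  | bin _ φ _, some (.inl p) => φ.pv x v p
  | bin _ _ ψ, some (.inr p) => ψ.pv x v p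

lemma pv_root (x : Fin n → Bool) (v : B → Bool) (φ : Fm n B) :
    φ.pv x v φ.root = φ.eval x v := by
  cases φ <;> rfl

/-- the labels -/
def opA {Gate : Type} (root' : B → Gate) :
    (φ : Fm n B) → (φ.Pos → Gate) → φ.Pos → Op n Gate
  | inp i, _, _ => .inp i
  | con b, _, _ => .con b
  | var b, _, _ => .bin (fun a _ => a) (root' b) (root' b)
  | bin h φ ψ, emb, none => .bin h (emb (some (.inl φ.root))) (emb (some (.inr ψ.root)))
  | bin _ φ _, emb, some (.inl p) => opA root' φ (fun p => emb (some (.inl p))) p
  | bin _ _ ψ, emb, some (.inr p) => opA root' ψ (fun p => emb (some (.inr p))) p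

lemma opA_above {Gate : Type} (root' : B → Gate) (lvl : B → ℕ) (lev : Gate → ℕ) (l base : ℕ)
    (hroot : ∀ b, lvl b < l → lev (root' b) < base + 1) (φ : Fm n B) :
    ∀ (emb : φ.Pos → Gate), (∀ p, lev (emb p) = base + φ.ht p) → φ.Above lvl l →
      ∀ p, (opA root' φ emb p).Above lev (lev (emb p)) := by
  induction φ with
  | inp i => intro emb _ _ p; exact trivial
  | con b => intro emb _ _ p; exact trivial
  | var b =>
    intro emb hemb hab p
    have h1 := hroot b hab
    have h2 := hemb p
    have h3 : (var b : Fm n B).ht p = 1 := rfl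
    exact ⟨by omega, by omega⟩
  | bin h φ ψ ih1 ih2 =>
    intro emb hemb hab p
    match p with
    | none =>
      have h0 : lev (emb none) = base + (φ.size + ψ.size + 1) := hemb none
      have h1 : lev (emb (some (.inl φ.root))) = base + φ.size := by
        rw [hemb, ← ht_root φ]
        rfl
      have h2 : lev (emb (some (.inr ψ.root))) = base + ψ.size := by
        rw [hemb, ← ht_root ψ]
        rfl
      show lev (emb (some (.inl φ.root))) < lev (emb none) ∧
        lev (emb (some (.inr ψ.root))) < lev (emb none)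
      omega
    | some (.inl p) => exact ih1 _ (fun p => hemb (some (.inl p))) hab.1 p
    | some (.inr p) => exact ih2 _ (fun p => hemb (some (.inr p))) hab.2 p

lemma opA_eval {Gate : Type} (root' : B → Gate) (x : Fin n → Bool) (v : B → Bool)
    (u : Gate → Bool) (hroot : ∀ b, u (root' b) = v b) (φ : Fm n B) :
    ∀ (emb : φ.Pos → Gate), (∀ p, u (emb p) = φ.pv x v p) →
      ∀ p, u (emb p) = (opA root' φ emb p).eval x u := by
  induction φ with
  | inp i => intro emb hemb p; exact hemb p
  | con b => intro emb hemb p; exact hemb p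
  | var b =>
    intro emb hemb p
    rw [hemb p]
    exact (hroot b).symm
  | bin h φ ψ ih1 ih2 =>
    intro emb hemb p
    match p with
    | none =>
      have h1 : u (emb (some (.inl φ.root))) = φ.eval x v := by
        rw [hemb, ← pv_root x v φ]
        rfl
      have h2 : u (emb (some (.inr ψ.root))) = ψ.eval x v := by
        rw [hemb, ← pv_root x v ψ]
        rfl
      show u (emb none) = h (u (emb (some (.inl φ.root)))) (u (emb (some (.inr ψ.root))))
      rw [h1, h2, hemb]
      rfl
    | some (.inl p) => exact ih1 _ (fun p => hemb (some (.inl p))) p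
    | some (.inr p) => exact ih2 _ (fun p => hemb (some (.inr p))) p

/-- a formula with an operation over a list -/
def big (h : Bool → Bool → Bool) (z : Bool) : List (Fm n B) → Fm n B
  | [] => con z
  | φ :: l => bin h φ (big h z l)

lemma big_above {h : Bool → Bool → Bool} {z : Bool} {lvl : B → ℕ} {m : ℕ} (l : List (Fm n B))
    (hl : ∀ φ ∈ l, φ.Above lvl m) : (big h z l).Above lvl m := by
  induction l with
  | nil => exact trivial
  | cons φ l ih =>
    exact ⟨hl φ (List.mem_cons_self ..), ih (fun ψ hψ => hl ψ (List.mem_cons_of_mem _ hψ))⟩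

lemma big_size {h : Bool → Bool → Bool} {z : Bool} (l : List (Fm n B)) {m : ℕ}
    (hl : ∀ φ ∈ l, φ.size ≤ m) : (big h z l).size ≤ l.length * (m + 1) + 1 := by
  induction l with
  | nil => exact Nat.le_add_left _ _
  | cons φ l ih =>
    have h1 := hl φ (List.mem_cons_self ..)
    have h2 := ih (fun ψ hψ => hl ψ (List.mem_cons_of_mem _ hψ))
    show φ.size + (big h z l).size + 1 ≤ (l.length + 1) * (m + 1) + 1
    rw [Nat.succ_mul]
    omega

lemma big_and (x : Fin n → Bool) (v : B → Bool) (l : List (Fm n B)) :
    (big (· && ·) true l).eval x v = decide (∀ φ ∈ l, φ.eval x v = true) := by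
  induction l with
  | nil => simp [big, eval]
  | cons φ l ih =>
    show (φ.eval x v && (big (· && ·) true l).eval x v) = _
    rw [ih]
    cases h : φ.eval x v <;> simp [h]

lemma big_or (x : Fin n → Bool) (v : B → Bool) (l : List (Fm n B)) :
    (big (· || ·) false l).eval x v = decide (∃ φ ∈ l, φ.eval x v = true) := by
  induction l with
  | nil => simp [big, eval]
  | cons φ l ih =>
    show (φ.eval x v || (big (· || ·) false l).eval x v) = _
    rw [ih]
    cases h : φ.eval x v <;> simp [h]

end Fm

/-- **Circuits from systems of formulas.** -/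
theorem circ_of_system {n : ℕ} {B : Type} [Fintype B] (F : B → Fm n B) (lvl : B → ℕ)
    (hl : ∀ b, (F b).Above lvl (lvl b)) (out : B) {s : ℕ} (hs : ∀ b, (F b).size ≤ s) :
    ∃ C : Circuit n, C.size = ∑ b, (F b).size ∧
      ∀ x v, (∀ b, v b = (F b).eval x v) → C.Outputs x (v out) := by
  let root' : B → Σ b, (F b).Pos := fun b => ⟨b, (F b).root⟩
  let lev : (Σ b, (F b).Pos) → ℕ := fun g => (s + 1) * lvl g.1 + (F g.1).ht g.2
  refine ⟨{ Gate := Σ b, (F b).Pos
            fin := inferInstance
            op := fun g => Fm.opA root' (F g.1) (fun p => ⟨g.1, p⟩) g.2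
            lev := lev
            lev_lt := ?_
            out := root' out }, ?_, ?_⟩
  · rintro ⟨b, p⟩
    refine Fm.opA_above root' lvl lev (lvl b) ((s + 1) * lvl b) ?_ (F b) (fun p => ⟨b, p⟩)
      (fun p => rfl) (hl b) p
    intro b' hb'
    show (s + 1) * lvl b' + (F b').ht (F b').root < _
    rw [Fm.ht_root]
    have h1 := hs b'
    have h2 : (s + 1) * (lvl b' + 1) ≤ (s + 1) * lvl b := Nat.mul_le_mul_left _ hb'
    rw [Nat.mul_succ] at h2
    omega
  · show Nat.card (Σ b, (F b).Pos) = _
    rw [Nat.card_sigma]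
    exact Finset.sum_congr rfl fun b _ => Fm.card_pos _
  · intro x v hv
    refine ⟨fun g => (F g.1).pv x v g.2, ?_, ?_⟩
    · rintro ⟨b, p⟩
      refine Fm.opA_eval root' x v (fun g => (F g.1).pv x v g.2) ?_ (F b) (fun p => ⟨b, p⟩)
        (fun p => rfl) p
      intro b'
      show (F b').pv x v (F b').root = v b'
      rw [Fm.pv_root, ← hv b']
    · show (F out).pv x v (F out).root = v out
      rw [Fm.pv_root, ← hv out]

end Pool.Agent.W988.PF
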