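import Pool.Agent.W988.PF.Fin2

/-! The theorem. -/

set_option autoImplicit false

namespace Pool.Agent.W988.PF

open Finset
open Pool.Agent.W988.SR

theorem main_n {n j a : ℕ} (h : Par n j a) : ∃ f : (Fin n → Bool) → Bool,
    (∃ C : Circuit n, C.size ≤ n ∧ ∀ x, C.Outputs x (f x)) ∧
    (∃ (Q : Type) (_ : Finite Q) (P : BP n Q), Nat.card Q ≤ 2 ^ Nat.sqrt n ∧
      ∀ x, P.Outputs x (f x)) ∧
    (∃ (Q : Type) (_ : Finite Q) (P : BP n Q), Nat.card Q ≤ 2 ^ (n / Nat.log 2 n ^ 15) ∧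
      ∀ x, P.Outputs x (f x) ∧ P.reads x ≤ n / Nat.log 2 n ^ 15) ∧
    ∀ (Q : Type) (_ : Finite Q) (P : BP n Q),
      (1 / 2 + (1 / 2 : ℝ) ^ (n / Nat.log 2 n ^ 20)) * 2 ^ n ≤
        Nat.card {x : Fin n → Bool // P.Outputs x (f x) ∧ P.reads x ≤ n / Nat.log 2 n ^ 15} →
      2 ^ (n / Nat.log 2 n ^ 20) ≤ Nat.card Q := by
  classical
  have hb := h.big
  obtain ⟨E⟩ : Nonempty (Fin (2 ^ (8 * a)) ≃ (Fin (8 * a) → Bool)) := by
    apply Fintype.card_eq.1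
    simp
  have hf : Fintype.card ((dg j).Entry (2 ^ (8 * a)) × Fin (8 * a)) ≤
      Fintype.card (Fin n) := by
    rw [Fintype.card_prod, Fintype.card_fin, Fintype.card_fin]
    exact h.fits
  obtain ⟨ι'⟩ := Function.Embedding.nonempty_of_card_le hf
  obtain ⟨ι, hι⟩ : ∃ ι : (dg j).Entry (2 ^ (8 * a)) × Fin (8 * a) → Fin n,
      Function.Injective ι := ⟨ι', ι'.injective⟩
  refine ⟨ff E ι, ?_, ?_, ?_, ?_⟩
  · obtain ⟨C, hC1, hC2⟩ := exists_circ (E := E) (ι := ι) (G := dg j) (gr j).P_card (gr j).snk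
    refine ⟨C, hC1.trans (le_trans (le_of_eq ?_) h.circ_le), hC2⟩
    have h1 : Fintype.card (Fin (j + 7) → Bool) = 2 ^ (j + 7) := by simp
    rw [h1]
  · obtain ⟨j₀, d, hd1, hd2, rfl⟩ : ∃ j₀ d, j₀ ≤ d ∧ d ≤ j₀ + 1 ∧ j = j₀ + d :=
      ⟨j / 2, j - j / 2, by omega, by omega, by omega⟩
    exact h.full hd1 hd2 E ι
  · have : NeZero (2 ^ (8 * a)) := ⟨by positivity⟩
    obtain ⟨l, hl, el⟩ := few_k (dg j) (2 ^ (8 * a))
    obtain ⟨Q, hQ, P, hP1, hP2⟩ := exists_bp (n := n) E ι (by omega : 0 < 8 * a) l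
      (fun _ => 0) (fun m => decide ((∑ x, (m ((gr j).snk x)).val) % 2 = 1))
    obtain ⟨V, hV⟩ : ∃ V, V = Fintype.card (gr j).V := ⟨_, rfl⟩
    have hV1 : 1 ≤ V := by rw [hV]; exact h.cardV_pos
    have hfew := h.few_le
    rw [← hV] at hfew
    rw [← hV] at hl
    have h1 : V * (8 * a + 1) ≤ V * (3 * (8 * a) + 1) := Nat.mul_le_mul_left _ (by omega)
    refine ⟨Q, hQ, P, ?_, fun x => ⟨?_, ?_⟩⟩
    · rw [hP1, hl, Nat.card_eq_fintype_card, Fintype.card_fun, Fintype.card_fin, ← hV]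
      have h2 : V * (8 * a + 1) + 1 ≤ 2 ^ (V * (8 * a + 1)) := Nat.lt_two_pow_self
      calc (V * (8 * a + 1) + 1) * ((2 ^ (8 * a)) ^ V * 2 ^ (8 * a)) ≤
            2 ^ (V * (8 * a + 1)) * ((2 ^ (8 * a)) ^ V * 2 ^ (8 * a)) :=
            Nat.mul_le_mul_right _ h2
        _ = 2 ^ (V * (8 * a + 1) + (8 * a * V + 8 * a)) := by
            rw [← pow_mul, ← pow_add, ← pow_add]
        _ ≤ 2 ^ (V * (3 * (8 * a) + 1)) := by
            apply Nat.pow_le_pow_right (by norm_num)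
            have h3 : 8 * a ≤ 8 * a * V := Nat.le_mul_of_pos_right _ hV1
            have h4 : V * (3 * (8 * a) + 1) = V * (8 * a + 1) + (8 * a * V + 8 * a * V) := by
              ring
            omega
        _ ≤ _ := Nat.pow_le_pow_right (by norm_num) (h.div15 hfew)
    · have h2 := (hP2 x).1
      rw [el] at h2
      exact h2
    · have h2 := (hP2 x).2
      rw [hl] at h2
      exact h2.trans (h1.trans (h.div15 hfew))
  · intro Q hQ P hA
    exact h.low E hι P hA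

end Pool.Agent.W988.PF
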