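import Pool.Agent.W988.PF.Cnt

/-! The main inequality. -/

set_option autoImplicit false

namespace Pool.Agent.W988.PF

open Finset
open Pool.Agent.W988.SR

section low

variable {V Q : Type} [Fintype V] {G : Dag V} {k : ℕ}

lemma sum_big {α : Type} [DecidableEq α] (E : Finset α) (p : ℕ) (x : ℝ) (hx : 0 ≤ x) :
    ∑ D ∈ E.powerset.filter (fun D => p ≤ D.card), x ^ D.card ≤
      (1 / 2) ^ p * Real.exp (2 * x * E.card) := by
  have h1 : ∀ D ∈ E.powerset.filter (fun D => p ≤ D.card),
      x ^ D.card ≤ (1 / 2) ^ p * (2 * x) ^ D.card := by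
    intro D hD
    have hp := (mem_filter.1 hD).2
    have h2 : x ^ D.card = (1 / 2) ^ D.card * (2 * x) ^ D.card := by
      rw [← mul_pow]
      congr 1
      ring
    rw [h2]
    refine mul_le_mul_of_nonneg_right ?_ (by positivity)
    exact pow_le_pow_of_le_one (by norm_num) (by norm_num) hp
  calc ∑ D ∈ E.powerset.filter (fun D => p ≤ D.card), x ^ D.card
      ≤ ∑ D ∈ E.powerset.filter (fun D => p ≤ D.card), (1 / 2) ^ p * (2 * x) ^ D.card :=
        Finset.sum_le_sum h1
    _ ≤ ∑ D ∈ E.powerset, (1 / 2) ^ p * (2 * x) ^ D.card :=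
        Finset.sum_le_sum_of_subset_of_nonneg (Finset.filter_subset _ _)
          (fun _ _ _ => by positivity)
    _ = (1 / 2) ^ p * (2 * x + 1) ^ E.card := by
        rw [← Finset.mul_sum, ← Finset.sum_pow_mul_eq_add_pow]
        congr 1
        refine Finset.sum_congr rfl fun D _ => ?_
        rw [one_pow, mul_one]
    _ ≤ (1 / 2) ^ p * (Real.exp (2 * x)) ^ E.card := by
        refine mul_le_mul_of_nonneg_left ?_ (by positivity)
        exact pow_le_pow_left₀ (by positivity) (Real.add_one_le_exp _) _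
    _ = _ := by
        rw [← Real.exp_nat_mul]
        congr 2
        ring

lemma card_good_le {O X : Type} {P : Program (G.Entry k) k Q O} [Fintype Q] (hk : 0 < k)
    {snk : X → V} {s δ p : ℕ} (hs : 1 ≤ s)
    (hrob : Robust G snk (p + δ) (p + δ + 1)) :
    (Nat.card (Good P snk s δ) : ℝ) ≤
      Fintype.card Q * (Fintype.card V * k + 1) ^ δ *
        ((1 / 2) ^ p * Real.exp (2 * (s / k) * (EF G).card)) * Nat.card (G.Tables k) := by
  classical
  have hkR : (0 : ℝ) < k := by exact_mod_cast hk
  have hsR : (0 : ℝ) < s := by exact_mod_cast hs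
  set T : ℝ := (Nat.card (G.Tables k) : ℝ) with hT
  have hT0 : 0 ≤ T := Nat.cast_nonneg _
  let 𝒟 : Finset (Finset (V × V)) := (EF G).powerset.filter (fun D => p ≤ D.card)
  let Bx : Finset (V × V) → Finset (V → ℕ) := fun D =>
    Fintype.piFinset (fun x => range (s ^ (UD D x).card))
  let cls : Q → (Fin δ → Option (V × Fin k)) → Finset (V × V) → (V → ℕ) →
      Finset (G.Tables k) := fun q l D i =>
    univ.filter (fun I => I ∈ Cls P snk s δ p q l D i)
  have hsub : (univ.filter (fun I => I ∈ Good P snk s δ)) ⊆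
      univ.biUnion (fun q => univ.biUnion (fun l => 𝒟.biUnion (fun D =>
        (Bx D).biUnion (fun i => cls q l D i)))) := by
    intro I hI
    rw [mem_filter] at hI
    have hI := hI.2
    rw [mem_biUnion]
    refine ⟨P.state I (tm P s p I), mem_univ _, ?_⟩
    rw [mem_biUnion]
    refine ⟨lab P s δ I, mem_univ _, ?_⟩
    rw [mem_biUnion]
    refine ⟨DF P (dn P s I) I (tm P s p I), ?_, ?_⟩
    · rw [mem_filter, mem_powerset]
      refine ⟨?_, tm_spec hrob hI⟩
      intro z hz
      rw [mem_DF] at hz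
      rw [mem_EF]
      exact hz.2.2.1
    · rw [mem_biUnion]
      refine ⟨io P (dn P s I) I (tm P s p I), ?_, ?_⟩
      · rw [Fintype.mem_piFinset]
        intro x
        rw [mem_range]
        exact io_lt hs _ x
      · rw [mem_filter]
        exact ⟨mem_univ _, hI, rfl, rfl, rfl, rfl⟩
  have h1 : (Nat.card (Good P snk s δ) : ℝ) ≤
      ∑ q : Q, ∑ l : Fin δ → Option (V × Fin k), ∑ D ∈ 𝒟, ∑ i ∈ Bx D,
        ((cls q l D i).card : ℝ) := by
    have h2 : Nat.card (Good P snk s δ) =
        (univ.filter (fun I => I ∈ Good P snk s δ)).card := by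
      rw [Nat.card_eq_fintype_card, Fintype.card_subtype]
    rw [h2]
    have h3 : (univ.filter (fun I => I ∈ Good P snk s δ)).card ≤
        ∑ q : Q, ∑ l : Fin δ → Option (V × Fin k), ∑ D ∈ 𝒟, ∑ i ∈ Bx D,
          (cls q l D i).card := by
      refine (Finset.card_le_card hsub).trans ?_
      refine Finset.card_biUnion_le.trans (Finset.sum_le_sum fun q _ => ?_)
      refine Finset.card_biUnion_le.trans (Finset.sum_le_sum fun l _ => ?_)
      refine Finset.card_biUnion_le.trans (Finset.sum_le_sum fun D _ => ?_)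
      exact Finset.card_biUnion_le
    exact_mod_cast h3
  have h4 : ∀ q l D i, ((cls q l D i).card : ℝ) ≤ T / k ^ D.card := by
    intro q l D i
    rw [le_div_iff₀ (pow_pos hkR _)]
    have h5 := card_cls (P := P) snk s δ p q l D i
    have h6 : Nat.card (Cls P snk s δ p q l D i) = (cls q l D i).card := by
      rw [Nat.card_eq_fintype_card, Fintype.card_subtype]
    rw [h6] at h5
    rw [hT]
    exact_mod_cast h5
  have h7 : ∀ D, ((Bx D).card : ℝ) = (s : ℝ) ^ D.card := by
    intro D
    rw [Fintype.card_piFinset]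
    push_cast
    rw [← card_DF_eq_sum D, ← Finset.prod_pow_eq_pow_sum]
    refine Finset.prod_congr rfl (fun x _ => ?_)
    rw [card_range]
    push_cast
    rfl
  have h8 : ∀ q l D, ∑ i ∈ Bx D, ((cls q l D i).card : ℝ) ≤ T * (s / k) ^ D.card := by
    intro q l D
    calc ∑ i ∈ Bx D, ((cls q l D i).card : ℝ) ≤ ∑ _i ∈ Bx D, T / k ^ D.card :=
          Finset.sum_le_sum fun i _ => h4 q l D i
      _ = (Bx D).card * (T / k ^ D.card) := by rw [Finset.sum_const, nsmul_eq_mul]
      _ = T * (s / k) ^ D.card := by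
          rw [h7, div_pow]
          ring
  have h9 : ∑ D ∈ 𝒟, T * ((s : ℝ) / k) ^ D.card ≤
      T * ((1 / 2) ^ p * Real.exp (2 * (s / k) * (EF G).card)) := by
    rw [← Finset.mul_sum]
    exact mul_le_mul_of_nonneg_left (sum_big _ _ _ (by positivity)) hT0
  have h10 : (Fintype.card (Fin δ → Option (V × Fin k)) : ℝ) =
      (Fintype.card V * k + 1) ^ δ := by
    rw [Fintype.card_fun, Fintype.card_option, Fintype.card_prod, Fintype.card_fin,
      Fintype.card_fin]
    push_cast
    rfl
  calc (Nat.card (Good P snk s δ) : ℝ) ≤ _ := h1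
    _ ≤ ∑ _q : Q, ∑ _l : Fin δ → Option (V × Fin k), ∑ D ∈ 𝒟, T * ((s : ℝ) / k) ^ D.card :=
        Finset.sum_le_sum fun q _ => Finset.sum_le_sum fun l _ =>
          Finset.sum_le_sum fun D _ => h8 q l D
    _ ≤ ∑ _q : Q, ∑ _l : Fin δ → Option (V × Fin k),
        T * ((1 / 2) ^ p * Real.exp (2 * (s / k) * (EF G).card)) :=
        Finset.sum_le_sum fun q _ => Finset.sum_le_sum fun l _ => h9
    _ = _ := by
        rw [Finset.sum_const, Finset.sum_const, Finset.card_univ, Finset.card_univ,
          nsmul_eq_mul, nsmul_eq_mul, h10]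
        ring

/-- **The main inequality.** -/
theorem lowA {X : Type} [Fintype X] [Finite Q] {P : Program (G.Entry k) k Q Bool} (hk : 0 < k)
    (hk2 : Even k) {snk : X → V} (hsnk : Function.Injective snk)
    (hlast : ∀ x b, snk x ∉ G.pred b) {s δ p : ℕ} (hs : 1 ≤ s)
    (hrob : Robust G snk (p + δ) (p + δ + 1)) :
    (Nat.card {I : G.Tables k // P.Outputs I (par G snk I) ∧
      Nat.card {e : G.Entry k // P.Reads I e} < (δ + 1) * (s + 1)} : ℝ) ≤
      (1 / 2 +
        Nat.card Q * (Fintype.card V * k + 1) ^ δ *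
          ((1 / 2) ^ p * Real.exp (2 * (s / k) * (EF G).card))) * Nat.card (G.Tables k) := by
  classical
  have : Fintype Q := Fintype.ofFinite Q
  have hkR : (0 : ℝ) < k := by exact_mod_cast hk
  set T : ℝ := (Nat.card (G.Tables k) : ℝ) with hT
  have hT0 : 0 ≤ T := Nat.cast_nonneg _
  set A := univ.filter (fun I : G.Tables k => P.Outputs I (par G snk I) ∧
    Nat.card {e : G.Entry k // P.Reads I e} < (δ + 1) * (s + 1)) with hA
  set S₁ := univ.filter (fun I : G.Tables k => P.Outputs I (par G snk I) ∧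
    (unr P snk I).Nonempty) with hS₁
  set S₃ := univ.filter (fun I : G.Tables k => I ∈ Good P snk s δ) with hS₃
  have hsub : A ⊆ S₁ ∪ S₃ := by
    intro I hI
    rw [hA, mem_filter] at hI
    obtain ⟨_, ho, hr⟩ := hI
    rw [mem_union, hS₁, hS₃, mem_filter, mem_filter]
    by_cases h1 : (unr P snk I).Nonempty
    · exact Or.inl ⟨mem_univ _, ho, h1⟩
    · right
      refine ⟨mem_univ _, ?_, ?_⟩
      · have h3 := dn_card (P := P) s I
        have h4 : (dn P s I).card * (s + 1) < (δ + 1) * (s + 1) := lt_of_le_of_lt h3 hr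
        have h5 := Nat.lt_of_mul_lt_mul_right h4
        omega
      · intro x
        by_contra hcon
        push Not at hcon
        exact h1 ⟨x, hcon⟩
  have c1 : (S₁.card : ℝ) ≤ 1 / 2 * T := by
    have h := noSink (P := P) hsnk hk2 hlast
    have h2 : Nat.card {I : G.Tables k // P.Outputs I (par G snk I) ∧
        (unr P snk I).Nonempty} = S₁.card := by
      rw [Nat.card_eq_fintype_card, Fintype.card_subtype]
    rw [h2] at h
    have h3 : (2 : ℝ) * S₁.card ≤ T := by
      rw [hT]
      exact_mod_cast h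
    linarith
  have c3 : (S₃.card : ℝ) ≤ Nat.card Q * (Fintype.card V * k + 1) ^ δ *
          ((1 / 2) ^ p * Real.exp (2 * (s / k) * (EF G).card)) * T := by
    have h := card_good_le (P := P) hk hs hrob
    have h2 : Nat.card (Good P snk s δ) = S₃.card := by
      rw [Nat.card_eq_fintype_card, Fintype.card_subtype]
    rw [h2] at h
    rw [Nat.card_eq_fintype_card (α := Q)]
    exact h
  have hcard : Nat.card {I : G.Tables k // P.Outputs I (par G snk I) ∧
      Nat.card {e : G.Entry k // P.Reads I e} < (δ + 1) * (s + 1)} = A.card := by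
    rw [Nat.card_eq_fintype_card, Fintype.card_subtype]
  rw [hcard]
  have h6 := (Finset.card_le_card hsub).trans (Finset.card_union_le _ _)
  have h7 : (A.card : ℝ) ≤ S₁.card + S₃.card := by exact_mod_cast h6
  calc (A.card : ℝ) ≤ _ := h7
    _ ≤ _ := add_le_add c1 c3
    _ = _ := by ring

end low

end Pool.Agent.W988.PF
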