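import Pool.Agent.W988.PF.Fin1

/-! Parameters. -/

set_option autoImplicit false

namespace Pool.Agent.W988.PF

open Finset
open Pool.Agent.W988.SR

/-- the parameters -/
structure Par (n j a : ℕ) : Prop where
  lo : j + 5 ≤ 2 ^ a
  up : 2 ^ a ≤ 2 * (j + 5)
  nlo : 2 ^ j * (2 * (j + 5)) ^ 19 ≤ n
  nup : n < 2 ^ (j + 1) * (2 * (j + 6)) ^ 19
  big : 60 ≤ a

lemma sq_le_two_pow (a : ℕ) (ha : 60 ≤ a) : 2 ^ 20 * a ^ 2 ≤ 2 ^ a := by
  induction a, ha using Nat.le_induction with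
  | base => norm_num
  | succ a ha ih =>
    have h1 : (a + 1) ^ 2 ≤ 2 * a ^ 2 := by nlinarith
    calc 2 ^ 20 * (a + 1) ^ 2 ≤ 2 ^ 20 * (2 * a ^ 2) := Nat.mul_le_mul_left _ h1
      _ = 2 * (2 ^ 20 * a ^ 2) := by ring
      _ ≤ 2 * 2 ^ a := Nat.mul_le_mul_left _ ih
      _ = 2 ^ (a + 1) := by ring

namespace Par

variable {n j a : ℕ} (h : Par n j a)
include h

lemma sq : 2 ^ 20 * a ^ 2 ≤ 2 ^ a := sq_le_two_pow a h.big

lemma lin : 2 ^ 14 * a ≤ 2 ^ a := by
  have h1 := h.sq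
  have h2 := h.big
  nlinarith

lemma j_lo : 2 ^ 12 * a ≤ j := by
  have h1 := h.lin
  have h2 := h.up
  have h3 := h.big
  omega

lemma n_ge : 2 ^ (j + 19 * a) ≤ n := by
  refine le_trans ?_ h.nlo
  rw [pow_add, mul_comm 19 a, pow_mul]
  exact Nat.mul_le_mul_left _ (Nat.pow_le_pow_left h.up 19)

lemma n_pos : n ≠ 0 := by
  have := h.n_ge
  have h2 : 0 < 2 ^ (j + 19 * a) := by positivity
  omega

lemma L_lo : j + 6 ≤ Nat.log 2 n := by
  apply Nat.le_log_of_pow_le (by norm_num)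
  refine le_trans (Nat.pow_le_pow_right (by norm_num) ?_) h.n_ge
  have := h.big
  omega

lemma L_up : Nat.log 2 n ≤ 2 ^ (a + 1) := by
  have h1 : n < 2 ^ (2 ^ (a + 1)) := by
    refine lt_of_lt_of_le h.nup ?_
    have h2 : 2 * (j + 6) ≤ 2 ^ (a + 2) := by
      have := h.lo
      rw [pow_add]
      omega
    calc 2 ^ (j + 1) * (2 * (j + 6)) ^ 19 ≤ 2 ^ (j + 1) * (2 ^ (a + 2)) ^ 19 :=
          Nat.mul_le_mul_left _ (Nat.pow_le_pow_left h2 19)
      _ = 2 ^ (j + 1 + (a + 2) * 19) := by rw [← pow_mul, ← pow_add]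
      _ ≤ 2 ^ (2 ^ (a + 1)) := by
          apply Nat.pow_le_pow_right (by norm_num)
          have h3 := h.lo
          have h4 := h.lin
          have h5 := h.big
          rw [pow_succ]
          omega
  exact (Nat.log_lt_of_lt_pow h.n_pos h1).le

lemma L_half : 2 ^ (a - 1) ≤ Nat.log 2 n := by
  have h1 := h.L_lo
  have h2 := h.up
  have h3 := h.big
  have h4 : 2 ^ a = 2 * 2 ^ (a - 1) := by
    rw [← pow_succ']
    congr 1
    omega
  omega

lemma n_le : n ≤ 2 ^ (j + 20) * Nat.log 2 n ^ 19 := by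
  refine h.nup.le.trans ?_
  calc 2 ^ (j + 1) * (2 * (j + 6)) ^ 19 = 2 ^ (j + 20) * (j + 6) ^ 19 := by
        rw [mul_pow, ← mul_assoc, ← pow_add]
    _ ≤ _ := Nat.mul_le_mul_left _ (Nat.pow_le_pow_left h.L_lo 19)

lemma n15 : n / Nat.log 2 n ^ 15 ≤ 2 ^ (j + 24 + 4 * a) := by
  have hL : 0 < Nat.log 2 n := by
    have := h.L_lo
    omega
  apply Nat.div_le_of_le_mul
  calc n ≤ 2 ^ (j + 20) * Nat.log 2 n ^ 19 := h.n_le
    _ = Nat.log 2 n ^ 15 * (2 ^ (j + 20) * Nat.log 2 n ^ 4) := by ring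
    _ ≤ Nat.log 2 n ^ 15 * (2 ^ (j + 20) * (2 ^ (a + 1)) ^ 4) := by
        apply Nat.mul_le_mul_left
        apply Nat.mul_le_mul_left
        exact Nat.pow_le_pow_left h.L_up 4
    _ = Nat.log 2 n ^ 15 * 2 ^ (j + 24 + 4 * a) := by
        congr 1
        rw [← pow_mul, ← pow_add]
        congr 1
        ring

lemma n20 : n / Nat.log 2 n ^ 20 ≤ 2 ^ (j - 3) := by
  have hL : 0 < Nat.log 2 n := by
    have := h.L_lo
    omega
  have hb := h.big
  have hj := h.j_lo
  apply Nat.div_le_of_le_mul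
  calc n ≤ 2 ^ (j + 20) * Nat.log 2 n ^ 19 := h.n_le
    _ ≤ (Nat.log 2 n * 2 ^ (j - 3)) * Nat.log 2 n ^ 19 := by
        apply Nat.mul_le_mul_right
        calc 2 ^ (j + 20) = 2 ^ 23 * 2 ^ (j - 3) := by
              rw [← pow_add]
              congr 1
              omega
          _ ≤ _ := by
              apply Nat.mul_le_mul_right
              refine le_trans ?_ h.L_half
              exact Nat.pow_le_pow_right (by norm_num) (by omega)
    _ = _ := by ring

lemma div15 {x : ℕ} (hx : x ≤ 2 ^ (j + 3 * a)) : x ≤ n / Nat.log 2 n ^ 15 := by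
  have hL : 0 < Nat.log 2 n := by
    have := h.L_lo
    omega
  have hb := h.big
  rw [Nat.le_div_iff_mul_le (pow_pos hL _)]
  calc x * Nat.log 2 n ^ 15 ≤ 2 ^ (j + 3 * a) * (2 ^ (a + 1)) ^ 15 :=
        Nat.mul_le_mul hx (Nat.pow_le_pow_left h.L_up 15)
    _ = 2 ^ (j + 3 * a + (a + 1) * 15) := by rw [← pow_mul, ← pow_add]
    _ ≤ 2 ^ (j + 19 * a) := Nat.pow_le_pow_right (by norm_num) (by omega)
    _ ≤ n := h.n_ge

lemma cardV : Fintype.card (gr j).V ≤ 2 ^ (7 + j + 2 * a) := by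
  refine (gr_card j).trans ?_
  calc 128 * 2 ^ j * (j + 5) ^ 2 ≤ 128 * 2 ^ j * (2 ^ a) ^ 2 :=
        Nat.mul_le_mul_left _ (Nat.pow_le_pow_left h.lo 2)
    _ = _ := by
        rw [← pow_mul, show 128 = 2 ^ 7 by norm_num, ← pow_add, ← pow_add]
        congr 1
        ring

lemma cardV_pos : 1 ≤ Fintype.card (gr j).V :=
  Fintype.card_pos_iff.2 ⟨(gr j).src (fun _ => false)⟩

/-- there are enough bits -/
lemma fits : Fintype.card ((dg j).Entry (2 ^ (8 * a))) * (8 * a) ≤ n := by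
  refine le_trans ?_ h.n_ge
  have h1 := card_entry j (2 ^ (8 * a)) (by positivity)
  have h2 := h.lin
  calc Fintype.card ((dg j).Entry (2 ^ (8 * a))) * (8 * a) ≤
        (2 ^ (7 + j + 2 * a) * (2 ^ (8 * a)) ^ 2) * (8 * a) := by
        apply Nat.mul_le_mul_right
        exact h1.trans (Nat.mul_le_mul_right _ h.cardV)
    _ = 2 ^ (j + 18 * a) * (2 ^ 7 * (8 * a)) := by
        have : (2 : ℕ) ^ (7 + j + 2 * a) * (2 ^ (8 * a)) ^ 2 = 2 ^ (j + 18 * a) * 2 ^ 7 := by
          rw [← pow_mul, ← pow_add, ← pow_add]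
          congr 1
          ring
        rw [this]
        ring
    _ ≤ 2 ^ (j + 18 * a) * 2 ^ a := by
        apply Nat.mul_le_mul_left
        omega
    _ = _ := by
        rw [← pow_add]
        congr 1
        ring

/-- the size of the circuit -/
lemma circ_le : Fintype.card (gr j).V * (8 * a) *
      (2 ^ (8 * a) * 2 ^ (8 * a) * (8 * (8 * a) + 8) + 1) +
    (2 ^ (j + 7) * (2 ^ (8 * a) * (4 * (8 * a) + 2) + 2) + 1) ≤ n := by
  refine le_trans ?_ h.n_ge
  have hb := h.big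
  obtain ⟨k, hk⟩ : ∃ k, k = 2 ^ (8 * a) := ⟨_, rfl⟩
  rw [← hk]
  have hk1 : 1 ≤ k := by rw [hk]; exact Nat.one_le_two_pow
  have hV := h.cardV
  obtain ⟨W, hW⟩ : ∃ W, W = 2 ^ (7 + j + 2 * a) := ⟨_, rfl⟩
  rw [← hW] at hV
  have hW2 : 2 ^ (j + 7) ≤ W := by
    rw [hW]
    exact Nat.pow_le_pow_right (by norm_num) (by omega)
  have hW1 : 1 ≤ W := by rw [hW]; exact Nat.one_le_two_pow
  have e1 : Fintype.card (gr j).V * (8 * a) * (k * k * (8 * (8 * a) + 8) + 1) ≤
      W * (k * k) * (8 * a * (64 * a + 9)) := by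
    calc Fintype.card (gr j).V * (8 * a) * (k * k * (8 * (8 * a) + 8) + 1) ≤
          W * (8 * a) * (k * k * (8 * (8 * a) + 8) + k * k) := by
          apply Nat.mul_le_mul (Nat.mul_le_mul_right _ hV)
          have : 1 ≤ k * k := Nat.mul_pos hk1 hk1
          omega
      _ = _ := by ring
  have e2 : 2 ^ (j + 7) * (k * (4 * (8 * a) + 2) + 2) + 1 ≤ W * (k * k) * (32 * a + 5) := by
    calc 2 ^ (j + 7) * (k * (4 * (8 * a) + 2) + 2) + 1 ≤
          W * (k * k * (4 * (8 * a) + 2) + k * k * 2) + W * (k * k) := by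
          apply Nat.add_le_add
          · apply Nat.mul_le_mul hW2
            have h3 : 1 ≤ k * k := Nat.mul_pos hk1 hk1
            have h4 : k ≤ k * k := Nat.le_mul_of_pos_right k hk1
            have h5 : k * (4 * (8 * a) + 2) ≤ k * k * (4 * (8 * a) + 2) :=
              Nat.mul_le_mul_right _ h4
            omega
          · exact Nat.mul_pos hW1 (Nat.mul_pos hk1 hk1)
      _ = _ := by ring
  have e3 : 8 * a * (64 * a + 9) + (32 * a + 5) ≤ 2 ^ 11 * a ^ 2 := by nlinarith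
  have e4 : W * (k * k) * (2 ^ 11 * a ^ 2) ≤ 2 ^ (j + 19 * a) := by
    have e5 := h.sq
    calc W * (k * k) * (2 ^ 11 * a ^ 2) = 2 ^ (j + 18 * a) * (2 ^ 18 * a ^ 2) := by
          rw [hW, hk]
          have : (2 : ℕ) ^ (7 + j + 2 * a) * (2 ^ (8 * a) * 2 ^ (8 * a)) =
              2 ^ (j + 18 * a) * 2 ^ 7 := by
            rw [← pow_add, ← pow_add, ← pow_add]
            congr 1
            ring
          rw [this]
          ring
      _ ≤ 2 ^ (j + 18 * a) * 2 ^ a := by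
          apply Nat.mul_le_mul_left
          omega
      _ = _ := by
          rw [← pow_add]
          congr 1
          ring
  calc _ ≤ W * (k * k) * (8 * a * (64 * a + 9)) + W * (k * k) * (32 * a + 5) :=
        Nat.add_le_add e1 e2
    _ = W * (k * k) * (8 * a * (64 * a + 9) + (32 * a + 5)) := by ring
    _ ≤ W * (k * k) * (2 ^ 11 * a ^ 2) := Nat.mul_le_mul_left _ e3
    _ ≤ _ := e4

/-- the program that reads few bits -/
lemma few_le : Fintype.card (gr j).V * (3 * (8 * a) + 1) ≤ 2 ^ (j + 3 * a) := by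
  have h1 := h.cardV
  have h2 := h.lin
  have h3 := h.big
  calc Fintype.card (gr j).V * (3 * (8 * a) + 1) ≤ 2 ^ (7 + j + 2 * a) * (2 ^ 5 * a) :=
        Nat.mul_le_mul h1 (by omega)
    _ = 2 ^ (j + 2 * a) * (2 ^ 12 * a) := by
        have : (2 : ℕ) ^ (7 + j + 2 * a) = 2 ^ (j + 2 * a) * 2 ^ 7 := by
          rw [← pow_add]
          congr 1
          ring
        rw [this]
        ring
    _ ≤ 2 ^ (j + 2 * a) * 2 ^ a := by
        apply Nat.mul_le_mul_left
        omega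
    _ = _ := by
        rw [← pow_add]
        congr 1
        ring

end Par

end Pool.Agent.W988.PF
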